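import Pool.Agent.H91.CH.SecW
import Pool.Agent.H91.CH.UprW
import Pool.Agent.H69.PG.Abs

/-!
# AB5: the abstract theorem, two of five bins are occupied

Compare `absw` (`Pool/Agent/H91/CH/AbsW.lean`); no fourth moment is needed here. Write `P t = Ps m N v l g t ^ 2 ≥ 0`, `M0 = MM m N v l V s ≥ 1` (`Abs_MM`), for a bin `b`: `κ_b = {j : bin j = b}`, `S_b(t) = #{j ∈ κ_b : pr j t}`, `x_b = ∑_{j ∈ κ_b} Xj j (≥ 100 X)`.
Suppose the conclusion fails: for every `t ∈ T` with `∀ i, ¬ ρ i t` at most one bin has `S_b(t) > 0`. With `a_b = (9/2) x_b/X` one has `2 S/a - S²/a² ≤ 1` for every real `S` and it is `0` for `S = 0`, so for every `t ∈ T`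
`∑_b (2 S_b(t)/a_b - S_b(t)²/a_b²) ≤ 1 + 5 ∑_i [ρ i t]`  (number of bins with `S_b > 0`; at most `5`). Multiply by `w t P t` and sum over `t`:
* `∑_t w P ≤ X M0 (1 + 1/100)` (`H91CH.secw` for `h1`, `hE1`, `M0 ≥ 1`),
* `∑_i ∑_{ρ i t} w P ≤ X M0 (1/200 + 1/200)` (`H91CH.uprw`, `hB`, `hE2`),
* `(99/100) Xj M0 ≤ ∑_t [pr j t] w P ≤ (101/100) Xj M0` (`secw` for `h1j`),
* `S_b² = ∑_{j ∈ κ_b} [pr j] + ∑_{j ≠ j' ∈ κ_b} [pr j ∧ pr j']`, `∑_{j ≠ j'} Xp j j' ≤ (9/2) x_b²/X`.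
So the left side is `≥ M0 ∑_b (2 (99/100) x_b/a_b - (101/100)(x_b + (9/2) x_b²/X)/a_b²) = X M0 ∑_b ((97/100)/(9/2) - (101/100) X/((81/4) x_b)) ≥ X M0 * 5 ((97/450) - (101/100)/2025) ≥ (107/100) X M0`, the right side is `≤ X M0 (101/100 + 5/100) = (106/100) X M0`. Contradiction, as `X M0 > 0`.
-/

set_option autoImplicit false

open Finset H69PG

namespace H86FP

variable {ι : Type} [Fintype ι] [DecidableEq ι]

/-- the pointwise bound for one bin -/
theorem AB5_one (S a : ℝ) (ha : 0 < a) : 2 * S / a - S ^ 2 / a ^ 2 ≤ 1 := by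
  have h1 : 2 * S / a - S ^ 2 / a ^ 2 = 1 - (1 - S / a) ^ 2 := by
    field_simp
    ring
  rw [h1]
  nlinarith [sq_nonneg (1 - S / a)]

open Classical in
/-- the pointwise inequality -/
theorem AB5_pt {κ : Type} [Fintype κ] [DecidableEq κ] (bin : κ → Fin 5) (pr : κ → Prop) (ρ : ι → Prop) {a : Fin 5 → ℝ}
    (ha : ∀ b, 0 < a b) (hn : (∀ i, ¬ ρ i) → ∀ j j' : κ, pr j → pr j' → bin j = bin j') :
    ∑ b : Fin 5, (2 * (∑ j ∈ univ.filter (fun j => bin j = b), if pr j then (1 : ℝ) else 0) / a b -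
      (∑ j ∈ univ.filter (fun j => bin j = b), if pr j then (1 : ℝ) else 0) ^ 2 / a b ^ 2) ≤
      1 + 5 * ∑ i : ι, if ρ i then (1 : ℝ) else 0 := by
  have hR : (0 : ℝ) ≤ ∑ i : ι, if ρ i then (1 : ℝ) else 0 :=
    Finset.sum_nonneg fun i _ => by split_ifs <;> norm_num
  by_cases h : ∀ i, ¬ ρ i
  · have hn' := hn h
    by_cases h1 : ∃ j0, pr j0
    · obtain ⟨j0, hj0⟩ := h1
      have h2 : ∀ b ∈ (univ : Finset (Fin 5)), b ≠ bin j0 →
          (2 * (∑ j ∈ univ.filter (fun j => bin j = b), if pr j then (1 : ℝ) else 0) / a b -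
          (∑ j ∈ univ.filter (fun j => bin j = b), if pr j then (1 : ℝ) else 0) ^ 2 / a b ^ 2) = 0 := by
        intro b _ hb
        have h3 : (∑ j ∈ univ.filter (fun j => bin j = b), if pr j then (1 : ℝ) else 0) = 0 := by
          refine Finset.sum_eq_zero fun j hj => ?_
          rw [Finset.mem_filter] at hj
          rw [if_neg]
          intro h4
          exact hb (hj.2.symm.trans (hn' j j0 h4 hj0))
        rw [h3]
        simp
      rw [Finset.sum_eq_single_of_mem (bin j0) (Finset.mem_univ _) h2]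
      have h5 := AB5_one (∑ j ∈ univ.filter (fun j => bin j = bin j0), if pr j then (1 : ℝ) else 0) (a (bin j0)) (ha _)
      linarith
    · push Not at h1
      have h3 : ∀ b, (∑ j ∈ univ.filter (fun j => bin j = b), if pr j then (1 : ℝ) else 0) = 0 := by
        intro b
        refine Finset.sum_eq_zero fun j hj => ?_
        rw [if_neg (h1 j)]
      have h4 : ∑ b : Fin 5, (2 * (∑ j ∈ univ.filter (fun j => bin j = b), if pr j then (1 : ℝ) else 0) / a b -
          (∑ j ∈ univ.filter (fun j => bin j = b), if pr j then (1 : ℝ) else 0) ^ 2 / a b ^ 2) = 0 := by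
        refine Finset.sum_eq_zero fun b _ => ?_
        rw [h3 b]
        simp
      rw [h4]
      linarith
  · push Not at h
    obtain ⟨i, hi⟩ := h
    have h3 : (1 : ℝ) ≤ ∑ i : ι, if ρ i then (1 : ℝ) else 0 := by
      have := Finset.single_le_sum (s := (univ : Finset ι)) (f := fun i => if ρ i then (1 : ℝ) else 0)
        (fun i _ => by
          show (0 : ℝ) ≤ if ρ i then (1 : ℝ) else 0
          split_ifs <;> norm_num) (Finset.mem_univ i)
      rw [if_pos hi] at this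
      exact this
    have h4 : ∑ b : Fin 5, (2 * (∑ j ∈ univ.filter (fun j => bin j = b), if pr j then (1 : ℝ) else 0) / a b -
        (∑ j ∈ univ.filter (fun j => bin j = b), if pr j then (1 : ℝ) else 0) ^ 2 / a b ^ 2) ≤ ∑ b : Fin 5, (1 : ℝ) :=
      Finset.sum_le_sum fun b _ => AB5_one _ _ (ha b)
    have h5 : ∑ b : Fin 5, (1 : ℝ) = 5 := by simp
    rw [h5] at h4
    linarith

open Classical in
/-- the first moment of a bin -/
theorem AB5_m1 {κ : Type} (T : Finset ℕ) (K : Finset κ) (pr : κ → ℕ → Prop) (w P : ℕ → ℝ) :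
    ∑ t ∈ T, (w t * P t) * (∑ j ∈ K, if pr j t then (1 : ℝ) else 0) =
      ∑ j ∈ K, ∑ t ∈ T, (if pr j t then w t else 0) * P t := by
  rw [Finset.sum_comm (s := K)]
  refine Finset.sum_congr rfl fun t _ => ?_
  rw [Finset.mul_sum]
  refine Finset.sum_congr rfl fun j _ => ?_
  split_ifs <;> ring

open Classical in
/-- the second moment of a bin -/
theorem AB5_m2 {κ : Type} [DecidableEq κ] (T : Finset ℕ) (K : Finset κ) (pr : κ → ℕ → Prop) (w P : ℕ → ℝ) :
    ∑ t ∈ T, (w t * P t) * (∑ j ∈ K, if pr j t then (1 : ℝ) else 0) ^ 2 =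
      ∑ j ∈ K, ∑ j' ∈ K, ∑ t ∈ T, (if pr j t ∧ pr j' t then w t else 0) * P t := by
  have h1 : ∀ j ∈ K, ∑ j' ∈ K, ∑ t ∈ T, (if pr j t ∧ pr j' t then w t else 0) * P t =
      ∑ t ∈ T, ∑ j' ∈ K, (if pr j t ∧ pr j' t then w t else 0) * P t := fun j _ => Finset.sum_comm
  rw [Finset.sum_congr rfl h1, Finset.sum_comm (s := K)]
  refine Finset.sum_congr rfl fun t _ => ?_
  rw [sq, Finset.sum_mul_sum, Finset.mul_sum]
  refine Finset.sum_congr rfl fun j _ => ?_
  rw [Finset.mul_sum]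
  refine Finset.sum_congr rfl fun j' _ => ?_
  by_cases h2 : pr j t
  · by_cases h3 : pr j' t
    · rw [if_pos h2, if_pos h3, if_pos ⟨h2, h3⟩]
      ring
    · rw [if_pos h2, if_neg h3, if_neg (fun h => h3 h.2)]
      ring
  · have h4 : ¬ (pr j t ∧ pr j' t) := fun h => h2 h.1
    rw [if_neg h2, if_neg h4]
    ring

/-- the numbers of one bin -/
theorem AB5_num {X M0 x A1 A2 : ℝ} (hX : 0 < X) (hM0 : 0 < M0) (hx : 100 * X ≤ x) (h1 : 99 / 100 * x * M0 ≤ A1)
    (h2 : A2 ≤ 101 / 100 * x * M0 + 9 / 2 * (x * x) / X * (101 / 100 * M0)) :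
    215 / 1000 * (X * M0) ≤ 2 * A1 / (9 / 2 * x / X) - A2 / (9 / 2 * x / X) ^ 2 := by
  have hx0 : 0 < x := by linarith
  have ha : 0 < 9 / 2 * x / X := by positivity
  have e1 : 2 * (99 / 100 * x * M0) / (9 / 2 * x / X) = 44 / 100 * (X * M0) := by
    field_simp
    ring
  have e2 : (101 / 100 * x * M0 + 9 / 2 * (x * x) / X * (101 / 100 * M0)) / (9 / 2 * x / X) ^ 2 =
      (404 / 8100 * (X / x) + 202 / 900) * (X * M0) := by
    field_simp
    ring
  have h3 : 2 * (99 / 100 * x * M0) / (9 / 2 * x / X) ≤ 2 * A1 / (9 / 2 * x / X) := by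
    apply div_le_div_of_nonneg_right _ ha.le
    linarith
  have h4 : A2 / (9 / 2 * x / X) ^ 2 ≤
      (101 / 100 * x * M0 + 9 / 2 * (x * x) / X * (101 / 100 * M0)) / (9 / 2 * x / X) ^ 2 :=
    div_le_div_of_nonneg_right h2 (by positivity)
  rw [e1] at h3
  rw [e2] at h4
  have h5 : X / x ≤ 1 / 100 := by
    rw [div_le_div_iff₀ hx0 (by norm_num)]
    linarith
  have h6 : (404 / 8100 * (X / x) + 202 / 900) * (X * M0) ≤ (404 / 8100 * (1 / 100) + 202 / 900) * (X * M0) := by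
    apply mul_le_mul_of_nonneg_right _ (by positivity)
    linarith
  have h7 : 0 < X * M0 := by positivity
  linarith

open Classical in
theorem abs5 {m N : ℕ} (hN : 1 ≤ N) {v : ℕ → ℝ} {l vm : ℝ} {V : Finset ι → ℝ} {μ : ℝ} (h : Vh V μ (2 * N + 1)) {s q : ℕ → ℝ}
    (hs : ∀ a, 0 ≤ s a) (hs0 : s 0 = 1) (hv : ∀ a, 0 ≤ v a) (hv0 : v 0 = 0) (hvm : ∀ a ∈ Icc 1 m, v a ≤ vm) (hl : vm < l)
    (hl0 : 0 ≤ l) (hq : ∀ a, 0 ≤ q a) (hq1 : ∑ a ∈ Icc 1 m, q a = 1)
    {κ : Type} [Fintype κ] [DecidableEq κ]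
    {T : Finset ℕ} {g : ι → ℕ → ℕ → ℝ} {β : ι → ℕ → ℝ} {ρ : ι → ℕ → Prop} {η G : ℝ} (hη : 0 ≤ η) (hG : 0 ≤ G)
    (hg0 : ∀ i t, g i 0 t = 1) (hβ : ∀ i t, 0 ≤ β i t)
    (hρ : ∀ i, ∀ t ∈ T, ρ i t → 1 ≤ β i t ∧ ∀ a ∈ Icc 1 m, g i a t = - q a)
    {pr : κ → ℕ → Prop} {w : ℕ → ℝ} (hw : ∀ t, 0 ≤ w t) {X : ℝ} {Xj : κ → ℝ} {Xp : κ → κ → ℝ} (hX : 0 < X) (hXj0 : ∀ j, 0 ≤ Xj j)
    (h1 : ∀ n ∈ Cf ι m N v l, ∀ n' ∈ Cf ι m N v l,
      |∑ t ∈ T, w t * ∏ i, (g i (n i) t * g i (n' i) t) - X * (if n = n' then ms V s n else 0)| ≤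
        X * (η * V (sp n ∪ sp n')))
    (h1j : ∀ j : κ, ∀ n ∈ Cf ι m N v l, ∀ n' ∈ Cf ι m N v l,
      |∑ t ∈ T, (if pr j t then w t else 0) * ∏ i, (g i (n i) t * g i (n' i) t) -
          Xj j * (if n = n' then ms V s n else 0)| ≤
        Xj j * (η * V (sp n ∪ sp n')))
    (h2 : ∀ k : ι, ∀ n ∈ Cf ι m N v l, ∀ n' ∈ Cf ι m N v l, n k = 0 → n' k = 0 →
      |∑ t ∈ T, w t * ((∏ i, (g i (n i) t * g i (n' i) t)) * β k t) -
          X * (if n = n' then G * (V (insert k (sp n)) * ∏ i, s (n i)) else 0)| ≤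
        X * (η * V (insert k (sp n ∪ sp n'))))
    (hp : ∀ j j', j ≠ j' → ∑ t ∈ T, (if pr j t ∧ pr j' t then w t else 0) * Ps m N v l g t ^ 2 ≤
      Xp j j' * (101 / 100 * MM m N v l V s))
    (hXp : ∀ j j', j ≠ j' → Xp j j' * X ≤ 9 / 2 * (Xj j * Xj j'))
    (bin : κ → Fin 5) (hM : ∀ b : Fin 5, 100 * X ≤ ∑ j ∈ univ.filter (fun j => bin j = b), Xj j)
    (hE1 : η * (1 + ((m : ℝ) + 1) ^ 2 * μ) ^ (2 * N) ≤ 1 / 100)
    (hE2 : η * ((2 * (N : ℝ) + 1) * (1 + ((m : ℝ) + 1) ^ 2 * μ) ^ (2 * N + 1)) ≤ 1 / 200)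
    (hB : G * (μ * (μ * (∑ a ∈ Icc 1 m, s a) / N + μ * (∑ a ∈ Icc 1 m, s a * v a) / (l - vm))) ≤ 1 / 200) :
    ∃ t ∈ T, (∀ i, ¬ ρ i t) ∧ ∃ j j' : κ, bin j ≠ bin j' ∧ pr j t ∧ pr j' t := by
  have hμ : 0 ≤ μ := h.μ_nonneg
  by_contra hcon
  have hMM : 1 ≤ MM m N v l V s := Abs_MM h.nonneg h.empty hs hs0 hv0 hl0
  have hsec := H91CH.secw (v := v) (l := l) (Abs_vh h (by omega : 2 * N ≤ 2 * N + 1)) hX.le hη h1
  have hsecj := fun j => H91CH.secw (v := v) (l := l) (Abs_vh h (by omega : 2 * N ≤ 2 * N + 1)) (hXj0 j) hη (h1j j)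
  have hupr := H91CH.uprw hN h hs hs0 hv hv0 hvm hl hq hq1 hw hX.le hη hG hg0 hβ hρ h2
  obtain ⟨P, hP⟩ : ∃ P : ℕ → ℝ, P = fun t => Ps m N v l g t ^ 2 := ⟨_, rfl⟩
  have hP0 : ∀ t, 0 ≤ P t := fun t => by rw [hP]; exact sq_nonneg _
  have hP' : ∀ t, Ps m N v l g t ^ 2 = P t := fun t => by rw [hP]
  obtain ⟨M0, hM0⟩ : ∃ M0 : ℝ, M0 = MM m N v l V s := ⟨_, rfl⟩
  rw [← hM0] at hMM hsec hupr
  simp only [← hM0] at hsecj hp
  simp only [hP'] at hsec hsecj hupr hp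
  have hM0p : 0 < M0 := by linarith
  obtain ⟨x, hx⟩ : ∃ x : Fin 5 → ℝ, x = fun b => ∑ j ∈ univ.filter (fun j => bin j = b), Xj j := ⟨_, rfl⟩
  have hxb : ∀ b, 100 * X ≤ x b := fun b => by rw [hx]; exact hM b
  have hx0 : ∀ b, 0 < x b := fun b => by have := hxb b; linarith
  have ha0 : ∀ b, 0 < 9 / 2 * x b / X := fun b => by have := hx0 b; positivity
  -- upper bound
  have hA : ∑ t ∈ T, w t * P t ≤ X * M0 * (101 / 100) := by
    have h3 := (abs_le.1 hsec).2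
    have h4 := mul_le_mul_of_nonneg_left hE1 hX.le
    have h5 := mul_le_mul_of_nonneg_left hMM hX.le
    linarith
  have hR : ∑ i : ι, ∑ t ∈ T.filter (fun t => ρ i t), w t * P t ≤ X * M0 * (1 / 100) := by
    refine hupr.trans ?_
    have h3 := mul_le_mul_of_nonneg_right hB (mul_nonneg hX.le hM0p.le)
    have h4 := mul_le_mul_of_nonneg_right hE2 hX.le
    have h5 := mul_le_mul_of_nonneg_left hMM hX.le
    have e4 : X * (G * (μ * (μ * (∑ a ∈ Icc 1 m, s a) / N + μ * (∑ a ∈ Icc 1 m, s a * v a) / (l - vm)) * M0) +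
        η * ((2 * (N : ℝ) + 1) * (1 + ((m : ℝ) + 1) ^ 2 * μ) ^ (2 * N + 1))) =
        G * (μ * (μ * (∑ a ∈ Icc 1 m, s a) / N + μ * (∑ a ∈ Icc 1 m, s a * v a) / (l - vm))) * (X * M0) +
        η * ((2 * (N : ℝ) + 1) * (1 + ((m : ℝ) + 1) ^ 2 * μ) ^ (2 * N + 1)) * X := by ring
    rw [e4]
    linarith
  -- the bins
  obtain ⟨A, hAd⟩ : ∃ A : κ → ℝ, A = fun j => ∑ t ∈ T, (if pr j t then w t else 0) * P t := ⟨_, rfl⟩
  have hAl : ∀ j, 99 / 100 * Xj j * M0 ≤ A j := by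
    intro j
    have h3 := (abs_le.1 (hsecj j)).1
    have h4 := mul_le_mul_of_nonneg_left hE1 (hXj0 j)
    have h5 := mul_le_mul_of_nonneg_left hMM (hXj0 j)
    rw [hAd]
    show 99 / 100 * Xj j * M0 ≤ ∑ t ∈ T, (if pr j t then w t else 0) * P t
    linarith
  have hAu : ∀ j, A j ≤ 101 / 100 * Xj j * M0 := by
    intro j
    have h3 := (abs_le.1 (hsecj j)).2
    have h4 := mul_le_mul_of_nonneg_left hE1 (hXj0 j)
    have h5 := mul_le_mul_of_nonneg_left hMM (hXj0 j)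
    rw [hAd]
    show ∑ t ∈ T, (if pr j t then w t else 0) * P t ≤ 101 / 100 * Xj j * M0
    linarith
  have hA2 : ∀ b : Fin 5, ∑ j ∈ univ.filter (fun j => bin j = b), ∑ j' ∈ univ.filter (fun j => bin j = b),
      ∑ t ∈ T, (if pr j t ∧ pr j' t then w t else 0) * P t ≤
      101 / 100 * x b * M0 + 9 / 2 * (x b * x b) / X * (101 / 100 * M0) := by
    intro b
    have h3 : ∀ j ∈ univ.filter (fun j => bin j = b), ∑ j' ∈ univ.filter (fun j => bin j = b),
        ∑ t ∈ T, (if pr j t ∧ pr j' t then w t else 0) * P t ≤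
        101 / 100 * Xj j * M0 + ∑ j' ∈ univ.filter (fun j => bin j = b), 9 / 2 * (Xj j * Xj j') / X * (101 / 100 * M0) := by
      intro j hj
      rw [← Finset.add_sum_erase _ _ hj]
      refine add_le_add ?_ ?_
      · have h4 : ∑ t ∈ T, (if pr j t ∧ pr j t then w t else 0) * P t = A j := by
          rw [hAd]
          refine Finset.sum_congr rfl fun t _ => ?_
          simp only [and_self]
        rw [h4]
        exact hAu j
      · refine (Finset.sum_le_sum (g := fun j' => 9 / 2 * (Xj j * Xj j') / X * (101 / 100 * M0)) fun j' hj' => ?_).trans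
          (Finset.sum_le_sum_of_subset_of_nonneg (Finset.erase_subset _ _) fun j' _ _ => ?_)
        · have hne : j ≠ j' := (Finset.ne_of_mem_erase hj').symm
          refine (hp j j' hne).trans ?_
          apply mul_le_mul_of_nonneg_right _ (by positivity)
          rw [le_div_iff₀ hX]
          exact hXp j j' hne
        · have a1 := hXj0 j
          have a2 := hXj0 j'
          positivity
    refine (Finset.sum_le_sum h3).trans (le_of_eq ?_)
    rw [Finset.sum_add_distrib, ← Finset.sum_mul, ← Finset.mul_sum]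
    have h5 : ∑ j ∈ univ.filter (fun j => bin j = b), Xj j = x b := by rw [hx]
    have h6 : ∀ j ∈ univ.filter (fun j => bin j = b), ∑ j' ∈ univ.filter (fun j => bin j = b),
        9 / 2 * (Xj j * Xj j') / X * (101 / 100 * M0) = Xj j * (9 / 2 * x b / X * (101 / 100 * M0)) := by
      intro j _
      rw [← h5, Finset.mul_sum, Finset.sum_div, Finset.sum_mul, Finset.mul_sum]
      refine Finset.sum_congr rfl fun j' _ => ?_
      ring
    rw [Finset.sum_congr rfl h6, ← Finset.sum_mul, h5]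
    ring
  have hA1 : ∀ b : Fin 5, 99 / 100 * x b * M0 ≤ ∑ j ∈ univ.filter (fun j => bin j = b), A j := by
    intro b
    refine le_trans (le_of_eq ?_) (Finset.sum_le_sum fun j _ => hAl j)
    rw [← Finset.sum_mul, ← Finset.mul_sum, hx]
  have hlow : ∀ b : Fin 5, 215 / 1000 * (X * M0) ≤
      2 * (∑ j ∈ univ.filter (fun j => bin j = b), A j) / (9 / 2 * x b / X) -
      (∑ j ∈ univ.filter (fun j => bin j = b), ∑ j' ∈ univ.filter (fun j => bin j = b),
      ∑ t ∈ T, (if pr j t ∧ pr j' t then w t else 0) * P t) / (9 / 2 * x b / X) ^ 2 :=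
    fun b => AB5_num hX hM0p (hxb b) (hA1 b) (hA2 b)
  have hlow5 := Finset.sum_le_sum (s := (univ : Finset (Fin 5))) fun b _ => hlow b
  -- the pointwise inequality, summed
  have hup : ∑ b : Fin 5, (2 * (∑ j ∈ univ.filter (fun j => bin j = b), A j) / (9 / 2 * x b / X) -
      (∑ j ∈ univ.filter (fun j => bin j = b), ∑ j' ∈ univ.filter (fun j => bin j = b),
      ∑ t ∈ T, (if pr j t ∧ pr j' t then w t else 0) * P t) / (9 / 2 * x b / X) ^ 2) ≤
      ∑ t ∈ T, w t * P t + 5 * ∑ i : ι, ∑ t ∈ T.filter (fun t => ρ i t), w t * P t := by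
    have e3 : ∑ i : ι, ∑ t ∈ T.filter (fun t => ρ i t), w t * P t =
        ∑ t ∈ T, (w t * P t) * ∑ i : ι, if ρ i t then (1 : ℝ) else 0 := by
      have : ∀ i : ι, ∑ t ∈ T.filter (fun t => ρ i t), w t * P t = ∑ t ∈ T, (if ρ i t then w t * P t else 0) :=
        fun i => Finset.sum_filter _ _
      rw [Finset.sum_congr rfl (fun i _ => this i), Finset.sum_comm]
      refine Finset.sum_congr rfl fun t _ => ?_
      rw [Finset.mul_sum]
      refine Finset.sum_congr rfl fun i _ => ?_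
      split_ifs <;> ring
    have e4 : ∑ b : Fin 5, (2 * (∑ j ∈ univ.filter (fun j => bin j = b), A j) / (9 / 2 * x b / X) -
        (∑ j ∈ univ.filter (fun j => bin j = b), ∑ j' ∈ univ.filter (fun j => bin j = b),
        ∑ t ∈ T, (if pr j t ∧ pr j' t then w t else 0) * P t) / (9 / 2 * x b / X) ^ 2) =
        ∑ t ∈ T, (w t * P t) * ∑ b : Fin 5,
          (2 * (∑ j ∈ univ.filter (fun j => bin j = b), if pr j t then (1 : ℝ) else 0) / (9 / 2 * x b / X) -
          (∑ j ∈ univ.filter (fun j => bin j = b), if pr j t then (1 : ℝ) else 0) ^ 2 / (9 / 2 * x b / X) ^ 2) := by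
      have e5 : ∀ t ∈ T, (w t * P t) * ∑ b : Fin 5,
          (2 * (∑ j ∈ univ.filter (fun j => bin j = b), if pr j t then (1 : ℝ) else 0) / (9 / 2 * x b / X) -
          (∑ j ∈ univ.filter (fun j => bin j = b), if pr j t then (1 : ℝ) else 0) ^ 2 / (9 / 2 * x b / X) ^ 2) =
          ∑ b : Fin 5, (2 * ((w t * P t) * (∑ j ∈ univ.filter (fun j => bin j = b), if pr j t then (1 : ℝ) else 0)) /
            (9 / 2 * x b / X) -
          ((w t * P t) * (∑ j ∈ univ.filter (fun j => bin j = b), if pr j t then (1 : ℝ) else 0) ^ 2) /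
            (9 / 2 * x b / X) ^ 2) := by
        intro t _
        rw [Finset.mul_sum]
        refine Finset.sum_congr rfl fun b _ => ?_
        ring
      rw [Finset.sum_congr rfl e5, Finset.sum_comm (s := T)]
      refine Finset.sum_congr rfl fun b _ => ?_
      rw [Finset.sum_sub_distrib, ← Finset.sum_div, ← Finset.sum_div, ← Finset.mul_sum,
        AB5_m1 T _ pr w P, AB5_m2 T _ pr w P, hAd]
    rw [e4, e3, Finset.mul_sum, ← Finset.sum_add_distrib]
    refine Finset.sum_le_sum fun t ht => ?_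
    have h5 := AB5_pt bin (fun j => pr j t) (fun i => ρ i t) ha0 (fun hr j j' hj hj' => by
      by_contra hne
      exact hcon ⟨t, ht, hr, j, j', hne, hj, hj'⟩)
    have h6 := mul_le_mul_of_nonneg_left h5 (mul_nonneg (hw t) (hP0 t))
    refine h6.trans (le_of_eq ?_)
    ring
  have h7 : ∑ b : Fin 5, 215 / 1000 * (X * M0) = 1075 / 1000 * (X * M0) := by
    rw [Finset.sum_const, Finset.card_univ, Fintype.card_fin, nsmul_eq_mul]
    push_cast
    ring
  rw [h7] at hlow5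
  have h8 : 0 < X * M0 := by positivity
  have h9 := hlow5.trans hup
  linarith

end H86FP
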