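import Pool.Agent.H73.PC.Eva

/-!
# EP2: mean values of pairs of configurations with the Selberg majorant at a form of the cluster

The proof of `Eva_gen` (`Pool/Agent/H73/PC/Eva.lean`; `Eva_core` can be cited) with `X = ∅` and, in the cluster, `insert h1 κ0` in place of `κ0`: at `h1` the function is `fun L => th0 w z L * be (primorial z) R L` with
mean `1/GG (primorial z) R` and size `R * R` (`cdB`, `Pool/Agent/H73/PC/CdB.lean`; `hS.RM`, `hS.ΓR`). The level: `(R * R) ∏_{h ∈ κ0} ZH ZH' ∏_i ZP ZP' ≤ Sm` by `hS.lev`. `|insert h1 κ0| ≤ card κ`.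
-/

set_option autoImplicit false

open Finset EG H69PG H73PC

namespace H86FP

variable {κ ι : Type} [Fintype κ] [DecidableEq κ] [Fintype ι] [DecidableEq ι]

open Classical in
theorem evP {N mP mH M w z W R Sm J : ℕ} {ZP ZH : ℕ → ℕ} {vP vH f0 y : ℕ → ℝ} {lP lH Γ η Y : ℝ}
    (hS : Sd κ ι N mP mH M z R Sm ZP ZH vP vH f0 y lP lH Γ) {cH : κ → ℕ} {c : ι → ℕ} {Ts : Finset ℕ} {S : Finset (κ ⊕ ι)}
    (hJ : Fintype.card κ + 4 * N + 2 ≤ J) (hMv : Mv w z W (2 * M) J Sm Γ η Ts Y S (Sum.elim cH c)) (κ0 : Finset κ)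
    (h1 : κ) (h1κ : h1 ∉ κ0) (hh1 : Sum.inl h1 ∈ S)
    (hκ0 : ∀ h ∈ κ0, Sum.inl h ∈ S) (hι : ∀ i : ι, Sum.inr i ∈ S)
    {n1 n1' : κ → Fin (mH + 1)} (hn1 : n1 ∈ Ad κ mH vH lH) (hn1' : n1' ∈ Ad κ mH vH lH)
    {n n' : ι → Fin (mP + 1)} (hn : n ∈ Cf ι mP N vP lP) (hn' : n' ∈ Cf ι mP N vP lP) :
    |∑ t ∈ Ts, (∏ h ∈ κ0, (Bl w z W ZH cH h (n1 h) t * Bl w z W ZH cH h (n1' h) t)) *
          ((th0 w z (W * t + cH h1) * be (primorial z) R (W * t + cH h1)) *
            ∏ i, (gA w z W ZP f0 c i (n i) t * gA w z W ZP f0 c i (n' i) t)) -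
        (if ∀ h ∈ κ0, n1 h = n1' h then (∏ h ∈ κ0, wA ZH (primorial z) (n1 h)) *
          (Y * VV w z 1 ^ (κ0.card + 1) * (1 / GG (primorial z) R) *
            (if n = n' then ms (Vu (VV w z 1)) (sA ZP (primorial z) f0) n else 0)) else 0)| ≤
      η * (Y * VV w z 1 ^ (κ0.card + 1) * Vu (VV w z 1) (sp n ∪ sp n')) := by
  set U : Finset ι := sp n ∪ sp n' with hU
  have hz1 : 1 ≤ z := by have := hS.z2; omega
  have hcn : (sp n).card ≤ N := ((Finset.mem_filter.1 hn).2).1
  have hcn' : (sp n').card ≤ N := ((Finset.mem_filter.1 hn').2).1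
  have hUc : U.card ≤ 2 * N := by
    have h1 : U.card ≤ (sp n).card + (sp n').card := Finset.card_union_le (sp n) (sp n')
    omega
  have hκc : (insert h1 κ0).card ≤ Fintype.card κ := Finset.card_le_univ _
  have hκi : (insert h1 κ0).card = κ0.card + 1 := Finset.card_insert_of_notMem h1κ
  have hmU : ∀ i, i ∈ U ↔ ((n i : ℕ) ≠ 0 ∨ (n' i : ℕ) ≠ 0) := by
    intro i
    rw [hU, Finset.mem_union, H1v_mem_sp, H1v_mem_sp]
  have hle : ∀ i, (n i : ℕ) ≤ mP := fun i => Nat.lt_succ_iff.1 (n i).2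
  have hle' : ∀ i, (n' i : ℕ) ≤ mP := fun i => Nat.lt_succ_iff.1 (n' i).2
  have hleH : ∀ h, (n1 h : ℕ) ≤ mH := fun h => Nat.lt_succ_iff.1 (n1 h).2
  have hleH' : ∀ h, (n1' h : ℕ) ≤ mH := fun h => Nat.lt_succ_iff.1 (n1' h).2
  have hf0 : ∀ a, |f0 a| ≤ 1 := fun a => by
    rw [abs_of_nonneg (hS.f0_nonneg a)]
    exact hS.f0_le a
  have hφ : ∀ i, |H1v_ff f0 (n i) * H1v_ff f0 (n' i)| ≤ 1 := by
    intro i
    rw [abs_mul]
    exact mul_le_one₀ (H1v_ff_le hf0 _) (abs_nonneg _) (H1v_ff_le hf0 _)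
  set PH : κ → ℕ → ℝ := fun h => if h = h1 then (fun L => th0 w z L * be (primorial z) R L) else
      fun L => 1 * (th0 w z L * (Fn (sq (primorial z) (ZH (n1 h))) (lamA ZH (primorial z) (n1 h)) L *
      Fn (sq (primorial z) (ZH (n1' h))) (lamA ZH (primorial z) (n1' h)) L)) with hPH
  set sH : κ → ℝ := fun h => if h = h1 then 1 / GG (primorial z) R else
      1 * (if (n1 h : ℕ) = n1' h then wA ZH (primorial z) (n1 h) else 0) with hsH
  set zH : κ → ℕ := fun h => if h = h1 then R * R else ZH (n1 h) * ZH (n1' h) with hzH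
  set PI : ι → ℕ → ℝ := fun i L => H1v_ff f0 (n i) * H1v_ff f0 (n' i) *
      (th0 w z L * (Fn (sq (primorial z) (ZP (n i))) (lamA ZP (primorial z) (n i)) L *
      Fn (sq (primorial z) (ZP (n' i))) (lamA ZP (primorial z) (n' i)) L)) with hPI
  set sI : ι → ℝ := fun i => H1v_ff f0 (n i) * H1v_ff f0 (n' i) *
      (if (n i : ℕ) = n' i then wA ZP (primorial z) (n i) else 0) with hsI
  have hne : ∀ h ∈ κ0, h ≠ h1 := fun h hh he => h1κ (he ▸ hh)
  have core := Eva_core hMv (insert h1 κ0) U (by omega)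
    (by
      intro h hh
      rcases Finset.mem_insert.1 hh with rfl | hh
      · exact hh1
      · exact hκ0 h hh) hι PH PI sH sI zH (fun i => ZP (n i) * ZP (n' i))
    (by
      intro h _
      by_cases hh : h = h1
      · simp only [hPH, hsH, hzH, if_pos hh]
        exact cdB hz1 hS.R_pos hS.RM hS.Γ_one hS.ΓR
      · simp only [hPH, hsH, hzH, if_neg hh]
        exact cdA hz1 hS.hM hS.Z0H hS.ZmH (hS.ZMH _ (hleH h)) (hS.ZMH _ (hleH' h)) hS.Γ_one (hS.ΓH _ (hleH h))
          (hS.ΓH _ (hleH' h)) (by simp))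
    (fun i _ => cdA hz1 hS.hM hS.Z0P hS.ZmP (hS.ZMP _ (hle i)) (hS.ZMP _ (hle' i)) hS.Γ_one (hS.ΓP _ (hle i))
          (hS.ΓP _ (hle' i)) (hφ i))
    (by
      have hlev := hS.lev n1 hn1 n1' hn1' n hn n' hn'
      have hp1 : ∏ h ∈ κ0, (ZH (n1 h) * ZH (n1' h)) ≤ ∏ h, (ZH (n1 h) * ZH (n1' h)) := by
        refine Nat.le_of_dvd ?_ (Finset.prod_dvd_prod_of_subset _ _ _ (Finset.subset_univ _))
        refine Finset.prod_pos fun h _ => ?_
        exact Nat.mul_pos (Eva_one_le hS.Z0H hS.ZmH _) (Eva_one_le hS.Z0H hS.ZmH _)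
      have hp2 : ∏ i ∈ U, (ZP (n i) * ZP (n' i)) ≤ ∏ i, (ZP (n i) * ZP (n' i)) := by
        refine Nat.le_of_dvd ?_ (Finset.prod_dvd_prod_of_subset _ _ _ (Finset.subset_univ _))
        refine Finset.prod_pos fun h _ => ?_
        exact Nat.mul_pos (Eva_one_le hS.Z0P hS.ZmP _) (Eva_one_le hS.Z0P hS.ZmP _)
      rw [Finset.prod_insert h1κ]
      have e1 : zH h1 = R * R := by simp only [hzH, if_pos]
      have e2 : ∏ h ∈ κ0, zH h = ∏ h ∈ κ0, (ZH (n1 h) * ZH (n1' h)) :=
        Finset.prod_congr rfl fun h hh => by simp only [hzH, if_neg (hne h hh)]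
      rw [e1, e2]
      calc (R * R * ∏ h ∈ κ0, (ZH (n1 h) * ZH (n1' h))) * ∏ i ∈ U, (ZP (n i) * ZP (n' i))
          ≤ (R * R * ∏ h, (ZH (n1 h) * ZH (n1' h))) * ∏ i, (ZP (n i) * ZP (n' i)) :=
            Nat.mul_le_mul (Nat.mul_le_mul le_rfl hp1) hp2
        _ = (∏ h, (ZH (n1 h) * ZH (n1' h))) * (∏ i, (ZP (n i) * ZP (n' i))) * (R * R) := by ring
        _ ≤ Sm := hlev)
  have hsum : ∑ t ∈ Ts, (∏ h ∈ κ0, (Bl w z W ZH cH h (n1 h) t * Bl w z W ZH cH h (n1' h) t)) *
          ((th0 w z (W * t + cH h1) * be (primorial z) R (W * t + cH h1)) *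
            ∏ i, (gA w z W ZP f0 c i (n i) t * gA w z W ZP f0 c i (n' i) t)) =
      ∑ t ∈ Ts, (∏ h ∈ insert h1 κ0, PH h (W * t + cH h)) * (∏ i ∈ U, PI i (W * t + c i)) := by
    refine Finset.sum_congr rfl fun t _ => ?_
    have h0 : ∏ h ∈ κ0, (Bl w z W ZH cH h (n1 h) t * Bl w z W ZH cH h (n1' h) t) = ∏ h ∈ κ0, PH h (W * t + cH h) := by
      refine Finset.prod_congr rfl fun h hh => ?_
      simp only [hPH, if_neg (hne h hh)]
      unfold Bl
      linear_combination (Fn (sq (primorial z) (ZH (n1 h))) (lamA ZH (primorial z) (n1 h)) (W * t + cH h) *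
        Fn (sq (primorial z) (ZH (n1' h))) (lamA ZH (primorial z) (n1' h)) (W * t + cH h)) * Eva_th w z (W * t + cH h)
    have h2 : ∏ i, (gA w z W ZP f0 c i (n i) t * gA w z W ZP f0 c i (n' i) t) = ∏ i ∈ U, PI i (W * t + c i) := by
      have h3 : ∏ i, (gA w z W ZP f0 c i (n i) t * gA w z W ZP f0 c i (n' i) t) =
          ∏ i ∈ U, (gA w z W ZP f0 c i (n i) t * gA w z W ZP f0 c i (n' i) t) := by
        symm
        refine Finset.prod_subset (Finset.subset_univ U) fun i _ hi => ?_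
        rw [hmU, not_or, not_not, not_not] at hi
        rw [hi.1, hi.2]
        simp [gA]
      rw [h3]
      refine Finset.prod_congr rfl fun i hi => ?_
      simp only [hPI]
      rw [H1v_fac hS.Z0P hS.ZmP c i (n i) (n' i) t ((hmU i).1 hi)]
      unfold DAB fAB
      rw [← fn_mul]
    have h4 : PH h1 (W * t + cH h1) = th0 w z (W * t + cH h1) * be (primorial z) R (W * t + cH h1) := by
      simp only [hPH, if_pos]
    rw [h0, h2, Finset.prod_insert h1κ, h4]
    ring
  have hmain : (if ∀ h ∈ κ0, n1 h = n1' h then (∏ h ∈ κ0, wA ZH (primorial z) (n1 h)) *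
          (Y * VV w z 1 ^ (κ0.card + 1) * (1 / GG (primorial z) R) *
            (if n = n' then ms (Vu (VV w z 1)) (sA ZP (primorial z) f0) n else 0)) else 0) =
      Y * (VV w z 1 ^ (κ0.card + 1) * Vu (VV w z 1) U) * ((∏ h ∈ insert h1 κ0, sH h) * ∏ i ∈ U, sI i) := by
    have e0 : sH h1 = 1 / GG (primorial z) R := by simp only [hsH, if_pos]
    rw [Finset.prod_insert h1κ, e0]
    by_cases h1' : ∀ h ∈ κ0, n1 h = n1' h
    · rw [if_pos h1']
      have e1 : ∏ h ∈ κ0, sH h = ∏ h ∈ κ0, wA ZH (primorial z) (n1 h) := by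
        refine Finset.prod_congr rfl fun h hh => ?_
        simp only [hsH, if_neg (hne h hh)]
        rw [h1' h hh, if_pos rfl, one_mul]
      rw [e1]
      by_cases hnn : n = n'
      · rw [if_pos hnn]
        have hUn : U = sp n := by rw [hU, ← hnn, Finset.union_self]
        have e3 : ∏ i, sA ZP (primorial z) f0 (n i) = ∏ i ∈ U, sI i := by
          have e4 : ∏ i, sA ZP (primorial z) f0 (n i) = ∏ i ∈ U, sA ZP (primorial z) f0 (n i) := by
            symm
            refine Finset.prod_subset (Finset.subset_univ U) fun i _ hi => ?_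
            rw [hmU, not_or, not_not, not_not] at hi
            rw [hi.1]
            simp [sA]
          rw [e4]
          refine Finset.prod_congr rfl fun i hi => ?_
          have h3 : (n i : ℕ) ≠ 0 := by
            have := (hmU i).1 hi
            rw [← hnn] at this
            tauto
          simp only [hsI]
          rw [← hnn, if_pos rfl]
          unfold H1v_ff sA
          rw [if_neg h3, if_neg h3]
          ring
        have e5 : ms (Vu (VV w z 1)) (sA ZP (primorial z) f0) n =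
            Vu (VV w z 1) (sp n) * ∏ i, sA ZP (primorial z) f0 (n i) := rfl
        rw [e5, e3, ← hUn]
        ring
      · rw [if_neg hnn]
        obtain ⟨i, hi⟩ : ∃ i, n i ≠ n' i := by
          by_contra hcon
          push Not at hcon
          exact hnn (funext hcon)
        have hi' : (n i : ℕ) ≠ (n' i : ℕ) := fun h => hi (Fin.ext h)
        have hiU : i ∈ U := by
          rw [hmU]
          by_contra hcon
          rw [not_or, not_not, not_not] at hcon
          exact hi' (hcon.1.trans hcon.2.symm)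
        have h0 : ∏ i ∈ U, sI i = 0 := by
          refine Finset.prod_eq_zero hiU ?_
          simp only [hsI, if_neg hi', mul_zero]
        rw [h0]
        ring
    · rw [if_neg h1']
      push Not at h1'
      obtain ⟨h, hh, hne1⟩ := h1'
      have h0 : ∏ h ∈ κ0, sH h = 0 := by
        refine Finset.prod_eq_zero hh ?_
        have hne' : (n1 h : ℕ) ≠ (n1' h : ℕ) := fun h' => hne1 (Fin.ext h')
        simp only [hsH, if_neg (hne h hh), if_neg hne', mul_zero]
      rw [h0]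
      ring
  rw [hκi] at core
  rw [hsum, hmain]
  exact core

end H86FP
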