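import Pool.Agent.H86.FP.OM2
import Pool.Agent.H86.FP.EP2
import Pool.Agent.H73.PC.HyB
import Pool.Agent.H91.CH.SecW
import Pool.Agent.H69.PG.Abs

/-!
# HC2: the pairs of prime values

* `hyC`: the proof of `hyB` (`Pool/Agent/H73/PC/HyB.lean`) with `om5`, `evP` (`κ0 = (univ.erase h0).erase h1`, `|κ0| + 1 = card κ - 1`, `S = univ.erase (inl h0)`), `lpp_sum`. With `F t = (th0 be)(L_h1) ∏_i (g g')`, `X = Y v1^(K-1) (1/GG) (if n = n' ..)`, `ε = η (Y v1^(K-1) V)`; the error is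
`≤ ε (Wm² S1^K)² = (Y v1^(K-1)/GG) (η GG (Wm² S1^K)²) V ≤ Ipp (...)` since `Ipp ≥ 1` (`GG ≥ 1`: `gg_ge_one`).
* `be_prime`: for a prime `L > z`, `L > R` the only divisor of `L` in `sq Q R` is `1` (`H4v_filter`), so `be = (lb 1)² = 1` (`lam_sel_one`, see `rough` in `Pool/Agent/H69/PG/H4v.lean`), and `th0 = 1` (see `blp`).
* `pair`: `Ts = {t ∈ T : W t + cH h0 prime}`; for `t ∈ Ts` with `W t + cH h1` prime `La = Lpp` (`la_eq`, `blp`) and `1 ≤ th0 be` (`be_prime`); all terms are `≥ 0`; so the left side is at most `∑_{t ∈ Ts} Lpp² (th0 be) Ps²`, to which `H91CH.secw` (`Pool/Agent/H91/CH/SecW.lean`)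
is applied with `om t = Lpp² th0 be`, `T = Ts`, `Y = Ipp (Y v1^(K-1)/GG)`, `η = η GG (Wm² S1^K)²`, `h1` from `hyC` (commute the factors), `Vh` from `vuh` (`Pool/Agent/H73/PC/CoB.lean`; copy it or import). The error is at most `Y' * (1/100) ≤ Y' MM/100` (`Abs_MM`: `1 ≤ MM`).
-/

set_option autoImplicit false

open Finset EG H69PG H73PC

namespace H86FP

variable {κ ι : Type} [Fintype κ] [DecidableEq κ] [Fintype ι] [DecidableEq ι]

theorem HC2_vuh {ι : Type} [Fintype ι] [DecidableEq ι] {v1 : ℝ} (hv : 0 ≤ v1) (M : ℕ) :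
    Vh (Vu v1 : Finset ι → ℝ) ((Fintype.card ι : ℝ) * v1) M := by
  refine ⟨fun U => pow_nonneg hv _, ?_, mul_nonneg (Nat.cast_nonneg _) hv, ?_⟩
  · unfold Vu
    simp
  · intro A _
    have h1 : ∀ k ∈ Aᶜ, Vu v1 (insert k A) = v1 * v1 ^ A.card := by
      intro k hk
      unfold Vu
      rw [Finset.card_insert_of_notMem (Finset.mem_compl.1 hk), pow_succ]
      ring
    rw [Finset.sum_congr rfl h1, Finset.sum_const, nsmul_eq_mul]
    unfold Vu
    have h2 : ((Aᶜ).card : ℝ) ≤ (Fintype.card ι : ℝ) := by exact_mod_cast Finset.card_le_univ _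
    have h3 : 0 ≤ v1 * v1 ^ A.card := mul_nonneg hv (pow_nonneg hv _)
    have h4 := mul_le_mul_of_nonneg_right h2 h3
    linarith

theorem HC2_th_nonneg (w z L : ℕ) : 0 ≤ th0 w z L := by
  classical
  unfold th0
  split_ifs
  · exact zero_le_one
  · exact le_rfl

theorem HC2_be_nonneg (Q R L : ℕ) : 0 ≤ be Q R L := by
  unfold be
  exact sq_nonneg _

theorem hyC {N mP mH M w z W R Sm J : ℕ} {ZP ZH : ℕ → ℕ} {vP vH f0 y : ℕ → ℝ} {lP lH Γ η Y Wm : ℝ}
    (hS : Sd κ ι N mP mH M z R Sm ZP ZH vP vH f0 y lP lH Γ) (hWm : 1 ≤ Wm) (hwm : ∀ a ≤ mH, wA ZH (primorial z) a ≤ Wm)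
    (hv : 0 ≤ VV w z 1) {cH : κ → ℕ} {c : ι → ℕ} {Ts : Finset ℕ} (h0 h1 : κ) (h01 : h0 ≠ h1)
    (hJ : Fintype.card κ + 4 * N + 2 ≤ J)
    (hMv : Mv w z W (2 * M) J Sm Γ η Ts Y (univ.erase (Sum.inl h0)) (Sum.elim cH c))
    (hIp : 1 ≤ Ipp mH vH lH y (wA ZH (primorial z)) h0 h1)
    {n n' : ι → Fin (mP + 1)} (hn : n ∈ Cf ι mP N vP lP) (hn' : n' ∈ Cf ι mP N vP lP) :
    |∑ t ∈ Ts, Lpp mH vH lH y (wA ZH (primorial z)) (Bl w z W ZH cH) h0 h1 t ^ 2 *
          ((th0 w z (W * t + cH h1) * be (primorial z) R (W * t + cH h1)) *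
            ∏ i, (gA w z W ZP f0 c i (n i) t * gA w z W ZP f0 c i (n' i) t)) -
        (Ipp mH vH lH y (wA ZH (primorial z)) h0 h1 * (Y * VV w z 1 ^ (Fintype.card κ - 1) / GG (primorial z) R)) *
          (if n = n' then ms (Vu (VV w z 1)) (sA ZP (primorial z) f0) n else 0)| ≤
      (Ipp mH vH lH y (wA ZH (primorial z)) h0 h1 * (Y * VV w z 1 ^ (Fintype.card κ - 1) / GG (primorial z) R)) *
        ((η * GG (primorial z) R * (Wm ^ 2 * (∑ a ∈ Icc 1 mH, y a) ^ Fintype.card κ) ^ 2) * Vu (VV w z 1) (sp n ∪ sp n')) := by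
  have hY : 0 ≤ Y := hMv.1
  have hη : 0 ≤ η := hMv.2.1
  have hw0 : ∀ a, 0 ≤ wA ZH (primorial z) a := fun a => wA_nonneg _ hS.ZmH a
  have hy : ∀ a, 0 ≤ y a := hS.y_nonneg
  have hVu : 0 ≤ Vu (VV w z 1) (sp n ∪ sp n') := by
    unfold Vu
    exact pow_nonneg hv _
  have hGG : 1 ≤ GG (primorial z) R := gg_ge_one _ hS.R_pos
  have hGG0 : GG (primorial z) R ≠ 0 := by linarith
  have hm1 : h1 ∈ (univ.erase h0 : Finset κ) := Finset.mem_erase.2 ⟨h01.symm, Finset.mem_univ _⟩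
  have hcard : ((univ.erase h0).erase h1 : Finset κ).card + 1 = Fintype.card κ - 1 := by
    rw [Finset.card_erase_add_one hm1, Finset.card_erase_of_mem (Finset.mem_univ _), Finset.card_univ]
  have h3 := om5 (κ := κ) (m := mH) (v := vH) (l := lH) (y := y) (w := wA ZH (primorial z)) hy
    (Bf := Bl w z W ZH cH) (T := Ts)
    (F := fun t => (th0 w z (W * t + cH h1) * be (primorial z) R (W * t + cH h1)) *
      ∏ i, (gA w z W ZP f0 c i (n i) t * gA w z W ZP f0 c i (n' i) t))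
    (X := Y * VV w z 1 ^ (Fintype.card κ - 1) * (1 / GG (primorial z) R) *
      (if n = n' then ms (Vu (VV w z 1)) (sA ZP (primorial z) f0) n else 0))
    (ε := η * (Y * VV w z 1 ^ (Fintype.card κ - 1) * Vu (VV w z 1) (sp n ∪ sp n'))) h0 h1 h01 hw0
    (by
      intro n1 hn1 n1' hn1'
      have h := evP hS hJ hMv ((univ.erase h0).erase h1) h1 (Finset.notMem_erase _ _) (by
        rw [Finset.mem_erase]
        exact ⟨fun he => h01 (Sum.inl.inj he).symm, Finset.mem_univ _⟩) (by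
        intro h hh
        have hh' := Finset.mem_of_mem_erase hh
        rw [Finset.mem_erase] at hh' ⊢
        exact ⟨fun he => hh'.1 (Sum.inl.inj he), Finset.mem_univ _⟩) (by
        intro i
        rw [Finset.mem_erase]
        exact ⟨Sum.inr_ne_inl, Finset.mem_univ _⟩) hn1 hn1' hn hn'
      rw [hcard] at h
      by_cases hc : ∀ h, h ≠ h0 → h ≠ h1 → n1 h = n1' h
      · rw [if_pos hc]
        rw [if_pos (fun h hh => hc h (Finset.ne_of_mem_erase (Finset.mem_of_mem_erase hh))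
          (Finset.ne_of_mem_erase hh))] at h
        exact h
      · rw [if_neg hc]
        rw [if_neg (fun hh => hc (fun h hne hne1 => hh h
          (Finset.mem_erase.2 ⟨hne1, Finset.mem_erase.2 ⟨hne, Finset.mem_univ _⟩⟩)))] at h
        exact h)
  have hSum : ∑ n1 ∈ Ad κ mH vH lH, (∏ h, y (n1 h)) *
      (wA ZH (primorial z) (n1 h0) * wA ZH (primorial z) (n1 h1)) ≤
      Wm ^ 2 * (∑ a ∈ Icc 1 mH, y a) ^ Fintype.card κ := lpp_sum hy hw0 hwm h0 h1
  have hSum0 : 0 ≤ ∑ n1 ∈ Ad κ mH vH lH, (∏ h, y (n1 h)) *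
      (wA ZH (primorial z) (n1 h0) * wA ZH (primorial z) (n1 h1)) :=
    Finset.sum_nonneg fun n1 _ => mul_nonneg (Finset.prod_nonneg fun h _ => hy _)
      (mul_nonneg (hw0 _) (hw0 _))
  have hsq := pow_le_pow_left₀ hSum0 hSum 2
  have hYV : 0 ≤ Y * VV w z 1 ^ (Fintype.card κ - 1) := mul_nonneg hY (pow_nonneg hv _)
  have hE : 0 ≤ η * (Y * VV w z 1 ^ (Fintype.card κ - 1) * Vu (VV w z 1) (sp n ∪ sp n')) :=
    mul_nonneg hη (mul_nonneg hYV hVu)
  have h4 : Ipp mH vH lH y (wA ZH (primorial z)) h0 h1 *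
      (Y * VV w z 1 ^ (Fintype.card κ - 1) * (1 / GG (primorial z) R) *
        (if n = n' then ms (Vu (VV w z 1)) (sA ZP (primorial z) f0) n else 0)) =
      (Ipp mH vH lH y (wA ZH (primorial z)) h0 h1 * (Y * VV w z 1 ^ (Fintype.card κ - 1) / GG (primorial z) R)) *
          (if n = n' then ms (Vu (VV w z 1)) (sA ZP (primorial z) f0) n else 0) := by ring
  rw [h4] at h3
  refine h3.trans ?_
  set A := (Wm ^ 2 * (∑ a ∈ Icc 1 mH, y a) ^ Fintype.card κ) ^ 2 with hA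
  have hA0 : 0 ≤ A := sq_nonneg _
  calc η * (Y * VV w z 1 ^ (Fintype.card κ - 1) * Vu (VV w z 1) (sp n ∪ sp n')) *
        (∑ n1 ∈ Ad κ mH vH lH, (∏ h, y (n1 h)) *
          (wA ZH (primorial z) (n1 h0) * wA ZH (primorial z) (n1 h1))) ^ 2
      ≤ η * (Y * VV w z 1 ^ (Fintype.card κ - 1) * Vu (VV w z 1) (sp n ∪ sp n')) * A :=
        mul_le_mul_of_nonneg_left hsq hE
    _ = 1 * (η * (Y * VV w z 1 ^ (Fintype.card κ - 1) * Vu (VV w z 1) (sp n ∪ sp n')) * A) := by ring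
    _ ≤ Ipp mH vH lH y (wA ZH (primorial z)) h0 h1 *
          (η * (Y * VV w z 1 ^ (Fintype.card κ - 1) * Vu (VV w z 1) (sp n ∪ sp n')) * A) :=
        mul_le_mul_of_nonneg_right hIp (mul_nonneg hE hA0)
    _ = (Ipp mH vH lH y (wA ZH (primorial z)) h0 h1 * (Y * VV w z 1 ^ (Fintype.card κ - 1) / GG (primorial z) R)) *
        ((η * GG (primorial z) R * A) * Vu (VV w z 1) (sp n ∪ sp n')) := by
        field_simp

theorem be_prime {w z R L : ℕ} (hR : 1 ≤ R) (hp : L.Prime) (hz : z < L) (hRL : R < L) :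
    th0 w z L = 1 ∧ be (primorial z) R L = 1 := by
  have hr : ∀ p : ℕ, p.Prime → p ≤ R → ¬ p ∣ L := by
    intro p hp1 hp2 hd
    have := (Nat.prime_dvd_prime_iff_eq hp1 hp).1 hd
    omega
  constructor
  · unfold th0
    rw [if_pos]
    intro p hp'
    unfold PK at hp'
    rw [Finset.mem_filter, Finset.mem_Ioc] at hp'
    intro hd
    have := (Nat.prime_dvd_prime_iff_eq hp'.2 hp).1 hd
    omega
  · unfold be Fn
    rw [H4v_filter hR le_rfl hr, Finset.sum_singleton]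
    unfold lb
    rw [lam_sel_one _ R hR]
    norm_num

open Classical in
theorem pair {N mP mH M w z W R Sm J : ℕ} {ZP ZH : ℕ → ℕ} {vP vH f0 y : ℕ → ℝ} {lP lH Γ η Y Wm : ℝ}
    (hS : Sd κ ι N mP mH M z R Sm ZP ZH vP vH f0 y lP lH Γ) (hWm : 1 ≤ Wm) (hwm : ∀ a ≤ mH, wA ZH (primorial z) a ≤ Wm)
    (hv : 0 ≤ VV w z 1) {cH : κ → ℕ} {c : ι → ℕ} {T : Finset ℕ} (h0 h1 : κ) (h01 : h0 ≠ h1)
    (hJ : Fintype.card κ + 4 * N + 2 ≤ J)
    (hMv : Mv w z W (2 * M) J Sm Γ η (T.filter (fun t => (W * t + cH h0).Prime)) Y (univ.erase (Sum.inl h0)) (Sum.elim cH c))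
    (hIp : 1 ≤ Ipp mH vH lH y (wA ZH (primorial z)) h0 h1)
    (hc : ∀ h, z < cH h ∧ (∀ a ≤ mH, ZH a < cH h) ∧ R < cH h)
    (hv00 : vP 0 = 0) (hl0 : 0 ≤ lP)
    (hE : (η * GG (primorial z) R * (Wm ^ 2 * (∑ a ∈ Icc 1 mH, y a) ^ Fintype.card κ) ^ 2) *
      (1 + ((mP : ℝ) + 1) ^ 2 * ((Fintype.card ι : ℝ) * VV w z 1)) ^ (2 * N) ≤ 1 / 100) :
    ∑ t ∈ T, (if (W * t + cH h0).Prime ∧ (W * t + cH h1).Prime then La mH vH lH y (Bl w z W ZH cH) t ^ 2 else 0) *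
        Ps mP N vP lP (gA w z W ZP f0 c) t ^ 2 ≤
      (Ipp mH vH lH y (wA ZH (primorial z)) h0 h1 * (Y * VV w z 1 ^ (Fintype.card κ - 1) / GG (primorial z) R)) *
        (101 / 100 * MM (ι := ι) mP N vP lP (Vu (VV w z 1)) (sA ZP (primorial z) f0)) := by
  have hVu0 : ∀ U : Finset ι, 0 ≤ Vu (VV w z 1) U := fun U => by
    unfold Vu
    exact pow_nonneg hv _
  have hs0 : ∀ a, 0 ≤ sA ZP (primorial z) f0 a := by
    intro a
    unfold sA
    split_ifs
    · exact zero_le_one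
    · exact mul_nonneg (sq_nonneg _) (wA_nonneg _ hS.ZmP a)
  have hMM : 1 ≤ MM (ι := ι) mP N vP lP (Vu (VV w z 1)) (sA ZP (primorial z) f0) :=
    Abs_MM hVu0 (by unfold Vu; simp) hs0 (by unfold sA; simp) hv00 hl0
  have hGG : 1 ≤ GG (primorial z) R := gg_ge_one _ hS.R_pos
  have hη : 0 ≤ η := hMv.2.1
  set Ts := T.filter (fun t => (W * t + cH h0).Prime) with hTs
  set Y' := Ipp mH vH lH y (wA ZH (primorial z)) h0 h1 *
    (Y * VV w z 1 ^ (Fintype.card κ - 1) / GG (primorial z) R) with hY'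
  set η' := η * GG (primorial z) R * (Wm ^ 2 * (∑ a ∈ Icc 1 mH, y a) ^ Fintype.card κ) ^ 2 with hη'
  have hY'0 : 0 ≤ Y' := by
    have h1 : 0 ≤ Y * VV w z 1 ^ (Fintype.card κ - 1) := mul_nonneg hMv.1 (pow_nonneg hv _)
    exact mul_nonneg (by linarith) (div_nonneg h1 (by linarith))
  have hη'0 : 0 ≤ η' := mul_nonneg (mul_nonneg hη (by linarith)) (sq_nonneg _)
  set om : ℕ → ℝ := fun t => Lpp mH vH lH y (wA ZH (primorial z)) (Bl w z W ZH cH) h0 h1 t ^ 2 *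
    (th0 w z (W * t + cH h1) * be (primorial z) R (W * t + cH h1)) with hom
  have hom0 : ∀ t, 0 ≤ om t := fun t => mul_nonneg (sq_nonneg _)
    (mul_nonneg (HC2_th_nonneg _ _ _) (HC2_be_nonneg _ _ _))
  have hsec := H91CH.secw (ι := ι) (m := mP) (N := N) (v := vP) (l := lP) (V := Vu (VV w z 1))
    (μ := (Fintype.card ι : ℝ) * VV w z 1) (HC2_vuh hv (2 * N)) (s := sA ZP (primorial z) f0)
    (T := Ts) (om := om) (Y := Y') hY'0 (g := gA w z W ZP f0 c) (η := η') hη'0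
    (by
      intro n hn n' hn'
      have h := hyC hS hWm hwm hv h0 h1 h01 hJ hMv hIp hn hn'
      refine le_trans (le_of_eq ?_) h
      refine congrArg abs (congrArg₂ (· - ·) ?_ rfl)
      refine Finset.sum_congr rfl fun t _ => ?_
      simp only [hom]
      ring)
  have hle : ∑ t ∈ T, (if (W * t + cH h0).Prime ∧ (W * t + cH h1).Prime then
      La mH vH lH y (Bl w z W ZH cH) t ^ 2 else 0) * Ps mP N vP lP (gA w z W ZP f0 c) t ^ 2 ≤
      ∑ t ∈ Ts, om t * Ps mP N vP lP (gA w z W ZP f0 c) t ^ 2 := by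
    rw [hTs, Finset.sum_filter]
    refine Finset.sum_le_sum fun t _ => ?_
    by_cases hp0 : (W * t + cH h0).Prime
    · rw [if_pos hp0]
      by_cases hp1 : (W * t + cH h1).Prime
      · rw [if_pos ⟨hp0, hp1⟩]
        have hc0 := hc h0
        have hc1 := hc h1
        have hle0 : ∀ a : ℕ, a < cH h0 → a < W * t + cH h0 := fun a h =>
          lt_of_lt_of_le h (Nat.le_add_left _ _)
        have hle1 : ∀ a : ℕ, a < cH h1 → a < W * t + cH h1 := fun a h =>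
          lt_of_lt_of_le h (Nat.le_add_left _ _)
        have hLa : La mH vH lH y (Bl w z W ZH cH) t =
            Lpp mH vH lH y (wA ZH (primorial z)) (Bl w z W ZH cH) h0 h1 t := by
          refine la_eq h0 h1 h01 (fun a ha => ?_) (fun a ha => ?_)
          · exact blp hS.Z0H hS.ZmH hp0 (hle0 _ hc0.1) (hle0 _ (hc0.2.1 a (Finset.mem_Icc.1 ha).2))
          · exact blp hS.Z0H hS.ZmH hp1 (hle1 _ hc1.1) (hle1 _ (hc1.2.1 a (Finset.mem_Icc.1 ha).2))
        have hbe := be_prime (w := w) hS.R_pos hp1 (hle1 _ hc1.1) (hle1 _ hc1.2.2)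
        simp only [hom]
        rw [hLa, hbe.1, hbe.2]
        simp
      · rw [if_neg (fun h => hp1 h.2), zero_mul]
        exact mul_nonneg (hom0 t) (sq_nonneg _)
    · rw [if_neg (fun h => hp0 h.1), if_neg hp0, zero_mul]
  refine hle.trans ?_
  have h5 := (abs_le.1 hsec).2
  have h6 : Y' * (η' * (1 + ((mP : ℝ) + 1) ^ 2 * ((Fintype.card ι : ℝ) * VV w z 1)) ^ (2 * N)) ≤
      Y' * (1 / 100) := mul_le_mul_of_nonneg_left hE hY'0
  have h7 : Y' * (1 / 100) ≤ Y' * (1 / 100 *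
      MM (ι := ι) mP N vP lP (Vu (VV w z 1)) (sA ZP (primorial z) f0)) :=
    mul_le_mul_of_nonneg_left (by linarith) hY'0
  have h8 : Y' * (101 / 100 * MM (ι := ι) mP N vP lP (Vu (VV w z 1)) (sA ZP (primorial z) f0)) =
      Y' * MM (ι := ι) mP N vP lP (Vu (VV w z 1)) (sA ZP (primorial z) f0) +
      Y' * (1 / 100 * MM (ι := ι) mP N vP lP (Vu (VV w z 1)) (sA ZP (primorial z) f0)) := by ring
  linarith

end H86FP
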