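import Pool.Agent.H86.FP.AB5
import Pool.Agent.H86.FP.HC2
import Pool.Agent.H73.PC.HyA
import Pool.Agent.H73.PC.CoB

/-!
# CC5: the abstract theorem applied to the cluster

Compare `coB` (`Pool/Agent/H73/PC/CoB.lean`); lemmas of that file (`vuh`, `CoB_th`, `CoB_GG`, `CoB_bA`) can be cited. `abs5` with `T = range T`, `V = Vu v1` (`v1 = VV w z 1`), `μ = card ι * v1` (`vuh`), `s = sA ZP Q f0`, `q a = f0 a * wA ZP Q a`, `g = gA w z W ZP f0 c`,
`β = bA w z W R c`, `ρ i t` = no prime `p ≤ y0` divides `W t + c i`, `pr h t = (W t + cH h).Prime`, `w t = La(t)²`, `X = I0 (T v1^K)`, `Xj h = Ip h (Yp h v1^(K-1))`, `Xp h h' = Ipp h h' (Yp h v1^(K-1)/GG R2)`, `G = 1/GG Q R`, `η' = η (Wm S1^K)²`.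
Hypotheses: `h1`: `hyA1`, `h1j`: `hyB`, `h2`: `hyA2` (all with `hS`, as in `coB`), `hp`: `pair` (with `hS2`, `R = R2`), `hρ`: `rough`. `hE1`, `hE2` and the error condition of `pair` follow from `hE` (`Γ ≥ 1`, `Wm ≥ 1`, `GG R2 ≤ Γ` is `hS2.ΓR`).
-/

set_option autoImplicit false

open Finset EG H69PG H73PC

namespace H86FP

variable {κ ι : Type} [Fintype κ] [DecidableEq κ] [Fintype ι] [DecidableEq ι]

open Classical in
theorem coC {N mP mH M w z W R R2 Sm J T y0 : ℕ} {ZP ZH : ℕ → ℕ} {vP vH f0 y : ℕ → ℝ} {lP lH vm Γ η Wm : ℝ} {Yp : κ → ℝ}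
    (hS : Sd κ ι N mP mH M z R Sm ZP ZH vP vH f0 y lP lH Γ) (hS2 : Sd κ ι N mP mH M z R2 Sm ZP ZH vP vH f0 y lP lH Γ)
    (hN : 1 ≤ N) (hWm : 1 ≤ Wm)
    (hwm : ∀ a ≤ mH, wA ZH (primorial z) a ≤ Wm) (hv : 0 < VV w z 1) {cH : κ → ℕ} {c : ι → ℕ} (hT : 1 ≤ T)
    (hJ : Fintype.card κ + 4 * N + 2 ≤ J) (hMv : Mv w z W (2 * M) J Sm Γ η (range T) (T : ℝ) univ (Sum.elim cH c))
    (hMp : ∀ h0 : κ, Mv w z W (2 * M) J Sm Γ η ((range T).filter (fun t => (W * t + cH h0).Prime)) (Yp h0)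
      (univ.erase (Sum.inl h0)) (Sum.elim cH c))
    (hc : ∀ h, z < cH h ∧ (∀ a ≤ mH, ZH a < cH h) ∧ R2 < cH h)
    (hI0 : 1 ≤ I0 κ mH vH lH y (wA ZH (primorial z))) (hIp : ∀ h0 : κ, 1 ≤ Ip mH vH lH y (wA ZH (primorial z)) h0)
    (hIpp : ∀ h0 h1 : κ, h0 ≠ h1 → 1 ≤ Ipp mH vH lH y (wA ZH (primorial z)) h0 h1)
    (hv0 : ∀ a, 0 ≤ vP a) (hv00 : vP 0 = 0) (hvm : ∀ a ∈ Icc 1 mP, vP a ≤ vm) (hl : vm < lP) (hl0 : 0 ≤ lP)
    (hq1 : ∑ a ∈ Icc 1 mP, f0 a * wA ZP (primorial z) a = 1) (hRy : R ≤ y0) (hzy : z ≤ y0) (hZy : ∀ a ≤ mP, ZP a ≤ y0)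
    (hXp : ∀ h0 h1 : κ, h0 ≠ h1 →
      (Ipp mH vH lH y (wA ZH (primorial z)) h0 h1 * (Yp h0 * VV w z 1 ^ (Fintype.card κ - 1) / GG (primorial z) R2)) *
        (I0 κ mH vH lH y (wA ZH (primorial z)) * ((T : ℝ) * VV w z 1 ^ Fintype.card κ)) ≤
      9 / 2 * ((Ip mH vH lH y (wA ZH (primorial z)) h0 * (Yp h0 * VV w z 1 ^ (Fintype.card κ - 1))) *
        (Ip mH vH lH y (wA ZH (primorial z)) h1 * (Yp h1 * VV w z 1 ^ (Fintype.card κ - 1)))))
    (bin : κ → Fin 5) (hM : ∀ b : Fin 5, 100 * (I0 κ mH vH lH y (wA ZH (primorial z)) * ((T : ℝ) * VV w z 1 ^ Fintype.card κ)) ≤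
      ∑ h ∈ univ.filter (fun h => bin h = b),
        Ip mH vH lH y (wA ZH (primorial z)) h * (Yp h * VV w z 1 ^ (Fintype.card κ - 1)))
    (hE : (η * Γ * (Wm ^ 2 * (∑ a ∈ Icc 1 mH, y a) ^ Fintype.card κ) ^ 2) * ((2 * (N : ℝ) + 1) *
      (1 + ((mP : ℝ) + 1) ^ 2 * ((Fintype.card ι : ℝ) * VV w z 1)) ^ (2 * N + 1)) ≤ 1 / 200)
    (hB : 1 / GG (primorial z) R * (((Fintype.card ι : ℝ) * VV w z 1) *
      (((Fintype.card ι : ℝ) * VV w z 1) * (∑ a ∈ Icc 1 mP, f0 a ^ 2 * wA ZP (primorial z) a) / N +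
        ((Fintype.card ι : ℝ) * VV w z 1) * (∑ a ∈ Icc 1 mP, f0 a ^ 2 * wA ZP (primorial z) a * vP a) / (lP - vm))) ≤ 1 / 200) :
    ∃ t < T, (∀ i, ∃ p : ℕ, p.Prime ∧ p ≤ y0 ∧ p ∣ W * t + c i) ∧
      ∃ h h' : κ, bin h ≠ bin h' ∧ (W * t + cH h).Prime ∧ (W * t + cH h').Prime := by
  have hv' := hv.le
  have hη : 0 ≤ η := hMv.2.1
  have hz := hS.z2
  have hΓ := hS.Γ_one
  have hΓ0 : 0 ≤ Γ := by linarith
  set K := Fintype.card κ with hK
  set Q := primorial z with hQ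
  set v1 := VV w z 1 with hv1
  set S1 := ∑ a ∈ Icc 1 mH, y a with hS1
  have hS10 : 0 ≤ S1 := Finset.sum_nonneg fun a _ => hS.y_nonneg a
  have hTr : (1 : ℝ) ≤ T := by exact_mod_cast hT
  set X4 : ℝ := (T : ℝ) * v1 ^ K with hX4
  have hX4p : 0 < X4 := by positivity
  have hf0 := hS.f0_nonneg
  have hs0 : ∀ a, 0 ≤ sA ZP Q f0 a := by
    intro a
    unfold sA
    split_ifs
    · exact zero_le_one
    · exact mul_nonneg (sq_nonneg _) (wA_nonneg _ hS.ZmP a)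
  have hsum1 : ∑ a ∈ Icc 1 mP, sA ZP Q f0 a = ∑ a ∈ Icc 1 mP, f0 a ^ 2 * wA ZP Q a := by
    refine Finset.sum_congr rfl fun a ha => ?_
    unfold sA
    rw [if_neg (by have := (Finset.mem_Icc.1 ha).1; omega)]
  have hsum2 : ∑ a ∈ Icc 1 mP, sA ZP Q f0 a * vP a = ∑ a ∈ Icc 1 mP, f0 a ^ 2 * wA ZP Q a * vP a := by
    refine Finset.sum_congr rfl fun a ha => ?_
    unfold sA
    rw [if_neg (by have := (Finset.mem_Icc.1 ha).1; omega)]
  have hvu := fun M => vuh (ι := ι) hv' M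
  have hWm0 : 0 ≤ Wm := by linarith
  set Ba : ℝ := 1 + ((mP : ℝ) + 1) ^ 2 * ((Fintype.card ι : ℝ) * v1) with hBa
  have hBa1 : 1 ≤ Ba := by
    have : 0 ≤ ((mP : ℝ) + 1) ^ 2 * ((Fintype.card ι : ℝ) * v1) := by positivity
    linarith
  have hpow : Ba ^ (2 * N) ≤ (2 * (N : ℝ) + 1) * Ba ^ (2 * N + 1) := by
    have h1 : Ba ^ (2 * N) ≤ Ba ^ (2 * N + 1) := pow_le_pow_right₀ hBa1 (Nat.le_succ _)
    have h2 : (1 : ℝ) ≤ 2 * (N : ℝ) + 1 := by
      have : (0 : ℝ) ≤ N := Nat.cast_nonneg N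
      linarith
    have h3 : 0 ≤ Ba ^ (2 * N + 1) := by positivity
    nlinarith
  have hη1 : η * (Wm * S1 ^ K) ^ 2 ≤ η * Γ * (Wm ^ 2 * S1 ^ K) ^ 2 := by
    have h1 : Wm * S1 ^ K ≤ Wm ^ 2 * S1 ^ K := by
      refine mul_le_mul_of_nonneg_right ?_ (pow_nonneg hS10 _)
      nlinarith
    have h2 : (Wm * S1 ^ K) ^ 2 ≤ (Wm ^ 2 * S1 ^ K) ^ 2 := pow_le_pow_left₀ (by positivity) h1 2
    have h3 : η ≤ η * Γ := by nlinarith
    exact mul_le_mul h3 h2 (by positivity) (by positivity)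
  have hη'0 : 0 ≤ η * (Wm * S1 ^ K) ^ 2 := by positivity
  have hE1 : η * (Wm * S1 ^ K) ^ 2 * Ba ^ (2 * N) ≤ 1 / 100 := by
    have h1 := mul_le_mul hη1 hpow (by positivity) (by positivity)
    linarith
  have hE2 : η * (Wm * S1 ^ K) ^ 2 * ((2 * (N : ℝ) + 1) * Ba ^ (2 * N + 1)) ≤ 1 / 200 := by
    have h1 := mul_le_mul_of_nonneg_right hη1 (show 0 ≤ (2 * (N : ℝ) + 1) * Ba ^ (2 * N + 1) by positivity)
    linarith
  have hE3 : (η * GG Q R2 * (Wm ^ 2 * S1 ^ K) ^ 2) * Ba ^ (2 * N) ≤ 1 / 100 := by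
    have h0 : η * GG Q R2 * (Wm ^ 2 * S1 ^ K) ^ 2 ≤ η * Γ * (Wm ^ 2 * S1 ^ K) ^ 2 :=
      mul_le_mul_of_nonneg_right (mul_le_mul_of_nonneg_left hS2.ΓR hη) (by positivity)
    have h1 := mul_le_mul h0 hpow (by positivity) (by positivity)
    linarith
  have hres := abs5 (ι := ι) (m := mP) (N := N) hN (v := vP) (l := lP) (vm := vm)
    (V := Vu v1) (μ := (Fintype.card ι : ℝ) * v1) (hvu (2 * N + 1))
    (s := sA ZP Q f0) (q := fun a => f0 a * wA ZP Q a)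
    hs0 (by unfold sA; simp) hv0 hv00 hvm hl hl0
    (fun a => mul_nonneg (hf0 a) (wA_nonneg _ hS.ZmP a)) hq1
    (κ := κ)
    (T := range T) (g := gA w z W ZP f0 c) (β := bA w z W R c)
    (ρ := fun i t => ∀ p : ℕ, p.Prime → p ≤ y0 → ¬ p ∣ W * t + c i)
    (η := η * (Wm * S1 ^ K) ^ 2) (G := 1 / GG Q R)
    hη'0 (by have := CoB_GG Q R; positivity)
    (fun i t => by unfold gA; simp)
    (fun i t => CoB_bA w z W R c i t)
    (fun i t _ hr => rough hS.Z0P hS.ZmP hS.R_pos hRy hzy hZy hr)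
    (pr := fun h t => (W * t + cH h).Prime)
    (w := fun t => La mH vH lH y (Bl w z W ZH cH) t ^ 2)
    (fun t => sq_nonneg _)
    (X := I0 κ mH vH lH y (wA ZH Q) * X4)
    (Xj := fun h => Ip mH vH lH y (wA ZH Q) h * (Yp h * v1 ^ (K - 1)))
    (Xp := fun h h' => Ipp mH vH lH y (wA ZH Q) h h' * (Yp h * v1 ^ (K - 1) / GG Q R2))
    (by positivity)
    (fun h => mul_nonneg (by linarith [hIp h]) (mul_nonneg (hMp h).1 (pow_nonneg hv' _)))
    (fun n hn n' hn' => hyA1 hS hWm hv' hJ hMv hI0 hn hn')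
    (fun h n hn n' hn' => by
      have h1 := hyB hS hWm hwm hv' h (fun t ht => by
        rw [Finset.mem_filter] at ht
        refine ⟨ht.2, ?_, fun a ha => ?_⟩
        · have := (hc h).1
          exact lt_of_lt_of_le this (Nat.le_add_left _ _)
        · have := (hc h).2.1 a ha
          exact lt_of_lt_of_le this (Nat.le_add_left _ _)) hJ (hMp h) (hIp h) hn hn'
      rw [Finset.sum_filter] at h1
      have h2 : ∑ t ∈ range T, (if (W * t + cH h).Prime then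
          La mH vH lH y (Bl w z W ZH cH) t ^ 2 else 0) *
            ∏ i, (gA w z W ZP f0 c i (n i) t * gA w z W ZP f0 c i (n' i) t) =
          ∑ t ∈ range T, (if (W * t + cH h).Prime then
          La mH vH lH y (Bl w z W ZH cH) t ^ 2 *
            ∏ i, (gA w z W ZP f0 c i (n i) t * gA w z W ZP f0 c i (n' i) t) else 0) := by
        refine Finset.sum_congr rfl fun t _ => ?_
        by_cases hp : (W * t + cH h).Prime
        · rw [if_pos hp, if_pos hp]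
        · rw [if_neg hp, if_neg hp, zero_mul]
      rw [← h2] at h1
      refine le_trans (le_of_eq ?_) h1
      refine congrArg abs (congrArg₂ (· - ·) ?_ rfl)
      refine Finset.sum_congr rfl fun t _ => ?_
      by_cases hp : (W * t + cH h).Prime
      · simp only [hp, if_true]
      · simp only [hp, if_false])
    (fun k n hn n' hn' hk hk' => hyA2 hS hWm hv' hJ hMv hI0 hn hn' k hk hk')
    (fun h h' hne => by
      have h1 := pair hS2 hWm hwm hv' h h' hne hJ (hMp h) (hIpp h h' hne) hc hv00 hl0 hE3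
      refine le_trans (le_of_eq ?_) h1
      refine Finset.sum_congr rfl fun t _ => ?_
      by_cases hp : (W * t + cH h).Prime ∧ (W * t + cH h').Prime
      · simp only [hp, and_self, if_true]
      · simp only [hp, if_false])
    (fun h h' hne => hXp h h' hne)
    bin hM hE1 hE2 (by rw [hsum1, hsum2]; exact hB)
  obtain ⟨t, ht, h1, h, h', hb, hp, hp'⟩ := hres
  refine ⟨t, Finset.mem_range.1 ht, fun i => ?_, h, h', hb, hp, hp'⟩
  have h2 := h1 i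
  push Not at h2
  exact h2

end H86FP
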