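import Pool.Agent.H73.PC.Fx
import Pool.Agent.H69.PG.Ggb

/-!
# GL: the Selberg sum without loss of a constant

Write `z = ⌊x^e1⌋`, `w = yy x`, `W = WW w = primorial w`, `y = ⌊x^(15/64)⌋`.
* `gl1`: `V Set.univ z * log y ≤ GG (primorial z) y` for `y ≥ 1`: this is `h8` in the proof of `ggb` (`Pool/Agent/H69/PG/Ggb.lean`); `0 ≤ V Set.univ z`.
* `gl`: for large `x`: `w ≤ z`, so `V Set.univ z = ∏_{p ≤ z} (1 - 1/p) = V Set.univ w * VV w z 1`, `V Set.univ w = φ(W)/W`, `Vo x = W/(φ(W) log x)`; `log y ≥ (15/64) log x - 1 ≥ (100/431) log x` (`100/431 < 15/64`). Hence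
`VV w z 1 = V univ z * (W/φ(W)) ≤ GG/log y * (Vo x * log x) ≤ (431/100) Vo x GG`. See `v1b`, `mub` (`Pool/Agent/H73/PC/Fx.lean`, `Vg.lean`) for `w ≤ z` and for the product over the primes up to `w`.
-/

set_option autoImplicit false

open Finset EG H69PG H73PC Pool.Agent.H17

namespace H86FP

open Pool.Agent.H67.GT in
theorem GL_one (z y : ℕ) (hy : 1 ≤ y) : V Set.univ z * Real.log y ≤ GG (primorial z) y := by
  have h6 := Ggb_H_prod (prs Set.univ z) (fun p hp => (Ggb_prs.mp hp).1) y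
  have h7 := Ggb_harm (y := y) hy
  refine le_trans ?_ (gq_lower (primorial z) y)
  rw [Ggb_gqH]
  refine le_trans ?_ h6
  exact mul_le_mul_of_nonneg_left h7 (VVFaux.vuniv_pos z).le

theorem GL_floor {e : ℝ} (he : 0 < e) : ∀ᶠ x : ℝ in Filter.atTop,
    1 ≤ ⌊x ^ e⌋₊ ∧ e * Real.log x - 1 ≤ Real.log (⌊x ^ e⌋₊ : ℝ) := by
  filter_upwards [Filter.eventually_ge_atTop (1 : ℝ)] with x hx
  have hx0 : 0 < x := by linarith
  have h1 : 1 ≤ x ^ e := Real.one_le_rpow hx he.le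
  have hloge : Real.log (x ^ e) = e * Real.log x := Real.log_rpow hx0 _
  have h2 : 1 ≤ ⌊x ^ e⌋₊ := Nat.le_floor (by push_cast; exact h1)
  have h2' : (1 : ℝ) ≤ (⌊x ^ e⌋₊ : ℝ) := by exact_mod_cast h2
  have h3 : x ^ e / 2 ≤ (⌊x ^ e⌋₊ : ℝ) := by
    have := Nat.lt_floor_add_one (x ^ e)
    linarith
  refine ⟨h2, ?_⟩
  have h8 : Real.log (x ^ e / 2) ≤ Real.log (⌊x ^ e⌋₊ : ℝ) :=
    Real.log_le_log (by linarith) h3
  rw [Real.log_div (by linarith) (by norm_num), hloge] at h8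
  have := Real.log_two_lt_d9
  linarith

theorem gl (e1 : ℝ) (he1 : 0 < e1) (he1' : e1 ≤ 1) : ∃ x0 : ℝ, ∀ x : ℝ, x0 ≤ x →
    VV (yy x) ⌊x ^ e1⌋₊ 1 ≤ 431 / 100 * Vo x * GG (primorial ⌊x ^ e1⌋₊) ⌊x ^ (15 / 64 : ℝ)⌋₊ := by
  have hev := (Vg_z he1).and ((GL_floor (show (0 : ℝ) < 15 / 64 by norm_num)).and
    (Real.tendsto_log_atTop.eventually_ge_atTop 1000))
  obtain ⟨x0, hx0⟩ := Filter.eventually_atTop.1 hev
  refine ⟨x0, fun x hx => ?_⟩
  obtain ⟨⟨hyz, hz2, hy2, hlx, hl1, hl2⟩, ⟨hy1, hly⟩, hL⟩ := hx0 x hx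
  set z := ⌊x ^ e1⌋₊ with hz
  set y := ⌊x ^ (15 / 64 : ℝ)⌋₊ with hy
  set w := yy x with hw
  set L := Real.log x with hLd
  have hL0 : 0 < L := by linarith
  have hφ : (0 : ℝ) < (Nat.totient (primorial w) : ℝ) := by
    exact_mod_cast Nat.totient_pos.2 (primorial_pos w)
  have hW : (0 : ℝ) < (primorial w : ℝ) := by exact_mod_cast primorial_pos w
  have hVw : Pool.Agent.H67.GT.V Set.univ w = (Nat.totient (primorial w) : ℝ) / (primorial w : ℝ) :=
    (VVFaux.tot_primorial w).symm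
  have hsp := VVFaux.vuniv_split hyz
  have hVV : VV w z 1 = (primorial w : ℝ) / (Nat.totient (primorial w) : ℝ) *
      Pool.Agent.H67.GT.V Set.univ z := by
    rw [hsp, hVw]
    field_simp
  have hVo : Vo x = (primorial w : ℝ) / (Nat.totient (primorial w) : ℝ) / L := by
    unfold Vo
    rw [div_div]
    rfl
  set R := (primorial w : ℝ) / (Nat.totient (primorial w) : ℝ) with hR
  have hR0 : 0 < R := by positivity
  have hV0 : 0 < Pool.Agent.H67.GT.V Set.univ z := VVFaux.vuniv_pos z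
  have h8 := GL_one z y hy1
  have h9 : Pool.Agent.H67.GT.V Set.univ z * (100 / 431 * L) ≤ GG (primorial z) y :=
    (mul_le_mul_of_nonneg_left (by linarith) hV0.le).trans h8
  rw [hVV, hVo]
  have h10 : R * Pool.Agent.H67.GT.V Set.univ z =
      431 / 100 * (R / L) * (Pool.Agent.H67.GT.V Set.univ z * (100 / 431 * L)) := by
    field_simp
  rw [h10]
  exact mul_le_mul_of_nonneg_left h9 (by positivity)

end H86FP
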