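import Pool.Agent.H73.PC.Dg

/-!
# PA2: choice of the parameters

Compare `Pool/Agent/H73/PC/Par.lean` (same proofs with other numbers).
* `parK2`. `B = 8 Cg² + 2` (`≥ 10`), `mH = ⌈1638400 * 256 (m'+1) Cg^5 Cv⌉`, `s = sc (1/1024) B mH 1 = (1/1024)/B^(mH-1)`, `D = 819200 Cg² mH s = 800 Cg² mH/B^(mH-1)`; `5 D ≤ 1` as `B^(mH-1) = B^(mH-2) B ≥ 10^(mH-2) 8 Cg² ≥ 4000 Cg² mH`
(`10^(mH-2) ≥ 500 mH` for `mH ≥ 10`). `K' = ⌊1/(5 D)⌋ ≥ 1/(10 D) ` and `≥ 1`. Then `5 K' mH² s ≥ mH² s/(2 D) = mH/(1638400 Cg²) ≥ 256 (m'+1) Cg³ Cv`.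
* `parP2`. `mP ≥ 200 * 32768 Cg² Λ² Cv² (1 + 1024/3)`, then `N ≥ 1/sc (1/1024) B mP 1`.
* `parE2`. `e1 = 1/(1024 b)`, `b0 = b` large: `e1 (4 b + 10) = (4 + 10/b)/1024 ≤ 8/1024 = 1/128` for `b ≥ 3`; the other quantities are polynomials in `b` divided by `e^b` (`Polynomial.tendsto_div_exp_atTop`).
-/

set_option autoImplicit false

open Finset EG H69PG H73PC

namespace H86FP

theorem PA2_sc (B : ℝ) (m : ℕ) : sc (1 / 1024) B m 1 = 1 / 1024 / B ^ (m - 1) := by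
  unfold sc
  rw [if_neg one_ne_zero]

theorem PA2_pow1 (j : ℕ) : 500 * ((j : ℝ) + 6) ≤ 10 ^ (j + 4) := by
  induction j with
  | zero => norm_num
  | succ j ih =>
    have e : (10 : ℝ) ^ (j + 1 + 4) = 10 ^ (j + 4) * 10 := pow_succ _ _
    rw [e]
    push_cast
    have h : (0 : ℝ) ≤ j := Nat.cast_nonneg j
    nlinarith

theorem parK2 (Cg Cv : ℝ) (hCg : 1 ≤ Cg) (hCv : 1 ≤ Cv) (m' : ℕ) : ∃ (B : ℝ) (mH K' : ℕ), 2 ≤ B ∧ 8 * Cg ^ 2 ≤ B ∧ 1 ≤ mH ∧ 1 ≤ K' ∧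
    ((5 * K' : ℕ) : ℝ) * (819200 * Cg ^ 2 * mH * sc (1 / 1024) B mH 1) ≤ 1 ∧
    256 * ((m' : ℝ) + 1) * Cg ^ 3 * Cv ≤ ((5 * K' : ℕ) : ℝ) * (mH : ℝ) ^ 2 * sc (1 / 1024) B mH 1 := by
  set X : ℝ := 1638400 * 256 * ((m' : ℝ) + 1) * Cg ^ 5 * Cv with hX
  have hm0 : (0 : ℝ) ≤ (m' : ℝ) := Nat.cast_nonneg _
  have hCg2 : 1 ≤ Cg ^ 2 := one_le_pow₀ hCg
  have hCg3 : 1 ≤ Cg ^ 3 := one_le_pow₀ hCg
  have hCg5 : 1 ≤ Cg ^ 5 := one_le_pow₀ hCg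
  have hX3 : 6 ≤ X := by
    have h1 : 1 ≤ ((m' : ℝ) + 1) * Cg ^ 5 := by nlinarith
    have h2 : 1 ≤ ((m' : ℝ) + 1) * Cg ^ 5 * Cv := by nlinarith
    have h3 : X = 1638400 * 256 * (((m' : ℝ) + 1) * Cg ^ 5 * Cv) := by rw [hX]; ring
    rw [h3]
    linarith
  set mH : ℕ := ⌈X⌉₊ with hmH
  have hmX : X ≤ (mH : ℝ) := Nat.le_ceil X
  have hmH3 : 6 ≤ mH := by
    have : (6 : ℝ) ≤ (mH : ℝ) := hX3.trans hmX
    exact_mod_cast this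
  obtain ⟨j, hj⟩ : ∃ j, mH = j + 6 := ⟨mH - 6, by omega⟩
  set B : ℝ := 8 * Cg ^ 2 + 2 with hB
  have hB10 : 10 ≤ B := by rw [hB]; linarith
  have hB0 : 0 < B := by linarith
  have hsc : sc (1 / 1024) B mH 1 = 1 / 1024 / B ^ (j + 5) := by
    rw [PA2_sc, hj]
    rfl
  have hBp : 0 < B ^ (j + 5) := pow_pos hB0 _
  have hs0 : 0 < sc (1 / 1024) B mH 1 := by
    rw [hsc]
    positivity
  have hmr : (mH : ℝ) = (j : ℝ) + 6 := by rw [hj]; push_cast; ring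
  have hm0' : (0 : ℝ) < (mH : ℝ) := by rw [hmr]; positivity
  set D : ℝ := 819200 * Cg ^ 2 * mH * sc (1 / 1024) B mH 1 with hD
  have hD0 : 0 < D := by rw [hD]; positivity
  have hpow1 : 10 ^ (j + 4) ≤ B ^ (j + 4) := pow_le_pow_left₀ (by norm_num) hB10 _
  have hD1 : 5 * D ≤ 1 := by
    rw [hD, hsc, ← mul_div_assoc, ← mul_div_assoc, div_le_one hBp]
    have h1 : B ^ (j + 5) = B ^ (j + 4) * B := pow_succ _ _
    have h2 : 500 * (mH : ℝ) ≤ B ^ (j + 4) := by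
      rw [hmr]
      exact (PA2_pow1 j).trans hpow1
    have h3 : 8 * Cg ^ 2 ≤ B := by rw [hB]; linarith
    have h4 : 500 * (mH : ℝ) * (8 * Cg ^ 2) ≤ B ^ (j + 4) * B :=
      mul_le_mul h2 h3 (by positivity) (by positivity)
    rw [h1]
    calc 5 * (819200 * Cg ^ 2 * (mH : ℝ) * (1 / 1024)) = 500 * (mH : ℝ) * (8 * Cg ^ 2) := by ring
      _ ≤ _ := h4
  have h5D : 0 < 5 * D := by positivity
  have hq1 : 1 ≤ 1 / (5 * D) := (one_le_div h5D).2 hD1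
  set K : ℕ := ⌊1 / (5 * D)⌋₊ with hK
  have hKle : (K : ℝ) ≤ 1 / (5 * D) := Nat.floor_le (by linarith)
  have hK1 : 1 ≤ K := Nat.le_floor (by push_cast; exact hq1)
  have hKge : 1 / (5 * D) / 2 ≤ (K : ℝ) := by
    have h1 : 1 / (5 * D) < (K : ℝ) + 1 := Nat.lt_floor_add_one _
    have h2 : (1 : ℝ) ≤ (K : ℝ) := by exact_mod_cast hK1
    linarith
  have hlast : 256 * ((m' : ℝ) + 1) * Cg ^ 3 * Cv ≤ ((5 * K : ℕ) : ℝ) * (mH : ℝ) ^ 2 * sc (1 / 1024) B mH 1 := by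
    have h1 : 1 / (5 * D) / 2 * (5 * ((mH : ℝ) ^ 2 * sc (1 / 1024) B mH 1)) ≤
        (K : ℝ) * (5 * ((mH : ℝ) ^ 2 * sc (1 / 1024) B mH 1)) :=
      mul_le_mul_of_nonneg_right hKge (by positivity)
    have h2 : 1 / (5 * D) / 2 * (5 * ((mH : ℝ) ^ 2 * sc (1 / 1024) B mH 1)) = (mH : ℝ) / (1638400 * Cg ^ 2) := by
      rw [hD]
      field_simp
      ring
    have h3 : 256 * ((m' : ℝ) + 1) * Cg ^ 3 * Cv ≤ (mH : ℝ) / (1638400 * Cg ^ 2) := by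
      rw [le_div_iff₀ (by positivity)]
      calc 256 * ((m' : ℝ) + 1) * Cg ^ 3 * Cv * (1638400 * Cg ^ 2) = X := by rw [hX]; ring
        _ ≤ _ := hmX
    calc 256 * ((m' : ℝ) + 1) * Cg ^ 3 * Cv ≤ (mH : ℝ) / (1638400 * Cg ^ 2) := h3
      _ ≤ (K : ℝ) * (5 * ((mH : ℝ) ^ 2 * sc (1 / 1024) B mH 1)) := by rw [← h2]; exact h1
      _ = _ := by push_cast; ring
  refine ⟨B, mH, K, by linarith, by rw [hB]; linarith, by omega, hK1, ?_, hlast⟩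
  calc ((5 * K : ℕ) : ℝ) * D = (K : ℝ) * (5 * D) := by push_cast; ring
    _ ≤ 1 / (5 * D) * (5 * D) := mul_le_mul_of_nonneg_right hKle h5D.le
    _ = 1 := div_mul_cancel₀ 1 h5D.ne'

theorem parP2 (Cg Cv Λ B : ℝ) (hB : 2 ≤ B) : ∃ mP N : ℕ, 1 ≤ mP ∧ 1 ≤ N ∧
    32768 * Cg ^ 2 * Λ ^ 2 * Cv ^ 2 / mP * (1 / (sc (1 / 1024) B mP 1 * N) + 1024 / 3) ≤ 1 / 200 := by
  set A : ℝ := 32768 * Cg ^ 2 * Λ ^ 2 * Cv ^ 2 with hA
  have hA0 : 0 ≤ A := by rw [hA]; positivity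
  set mP : ℕ := ⌈200 * A * (1 + 1024 / 3)⌉₊ + 1 with hmP
  have hmP1 : 200 * A * (1 + 1024 / 3) ≤ (mP : ℝ) := by
    rw [hmP]
    push_cast
    have := Nat.le_ceil (200 * A * (1 + 1024 / 3))
    linarith
  have hmP0 : (0 : ℝ) < (mP : ℝ) := by rw [hmP]; positivity
  have hB0 : 0 < B := by linarith
  have hs0 : 0 < sc (1 / 1024) B mP 1 := by
    rw [PA2_sc]
    positivity
  set s : ℝ := sc (1 / 1024) B mP 1 with hs
  refine ⟨mP, ⌈1 / s⌉₊ + 1, by omega, by omega, ?_⟩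
  have hN : 1 / s ≤ ((⌈1 / s⌉₊ + 1 : ℕ) : ℝ) := by
    push_cast
    have := Nat.le_ceil (1 / s)
    linarith
  set N : ℕ := ⌈1 / s⌉₊ + 1 with hNdef
  have hN0 : (0 : ℝ) < (N : ℝ) := by rw [hNdef]; positivity
  have h1 : 1 ≤ s * N := by
    rw [div_le_iff₀ hs0] at hN
    linarith
  have h2 : 1 / (s * N) ≤ 1 := by
    rw [div_le_one (by positivity)]
    exact h1
  have h3 : A / mP * (1 / (s * N) + 1024 / 3) ≤ A / mP * (1 + 1024 / 3) :=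
    mul_le_mul_of_nonneg_left (by linarith) (by positivity)
  have h4 : A / mP * (1 + 1024 / 3) ≤ 1 / 200 := by
    have e : A / mP * (1 + 1024 / 3) = (200 * A * (1 + 1024 / 3)) / (200 * mP) := by
      field_simp
    rw [e, div_le_iff₀ (by positivity)]
    linarith
  exact h3.trans h4

theorem parE2 (Cg Cv Λ S1 e0 : ℝ) (hCg : 1 ≤ Cg) (hCv : 1 ≤ Cv) (hΛ : 1 ≤ Λ) (hS1 : 0 ≤ S1) (he0 : 0 < e0) (K N mP J0 C : ℕ) :
    ∃ (e1 : ℝ) (b0 : ℕ), 0 < e1 ∧ e1 ≤ e0 ∧ C ≤ b0 ∧ e1 * (4 * b0 + 10) ≤ 1 / 128 ∧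
    8 * Real.exp (-(b0 : ℝ)) * (4 * (2 * Cg / e1) ^ 5) ^ J0 ≤ 1 ∧
    (8 * Real.exp (-(b0 : ℝ)) * (4 * (2 * Cg / e1) ^ 5) ^ J0 * (2 * Cg / e1) * ((2 * Cg / e1) ^ 2 * S1 ^ K) ^ 2) * ((2 * (N : ℝ) + 1) *
      (1 + ((mP : ℝ) + 1) ^ 2 * (2 * Λ * Cv / e1)) ^ (2 * N + 1)) ≤ 1 / 200 := by
  let p1 : Polynomial ℝ := Polynomial.C 8 *
    (Polynomial.C 4 * (Polynomial.C (2048 * Cg) * Polynomial.X) ^ 5) ^ J0
  let p2 : Polynomial ℝ := p1 * (Polynomial.C (2048 * Cg) * Polynomial.X) *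
    ((Polynomial.C (2048 * Cg) * Polynomial.X) ^ 2 * Polynomial.C (S1 ^ K)) ^ 2 *
      (Polynomial.C (2 * (N : ℝ) + 1) *
        (1 + Polynomial.C (((mP : ℝ) + 1) ^ 2 * (2048 * Λ * Cv)) * Polynomial.X) ^ (2 * N + 1))
  have ev1 : ∀ x : ℝ, p1.eval x = 8 * (4 * (2048 * Cg * x) ^ 5) ^ J0 := by
    intro x
    simp [p1]
  have ev2 : ∀ x : ℝ, p2.eval x = (8 * (4 * (2048 * Cg * x) ^ 5) ^ J0) * (2048 * Cg * x) *
      ((2048 * Cg * x) ^ 2 * S1 ^ K) ^ 2 * ((2 * (N : ℝ) + 1) *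
        (1 + ((mP : ℝ) + 1) ^ 2 * (2048 * Λ * Cv) * x) ^ (2 * N + 1)) := by
    intro x
    simp [p2, p1]
  have t1 := (Polynomial.tendsto_div_exp_atTop p1).comp (tendsto_natCast_atTop_atTop (R := ℝ))
  have t2 := (Polynomial.tendsto_div_exp_atTop p2).comp (tendsto_natCast_atTop_atTop (R := ℝ))
  have a1 : ∀ᶠ b : ℕ in Filter.atTop, p1.eval (b : ℝ) / Real.exp b < 1 :=
    t1.eventually (gt_mem_nhds (by norm_num))
  have a2 : ∀ᶠ b : ℕ in Filter.atTop, p2.eval (b : ℝ) / Real.exp b < 1 / 200 :=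
    t2.eventually (gt_mem_nhds (by norm_num))
  have a3 : ∀ᶠ b : ℕ in Filter.atTop, 1 / (1024 * e0) ≤ (b : ℝ) :=
    (tendsto_natCast_atTop_atTop (R := ℝ)).eventually (Filter.eventually_ge_atTop _)
  obtain ⟨b, hb1, hb2, hb3, hb4, hb5⟩ :=
    (a1.and (a2.and (a3.and ((Filter.eventually_ge_atTop C).and (Filter.eventually_ge_atTop 5))))).exists
  have hb5' : (5 : ℝ) ≤ (b : ℝ) := by exact_mod_cast hb5
  have hb0 : (0 : ℝ) < (b : ℝ) := by linarith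
  have hexp : Real.exp (-(b : ℝ)) = 1 / Real.exp b := by
    rw [Real.exp_neg, one_div]
  have hdiv : 2 * Cg / (1 / (1024 * (b : ℝ))) = 2048 * Cg * b := by
    field_simp
    ring
  have hdiv2 : 2 * Λ * Cv / (1 / (1024 * (b : ℝ))) = 2048 * Λ * Cv * b := by
    field_simp
    ring
  refine ⟨1 / (1024 * (b : ℝ)), b, by positivity, ?_, hb4, ?_, ?_, ?_⟩
  · rw [div_le_iff₀ (by positivity)] at hb3 ⊢
    nlinarith
  · rw [div_mul_eq_mul_div, div_le_iff₀ (by positivity)]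
    linarith
  · rw [hdiv, hexp]
    rw [ev1] at hb1
    have e : 8 * (1 / Real.exp (b : ℝ)) * (4 * (2048 * Cg * (b : ℝ)) ^ 5) ^ J0 =
        8 * (4 * (2048 * Cg * (b : ℝ)) ^ 5) ^ J0 / Real.exp b := by ring
    rw [e]
    exact hb1.le
  · rw [hdiv, hdiv2, hexp]
    rw [ev2] at hb2
    refine le_trans (le_of_eq ?_) hb2.le
    ring

end H86FP
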