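import Pool.Agent.H73.PC.Dg

/-!
# RO2: the amplitudes outside the cluster, scales `s_a = sc (1/1024) B m a`

The proof of `rob` (`Pool/Agent/H73/PC/Rob.lean`) with `1/1024`, `1/256` in place of `1/64`, `1/16` (`1/256 - 1/1024 = 3/1024`): `κ0 = 1/∑_{a=1}^m w_a/s_a ≤ 4 Cg e1/m`, `f0 a = κ0/s_a` for `a ∈ Icc 1 m`, else `0`;
`∑ f0 w = 1`; `f0 a ≤ 1`; `∑ f0² w s = κ0`, `∑ f0² w ≤ κ0/s_1`; the last quantity is at most `(2048 Cg e1) (2 Λ Cv/e1)² (4 Cg e1/m) (1/(s_1 N) + 1024/3)`.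
-/

set_option autoImplicit false

open Finset EG H69PG H73PC

namespace H86FP

/-- the amplitudes -/
noncomputable def f0u (B : ℝ) (m : ℕ) (w : ℕ → ℝ) (a : ℕ) : ℝ :=
  if a ∈ Icc 1 m then (1 / sc (1 / 1024) B m a) / ∑ b ∈ Icc 1 m, w b / sc (1 / 1024) B m b else 0

theorem RO2_sc {B : ℝ} {m a : ℕ} (hB : 2 ≤ B) (ha : a ∈ Icc 1 m) :
    0 < sc (1 / 1024) B m a ∧ sc (1 / 1024) B m 1 ≤ sc (1 / 1024) B m a := by
  obtain ⟨h1, h2⟩ := mem_Icc.1 ha
  have hB0 : 0 < B := by linarith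
  have hB1 : 1 ≤ B := by linarith
  unfold sc
  rw [if_neg (by omega), if_neg (by omega)]
  constructor
  · positivity
  · have h3 : B ^ (m - a) ≤ B ^ (m - 1) := pow_le_pow_right₀ hB1 (by omega)
    exact div_le_div_of_nonneg_left (by norm_num) (by positivity) h3

theorem rob2 {Cg Cv Λ B e1 μ G : ℝ} {m N : ℕ} {w : ℕ → ℝ} (hCg : 1 ≤ Cg) (hCv : 1 ≤ Cv) (hΛ : 1 ≤ Λ) (hB : 2 ≤ B) (hm : 1 ≤ m) (hN : 1 ≤ N)
    (he1 : 0 < e1) (he1' : 4 * Cg * e1 ≤ sc (1 / 1024) B m 1) (hw0 : ∀ a, 0 ≤ w a)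
    (hw : ∀ a ∈ Icc 1 m, sc (1 / 1024) B m a / (4 * Cg * e1) ≤ w a) (hμ : 0 ≤ μ) (hμ' : μ ≤ 2 * Λ * Cv / e1)
    (hG : 0 ≤ G) (hG' : G ≤ 2048 * Cg * e1) :
    (∀ a, 0 ≤ f0u B m w a ∧ f0u B m w a ≤ 1) ∧ ∑ a ∈ Icc 1 m, f0u B m w a * w a = 1 ∧
    G * (μ * (μ * (∑ a ∈ Icc 1 m, f0u B m w a ^ 2 * w a) / N +
        μ * (∑ a ∈ Icc 1 m, f0u B m w a ^ 2 * w a * sc (1 / 1024) B m a) / (1 / 256 - 1 / 1024))) ≤
      32768 * Cg ^ 2 * Λ ^ 2 * Cv ^ 2 / m * (1 / (sc (1 / 1024) B m 1 * N) + 1024 / 3) := by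
  have hCg0 : 0 < Cg := by linarith
  have hs : ∀ a ∈ Icc 1 m, 0 < sc (1 / 1024) B m a ∧ sc (1 / 1024) B m 1 ≤ sc (1 / 1024) B m a :=
    fun a ha => RO2_sc hB ha
  have h1m : 1 ∈ Icc 1 m := mem_Icc.2 ⟨le_rfl, hm⟩
  have hs1 := (hs 1 h1m).1
  have hm0 : (1 : ℝ) ≤ m := by exact_mod_cast hm
  have hN0 : (0 : ℝ) < N := by exact_mod_cast hN
  have hD : 0 < 4 * Cg * e1 := by positivity
  set S := ∑ b ∈ Icc 1 m, w b / sc (1 / 1024) B m b with hS
  have hSlow : (m : ℝ) / (4 * Cg * e1) ≤ S := by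
    have h1 : ∀ b ∈ Icc 1 m, 1 / (4 * Cg * e1) ≤ w b / sc (1 / 1024) B m b := by
      intro b hb
      have h2 := (hs b hb).1
      rw [le_div_iff₀ h2]
      refine le_trans (le_of_eq ?_) (hw b hb)
      ring
    have h2 := sum_le_sum h1
    rw [sum_const, Nat.card_Icc, Nat.add_sub_cancel, nsmul_eq_mul, mul_one_div] at h2
    exact h2
  have hSpos : 0 < S := lt_of_lt_of_le (by positivity) hSlow
  have hSinv : 1 / S ≤ 4 * Cg * e1 / m := by
    rw [div_le_div_iff₀ hSpos (by linarith)]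
    rw [div_le_iff₀ hD] at hSlow
    linarith
  have hf0 : ∀ a ∈ Icc 1 m, f0u B m w a = (1 / sc (1 / 1024) B m a) / S := by
    intro a ha
    unfold f0u
    rw [if_pos ha, ← hS]
  have hS1 : 1 / sc (1 / 1024) B m 1 ≤ S := by
    refine le_trans ?_ hSlow
    rw [div_le_div_iff₀ hs1 hD]
    nlinarith
  refine ⟨fun a => ?_, ?_, ?_⟩
  · by_cases ha : a ∈ Icc 1 m
    · rw [hf0 a ha]
      obtain ⟨h1, h2⟩ := hs a ha
      refine ⟨by positivity, (div_le_one hSpos).2 (le_trans ?_ hS1)⟩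
      exact one_div_le_one_div_of_le hs1 h2
    · unfold f0u
      rw [if_neg ha]
      exact ⟨le_rfl, zero_le_one⟩
  · have h1 : ∀ a ∈ Icc 1 m, f0u B m w a * w a = (w a / sc (1 / 1024) B m a) / S := by
      intro a ha
      rw [hf0 a ha]
      ring
    rw [sum_congr rfl h1, ← sum_div, ← hS, div_self hSpos.ne']
  · have hX : ∑ a ∈ Icc 1 m, f0u B m w a ^ 2 * w a ≤ 1 / S * (1 / sc (1 / 1024) B m 1) := by
      have h1 : ∀ a ∈ Icc 1 m, f0u B m w a ^ 2 * w a ≤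
          (w a / sc (1 / 1024) B m a) * (1 / S ^ 2 * (1 / sc (1 / 1024) B m 1)) := by
        intro a ha
        obtain ⟨h1, h2⟩ := hs a ha
        rw [hf0 a ha]
        have h3 : (1 / sc (1 / 1024) B m a / S) ^ 2 * w a =
            (w a / sc (1 / 1024) B m a) * (1 / S ^ 2 * (1 / sc (1 / 1024) B m a)) := by
          field_simp
        rw [h3]
        refine mul_le_mul_of_nonneg_left (mul_le_mul_of_nonneg_left ?_ (by positivity))
          (div_nonneg (hw0 a) h1.le)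
        exact one_div_le_one_div_of_le hs1 h2
      refine (sum_le_sum h1).trans (le_of_eq ?_)
      rw [← sum_mul, ← hS]
      field_simp
    have hY : ∑ a ∈ Icc 1 m, f0u B m w a ^ 2 * w a * sc (1 / 1024) B m a = 1 / S := by
      have h1 : ∀ a ∈ Icc 1 m, f0u B m w a ^ 2 * w a * sc (1 / 1024) B m a =
          (w a / sc (1 / 1024) B m a) * (1 / S ^ 2) := by
        intro a ha
        obtain ⟨h1, h2⟩ := hs a ha
        rw [hf0 a ha]
        field_simp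
      rw [sum_congr rfl h1, ← sum_mul, ← hS]
      field_simp
    rw [hY]
    set X := ∑ a ∈ Icc 1 m, f0u B m w a ^ 2 * w a with hXd
    set s1 := sc (1 / 1024) B m 1 with hs1d
    have hμ2 : μ ^ 2 ≤ (2 * Λ * Cv / e1) ^ 2 := pow_le_pow_left₀ hμ hμ' 2
    have hE : 0 ≤ 1 / (s1 * N) + 1024 / 3 := by positivity
    have hXN : X / N ≤ 1 / S * (1 / (s1 * N)) := by
      rw [div_le_iff₀ hN0]
      refine hX.trans (le_of_eq ?_)
      field_simp
    calc G * (μ * (μ * X / N + μ * (1 / S) / (1 / 256 - 1 / 1024)))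
        = G * μ ^ 2 * (X / N + 1 / S * (1024 / 3)) := by ring
      _ ≤ G * μ ^ 2 * (1 / S * (1 / (s1 * N) + 1024 / 3)) := by
          refine mul_le_mul_of_nonneg_left ?_ (by positivity)
          rw [mul_add]
          linarith
      _ ≤ (2048 * Cg * e1) * (2 * Λ * Cv / e1) ^ 2 * (4 * Cg * e1 / m * (1 / (s1 * N) + 1024 / 3)) := by
          refine mul_le_mul (mul_le_mul hG' hμ2 (by positivity) (by positivity))
            (mul_le_mul_of_nonneg_right hSinv hE) (by positivity) (by positivity)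
      _ = 32768 * Cg ^ 2 * Λ ^ 2 * Cv ^ 2 / m * (1 / (s1 * N) + 1024 / 3) := by
          field_simp
          ring

end H86FP
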