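import Pool.Agent.H73.PC.Dg

/-!
# SD2: the data for the scales

The proof of `sdX` (`Pool/Agent/H73/PC/SdX.lean`) with `1/1024` in place of `1/64` and `R = ⌊x^r⌋`: the level is
`x^(2/512 + 2/256 + 2 r) ≤ x^(3/256 + 30/64) = x^(123/256)`. (`Zs ≤ x^(1/1024) ≤ x ≤ z^M`, `x^r ≤ x ≤ z^M`.)
-/

set_option autoImplicit false

open Finset EG H69PG H73PC

namespace H86FP

theorem SD2_sc {B : ℝ} (hB : 1 ≤ B) (m a : ℕ) : 0 ≤ sc (1 / 1024) B m a ∧ sc (1 / 1024) B m a ≤ 1 / 1024 := by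
  unfold sc
  split_ifs
  · exact ⟨le_rfl, by norm_num⟩
  · have h1 : (1 : ℝ) ≤ B ^ (m - a) := one_le_pow₀ hB
    exact ⟨by positivity, div_le_self (by norm_num) h1⟩

theorem SD2_scm {B : ℝ} (hB : 1 ≤ B) (m : ℕ) : Monotone (sc (1 / 1024) B m) := by
  intro a b hab
  by_cases ha : a = 0
  · have h0 : sc (1 / 1024) B m a = 0 := by rw [sc, if_pos ha]
    rw [h0]
    exact (SD2_sc hB m b).1
  · have hb : b ≠ 0 := by omega
    unfold sc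
    rw [if_neg ha, if_neg hb]
    have h1 : (0 : ℝ) < B ^ (m - b) := by positivity
    exact div_le_div_of_nonneg_left (by norm_num) h1 (pow_le_pow_right₀ hB (by omega))

theorem SD2_Z1 {x B : ℝ} (hx : 1 ≤ x) (hB : 1 ≤ B) (m a : ℕ) :
    1 ≤ Zs x (1 / 1024) B m a ∧ (Zs x (1 / 1024) B m a : ℝ) ≤ x ^ sc (1 / 1024) B m a := by
  have hs := SD2_sc hB m a
  have h1 : 1 ≤ x ^ sc (1 / 1024) B m a := Real.one_le_rpow hx hs.1
  unfold Zs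
  split_ifs with h
  · exact ⟨le_rfl, by rw [Nat.cast_one]; exact h1⟩
  · exact ⟨Nat.le_floor (by rw [Nat.cast_one]; exact h1), Nat.floor_le (by linarith)⟩

theorem SD2_Zm {x B : ℝ} (hx : 1 ≤ x) (hB : 1 ≤ B) (m : ℕ) : Monotone (Zs x (1 / 1024) B m) := by
  intro a b hab
  by_cases ha : a = 0
  · have h0 : Zs x (1 / 1024) B m a = 1 := by rw [Zs, if_pos ha]
    rw [h0]
    exact (SD2_Z1 hx hB m b).1
  · have hb : b ≠ 0 := by omega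
    unfold Zs
    rw [if_neg ha, if_neg hb]
    exact Nat.floor_mono (Real.rpow_le_rpow_of_exponent_le hx (SD2_scm hB m hab))

theorem SD2_prod {x B : ℝ} (hx : 1 ≤ x) (hB : 1 ≤ B) (m : ℕ) {α : Type} [Fintype α]
    (n n' : α → Fin (m + 1)) {l : ℝ} (h : ∑ i, sc (1 / 1024) B m (n i) ≤ l)
    (h' : ∑ i, sc (1 / 1024) B m (n' i) ≤ l) :
    ∏ i, ((Zs x (1 / 1024) B m (n i) : ℝ) * (Zs x (1 / 1024) B m (n' i) : ℝ)) ≤ x ^ (2 * l) := by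
  have hx0 : 0 < x := by linarith
  calc ∏ i, ((Zs x (1 / 1024) B m (n i) : ℝ) * (Zs x (1 / 1024) B m (n' i) : ℝ))
      ≤ ∏ i, (x ^ sc (1 / 1024) B m (n i) * x ^ sc (1 / 1024) B m (n' i)) := by
        refine Finset.prod_le_prod (fun i _ => by positivity) fun i _ => ?_
        exact mul_le_mul (SD2_Z1 hx hB m _).2 (SD2_Z1 hx hB m _).2 (by positivity) (by positivity)
    _ = x ^ (∑ i, sc (1 / 1024) B m (n i) + ∑ i, sc (1 / 1024) B m (n' i)) := by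
        rw [Finset.prod_mul_distrib, Real.rpow_add hx0, Real.rpow_sum_of_pos hx0,
          Real.rpow_sum_of_pos hx0]
    _ ≤ x ^ (2 * l) := Real.rpow_le_rpow_of_exponent_le hx (by linarith)

theorem sdX2 (κ ι : Type) [Fintype κ] [DecidableEq κ] [Fintype ι] [DecidableEq ι] {x e1 B Γ r : ℝ} {N mP mH M : ℕ} {f0 : ℕ → ℝ}
    (hx : 1 ≤ x) (hB : 1 ≤ B) (hz : 2 ≤ ⌊x ^ e1⌋₊) (hM : 2 * M ≤ ⌊x ^ e1⌋₊) (hr : 0 ≤ r) (hr' : r ≤ 15 / 64)
    (hzM : x ≤ (⌊x ^ e1⌋₊ : ℝ) ^ M) (hΓ : 1 ≤ Γ)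
    (hGP : ∀ a ≤ mP, GG (primorial ⌊x ^ e1⌋₊) (Zs x (1 / 1024) B mP a) ≤ Γ)
    (hGH : ∀ a ≤ mH, GG (primorial ⌊x ^ e1⌋₊) (Zs x (1 / 1024) B mH a) ≤ Γ)
    (hGR : GG (primorial ⌊x ^ e1⌋₊) ⌊x ^ r⌋₊ ≤ Γ) (hf0 : ∀ a, 0 ≤ f0 a ∧ f0 a ≤ 1) :
    Sd κ ι N mP mH M ⌊x ^ e1⌋₊ ⌊x ^ r⌋₊ ⌊x ^ (123 / 256 : ℝ)⌋₊ (Zs x (1 / 1024) B mP) (Zs x (1 / 1024) B mH)
      (sc (1 / 1024) B mP) (sc (1 / 1024) B mH) f0 (fun a => 1 / sc (1 / 1024) B mH a) (1 / 256) (1 / 512) Γ := by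
  have hx0 : 0 < x := by linarith
  have hZM : ∀ m a : ℕ, Zs x (1 / 1024) B m a ≤ ⌊x ^ e1⌋₊ ^ M := by
    intro m a
    have h1 := (SD2_Z1 hx hB m a).2
    have h2 : x ^ sc (1 / 1024) B m a ≤ x ^ (1 : ℝ) :=
      Real.rpow_le_rpow_of_exponent_le hx ((SD2_sc hB m a).2.trans (by norm_num))
    rw [Real.rpow_one] at h2
    have h3 : (Zs x (1 / 1024) B m a : ℝ) ≤ ((⌊x ^ e1⌋₊ ^ M : ℕ) : ℝ) := by
      push_cast
      exact h1.trans (h2.trans hzM)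
    exact_mod_cast h3
  have hR : 1 ≤ x ^ r := Real.one_le_rpow hx hr
  have hRle : ((⌊x ^ r⌋₊ : ℕ) : ℝ) ≤ x ^ r := Nat.floor_le (by positivity)
  have hRx : x ^ r ≤ x := by
    have h := Real.rpow_le_rpow_of_exponent_le hx (by linarith : r ≤ 1)
    rwa [Real.rpow_one] at h
  refine
    { z2 := hz
      hM := hM
      Z0P := by rw [Zs, if_pos rfl]
      Z0H := by rw [Zs, if_pos rfl]
      ZmP := SD2_Zm hx hB mP
      ZmH := SD2_Zm hx hB mH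
      ZMP := fun a _ => hZM mP a
      ZMH := fun a _ => hZM mH a
      RM := ?_
      R_pos := Nat.le_floor (by rw [Nat.cast_one]; exact hR)
      Γ_one := hΓ
      ΓP := hGP
      ΓH := hGH
      ΓR := hGR
      f0_nonneg := fun a => (hf0 a).1
      f0_le := fun a => (hf0 a).2
      y_nonneg := fun a => div_nonneg zero_le_one (SD2_sc hB mH a).1
      lev := ?_ }
  · have h3 : ((⌊x ^ r⌋₊ : ℕ) : ℝ) ≤ ((⌊x ^ e1⌋₊ ^ M : ℕ) : ℝ) := by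
      push_cast
      exact hRle.trans (hRx.trans hzM)
    exact_mod_cast h3
  · intro n1 h1 n1' h1' n hn n' hn'
    unfold Ad at h1 h1'
    unfold Cf at hn hn'
    have a1 := (Finset.mem_filter.1 h1).2.2
    have a2 := (Finset.mem_filter.1 h1').2.2
    have a3 := (Finset.mem_filter.1 hn).2.2
    have a4 := (Finset.mem_filter.1 hn').2.2
    apply Nat.le_floor
    push_cast
    have b1 := SD2_prod hx hB mH n1 n1' a1 a2
    have b2 := SD2_prod hx hB mP n n' a3 a4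
    have b3 : ((⌊x ^ r⌋₊ : ℕ) : ℝ) * ((⌊x ^ r⌋₊ : ℕ) : ℝ) ≤ x ^ (2 * r) := by
      calc ((⌊x ^ r⌋₊ : ℕ) : ℝ) * ((⌊x ^ r⌋₊ : ℕ) : ℝ) ≤ x ^ r * x ^ r :=
            mul_le_mul hRle hRle (by positivity) (by positivity)
        _ = x ^ (2 * r) := by
            rw [← Real.rpow_add hx0]
            congr 1
            ring
    have p1 : 0 ≤ ∏ i, ((Zs x (1 / 1024) B mP (n i) : ℝ) * (Zs x (1 / 1024) B mP (n' i) : ℝ)) :=
      Finset.prod_nonneg fun i _ => by positivity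
    calc (∏ h, ((Zs x (1 / 1024) B mH (n1 h) : ℝ) * (Zs x (1 / 1024) B mH (n1' h) : ℝ))) *
          (∏ i, ((Zs x (1 / 1024) B mP (n i) : ℝ) * (Zs x (1 / 1024) B mP (n' i) : ℝ))) *
          (((⌊x ^ r⌋₊ : ℕ) : ℝ) * ((⌊x ^ r⌋₊ : ℕ) : ℝ))
        ≤ x ^ (2 * (1 / 512 : ℝ)) * x ^ (2 * (1 / 256 : ℝ)) * x ^ (2 * r) := by
          refine mul_le_mul (mul_le_mul b1 b2 p1 (by positivity)) b3 (by positivity) (by positivity)
      _ = x ^ (2 * (1 / 512 : ℝ) + 2 * (1 / 256 : ℝ) + 2 * r) := by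
          rw [← Real.rpow_add hx0, ← Real.rpow_add hx0]
      _ ≤ x ^ (123 / 256 : ℝ) := Real.rpow_le_rpow_of_exponent_le hx (by linarith)

end H86FP
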