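import Pool.Agent.H73.PC.Wsb

/-!
# WS2: the norms of the blocks for the scales `sc vt B m a`, `0 < vt ≤ 1`

The proof of `wsb` (`Pool/Agent/H73/PC/Wsb.lean`) with `vt` in place of `1/64` (`Wsb_gg`, `Wsb_fl`, `Wsb_pos` can be cited).
-/

set_option autoImplicit false

open Finset EG H69PG H73PC

namespace H86FP

theorem wsb2 : ∃ Cg : ℝ, 1 ≤ Cg ∧
    (∀ (vt B e1 : ℝ) (m : ℕ), 0 < vt → vt ≤ 1 → 2 ≤ B → 8 * Cg ^ 2 ≤ B → 1 ≤ m → 0 < e1 → 4 * Cg * e1 ≤ sc vt B m 1 → ∃ x0 : ℝ, ∀ x : ℝ, x0 ≤ x →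
      ∀ a ∈ Icc 1 m, sc vt B m a / (4 * Cg * e1) ≤ wA (Zs x vt B m) (primorial ⌊x ^ e1⌋₊) a ∧
        wA (Zs x vt B m) (primorial ⌊x ^ e1⌋₊) a ≤ 2 * Cg * sc vt B m a / e1 ∧
        GG (primorial ⌊x ^ e1⌋₊) (Zs x vt B m a) ≤ 2 * Cg * sc vt B m a / e1) ∧
    (∀ r e1 : ℝ, 0 < e1 → e1 ≤ r → r ≤ 1 → ∃ x0 : ℝ, ∀ x : ℝ, x0 ≤ x →
      r / (2 * Cg * e1) ≤ GG (primorial ⌊x ^ e1⌋₊) ⌊x ^ r⌋₊ ∧ GG (primorial ⌊x ^ e1⌋₊) ⌊x ^ r⌋₊ ≤ 2 * Cg * r / e1) := by
  obtain ⟨C, hC, hg⟩ := ggb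
  have hC0 : 0 < C := by linarith
  refine ⟨C, hC, ?_, ?_⟩
  · intro vt B e1 m hv hv1 hB hB2 hm he hs1
    have hB0 : 0 < B := by linarith
    have hB1 : 1 ≤ B := by linarith
    have hsc : ∀ a ∈ Icc 1 m, sc vt B m a = vt / B ^ (m - a) := by
      intro a ha
      have h1 := (mem_Icc.1 ha).1
      unfold sc
      rw [if_neg (by omega)]
    have hsp : ∀ a ∈ Icc 1 m, 0 < sc vt B m a := by
      intro a ha
      rw [hsc a ha]
      positivity
    have hsle : ∀ a ∈ Icc 1 m, sc vt B m 1 ≤ sc vt B m a := by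
      intro a ha
      rw [hsc a ha, hsc 1 (mem_Icc.2 ⟨le_rfl, hm⟩)]
      have h1 : m - a ≤ m - 1 := by
        have := (mem_Icc.1 ha).1
        omega
      exact div_le_div_of_nonneg_left hv.le (by positivity) (pow_le_pow_right₀ hB1 h1)
    have hes : ∀ a ∈ Icc 1 m, e1 ≤ sc vt B m a := by
      intro a ha
      have h1 := hsle a ha
      have h2 : e1 ≤ 4 * C * e1 := by nlinarith
      linarith
    have hev : ∀ᶠ x : ℝ in Filter.atTop, ∀ a ∈ Icc 1 m,
        sc vt B m a / (2 * C * e1) ≤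
          GG (primorial ⌊x ^ e1⌋₊) ⌊x ^ (sc vt B m a)⌋₊ ∧
        GG (primorial ⌊x ^ e1⌋₊) ⌊x ^ (sc vt B m a)⌋₊ ≤
          2 * C * sc vt B m a / e1 :=
      (Finset.eventually_all _).2 (fun a ha => Wsb_gg hC hg he (hes a ha))
    obtain ⟨x0, hx0⟩ := Filter.eventually_atTop.1 hev
    refine ⟨x0, fun x hx a ha => ?_⟩
    have hZ : ∀ b ∈ Icc 1 m, Zs x vt B m b = ⌊x ^ (sc vt B m b)⌋₊ := by
      intro b hb
      have h1 := (mem_Icc.1 hb).1
      unfold Zs
      rw [if_neg (by omega)]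
    obtain ⟨h1, h2⟩ := hx0 x hx a ha
    rw [← hZ a ha] at h1 h2
    have ha1 := (mem_Icc.1 ha).1
    have ham := (mem_Icc.1 ha).2
    have hwA : wA (Zs x vt B m) (primorial ⌊x ^ e1⌋₊) a =
        GG (primorial ⌊x ^ e1⌋₊) (Zs x vt B m a) -
          GG (primorial ⌊x ^ e1⌋₊) (Zs x vt B m (a - 1)) := by
      unfold wA
      rw [if_neg (by omega)]
    have hnn := Wsb_pos (primorial ⌊x ^ e1⌋₊) (Zs x vt B m (a - 1))
    have hsa := hsp a ha
    have hprev : GG (primorial ⌊x ^ e1⌋₊) (Zs x vt B m (a - 1)) ≤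
        sc vt B m a / (4 * C * e1) := by
      by_cases h : a = 1
      · have hZ0 : Zs x vt B m (a - 1) = 1 := by
          rw [h]
          rfl
        rw [hZ0, gg_one, h, le_div_iff₀ (by positivity), one_mul]
        exact hs1
      · have hb : a - 1 ∈ Icc 1 m := mem_Icc.2 ⟨by omega, by omega⟩
        obtain ⟨_, h4⟩ := hx0 x hx (a - 1) hb
        rw [← hZ (a - 1) hb] at h4
        refine le_trans h4 ?_
        have hss : sc vt B m (a - 1) = sc vt B m a / B := by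
          rw [hsc a ha, hsc (a - 1) hb]
          have e : m - (a - 1) = (m - a) + 1 := by omega
          rw [e, pow_succ, ← div_div vt]
        rw [hss]
        obtain ⟨σ, hσ⟩ : ∃ σ, σ = sc vt B m a := ⟨_, rfl⟩
        rw [← hσ] at hsa ⊢
        rw [div_le_div_iff₀ he (by positivity)]
        have h5 : 2 * C * (σ / B) * (4 * C * e1) = 8 * C ^ 2 / B * (σ * e1) := by
          field_simp
          ring
        rw [h5]
        have h6 : 8 * C ^ 2 / B ≤ 1 := by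
          rw [div_le_one hB0]
          exact hB2
        have h7 : 0 ≤ σ * e1 := by positivity
        nlinarith
    refine ⟨?_, ?_, h2⟩
    · rw [hwA]
      have e : sc vt B m a / (2 * C * e1) =
          sc vt B m a / (4 * C * e1) + sc vt B m a / (4 * C * e1) := by
        rw [← add_div, div_eq_div_iff (by positivity) (by positivity)]
        ring
      rw [e] at h1
      linarith
    · rw [hwA]
      linarith
  · intro r e1 he her _
    exact Filter.eventually_atTop.1 (Wsb_gg hC hg he her)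


end H86FP
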