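import Pool.Agent.H86.FP.CC5
import Pool.Agent.H86.FP.GL
import Pool.Agent.H86.FP.RT2
import Pool.Agent.H86.FP.RO2
import Pool.Agent.H86.FP.WS2
import Pool.Agent.H86.FP.SD2
import Pool.Agent.H86.FP.MV2
import Pool.Agent.H86.FP.PA2
import Pool.Agent.H73.PC.Clx

/-!
# CL5: assembly of the five bins theorem (PI helper86)

Modelled on `Pool/Agent/H73/PC/Clx.lean`, `Clf.lean` of helper73.
-/

set_option autoImplicit false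

open Finset EG H73PC Pool.Agent.H17 Filter
open H69PG hiding sc

namespace H86FP

theorem CL5_sc_pos {B : ℝ} (hB : 2 ≤ B) {m a : ℕ} (ha : 1 ≤ a) : 0 < sc (1 / 1024) B m a := by
  unfold sc
  rw [if_neg (by omega)]
  have : 0 < B := by linarith
  positivity

theorem CL5_sc_nonneg {B : ℝ} (hB : 2 ≤ B) (m a : ℕ) : 0 ≤ sc (1 / 1024) B m a := by
  rcases Nat.eq_zero_or_pos a with h | h
  · subst h
    unfold sc
    simp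
  · exact (CL5_sc_pos hB h).le

theorem CL5_sc_le {B : ℝ} (hB : 2 ≤ B) (m a : ℕ) : sc (1 / 1024) B m a ≤ 1 / 1024 := by
  unfold sc
  split_ifs
  · norm_num
  · have h1 : (1 : ℝ) ≤ B ^ (m - a) := one_le_pow₀ (by linarith)
    rw [div_le_iff₀ (by linarith)]
    linarith

theorem CL5_Zs_le {B : ℝ} (hB : 2 ≤ B) {x : ℝ} (hx : 1 ≤ x) (m a : ℕ) : Zs x (1 / 1024) B m a ≤ ⌊x ^ (1 / 1024 : ℝ)⌋₊ := by
  unfold Zs
  split_ifs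
  · exact Nat.le_floor (by
      rw [Nat.cast_one]
      exact Real.one_le_rpow hx (by norm_num))
  · exact Nat.floor_le_floor (Real.rpow_le_rpow_of_exponent_le hx (CL5_sc_le hB m a))

theorem CL5_Zs_zero (x B : ℝ) (m : ℕ) : Zs x (1 / 1024) B m 0 = 1 := by
  unfold Zs
  simp

theorem CL5_Zs_mono {B : ℝ} (hB : 2 ≤ B) {x : ℝ} (hx : 1 ≤ x) (m : ℕ) : Monotone (Zs x (1 / 1024) B m) := by
  intro a a' h
  unfold Zs
  split_ifs with h1 h2 h2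
  · exact le_rfl
  · exact Nat.le_floor (by
      rw [Nat.cast_one]
      exact Real.one_le_rpow hx (CL5_sc_nonneg hB m a'))
  · omega
  · refine Nat.floor_le_floor (Real.rpow_le_rpow_of_exponent_le hx ?_)
    unfold sc
    rw [if_neg h1, if_neg h2]
    have hB0 : 0 < B := by linarith
    have h3 : B ^ (m - a') ≤ B ^ (m - a) := pow_le_pow_right₀ (by linarith) (by omega)
    exact div_le_div_of_nonneg_left (by norm_num) (by positivity) h3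

/-- facts for large `x` -/
theorem CL5_ev {e1 : ℝ} (he1 : 0 < e1) (he1' : e1 ≤ 1 / 1024) {M : ℕ} (hM : 1 + e1 ≤ e1 * M) : ∃ x0 : ℝ, ∀ x : ℝ, x0 ≤ x →
    1 ≤ x ∧ 2 ≤ ⌊x ^ e1⌋₊ ∧ 2 * M ≤ ⌊x ^ e1⌋₊ ∧ x ≤ (⌊x ^ e1⌋₊ : ℝ) ^ M ∧ ((yy x : ℕ) : ℝ) < x / 3 ∧
    ((⌊x ^ (15 / 64 : ℝ)⌋₊ : ℕ) : ℝ) < x / 3 ∧ ⌊x ^ e1⌋₊ ≤ ⌊x ^ (1 / 1024 : ℝ)⌋₊ ∧
    ⌊x ^ (1 / 1024 : ℝ)⌋₊ ≤ ⌊x ^ (15 / 64 : ℝ)⌋₊ := by
  obtain ⟨x1, hx1⟩ := Clx_ev (e1 := e1) he1 (by linarith) hM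
  have h3 : ∀ᶠ x : ℝ in atTop, (4 : ℝ) ≤ x ^ (49 / 64 : ℝ) := (tendsto_rpow_atTop (by norm_num)).eventually_ge_atTop _
  obtain ⟨x2, hx2⟩ := eventually_atTop.1 h3
  refine ⟨max x1 x2, fun x hx => ?_⟩
  obtain ⟨g1, g2, g3, g4, g5, _, _⟩ := hx1 x ((le_max_left _ _).trans hx)
  have g6 := hx2 x ((le_max_right _ _).trans hx)
  have hx0 : 0 < x := by linarith
  refine ⟨g1, g2, g3, g4, g5, ?_, ?_, ?_⟩
  · have h5 : ((⌊x ^ (15 / 64 : ℝ)⌋₊ : ℕ) : ℝ) ≤ x ^ (15 / 64 : ℝ) := Nat.floor_le (by positivity)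
    have h6 : x ^ (15 / 64 : ℝ) * x ^ (49 / 64 : ℝ) = x := by
      rw [← Real.rpow_add hx0]
      norm_num
    have h7 : 0 < x ^ (15 / 64 : ℝ) := by positivity
    nlinarith
  · exact Nat.floor_le_floor (Real.rpow_le_rpow_of_exponent_le g1 he1')
  · exact Nat.floor_le_floor (Real.rpow_le_rpow_of_exponent_le g1 (by norm_num))

/-- no prime outside of the cluster -/
theorem CL5_np {b y0 t k : ℕ} {x Λ : ℝ} (hw : (yy x : ℝ) < x / 3) (hy0 : (y0 : ℝ) < x / 3)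
    (hX : x / 3 ≤ ((Xo x + b : ℕ) : ℝ)) {H : Finset ℕ}
    (h2 : ∀ i : {k // k ∈ Rk x Λ b \ H}, ∃ p : ℕ, p.Prime ∧ p ≤ y0 ∧ p ∣ WW (yy x) * t + (Xo x + b + i))
    (hk1 : 1 ≤ k) (hk2 : (k : ℝ) ≤ Λ * Real.log x) (hkH : k ∉ H) : ¬ (Xo x + b + WW (yy x) * t + k).Prime := by
  intro hprime
  have e : Xo x + b + WW (yy x) * t + k = WW (yy x) * t + (Xo x + b + k) := by ring
  rw [e] at hprime
  have hL : ((Xo x + b : ℕ) : ℝ) ≤ ((WW (yy x) * t + (Xo x + b + k) : ℕ) : ℝ) := by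
    have : Xo x + b ≤ WW (yy x) * t + (Xo x + b + k) := by omega
    exact_mod_cast this
  by_cases hcop : Nat.Coprime (Xo x + b + k) (WW (yy x))
  · have hkR : k ∈ Rk x Λ b \ H := by
      rw [Finset.mem_sdiff]
      refine ⟨?_, hkH⟩
      unfold Rk
      rw [Finset.mem_filter, Finset.mem_Icc]
      exact ⟨⟨hk1, Nat.le_floor hk2⟩, hcop⟩
    obtain ⟨p, hp1, hp2, hp3⟩ := h2 ⟨k, hkR⟩
    have h4 : p = WW (yy x) * t + (Xo x + b + k) := (Nat.prime_dvd_prime_iff_eq hp1 hprime).1 hp3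
    have h5 : (p : ℝ) ≤ y0 := by exact_mod_cast hp2
    have h6 : (p : ℝ) = ((WW (yy x) * t + (Xo x + b + k) : ℕ) : ℝ) := by exact_mod_cast h4
    linarith
  · obtain ⟨p, hp, hp1, hp2⟩ := Nat.Prime.not_coprime_iff_dvd.1 hcop
    have hpw : p ≤ yy x := by
      have h7 : p ∣ primorial (yy x) := hp2
      exact (hp.dvd_primorial_iff).1 h7
    have h8 : p ∣ WW (yy x) * t + (Xo x + b + k) := (Dvd.dvd.mul_right hp2 t).add hp1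
    have h4 : p = WW (yy x) * t + (Xo x + b + k) := (Nat.prime_dvd_prime_iff_eq hp hprime).1 h8
    have h5 : (p : ℝ) ≤ yy x := by exact_mod_cast hpw
    have h6 : (p : ℝ) = ((WW (yy x) * t + (Xo x + b + k) : ℕ) : ℝ) := by exact_mod_cast h4
    linarith

/-- the pair constant -/
theorem CL5_pair {Ipq Ia I1 I2 Y0 Y1 T v Vx G : ℝ} {K : ℕ} (hK : 1 ≤ K) (_hIpp : 0 ≤ Ipq) (_hIa : 0 ≤ Ia)
    (hI1 : 0 ≤ I1) (hI2 : 0 ≤ I2) (hY0 : 0 ≤ Y0) (hT : 0 ≤ T) (hv : 0 < v) (hG : 0 < G)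
    (h1 : Ipq * Ia ≤ 103 / 100 * (I1 * I2)) (h2 : v ≤ 431 / 100 * Vx * G) (h3 : T * Vx ≤ Y1) :
    (Ipq * (Y0 * v ^ (K - 1) / G)) * (Ia * (T * v ^ K)) ≤
      9 / 2 * ((I1 * (Y0 * v ^ (K - 1))) * (I2 * (Y1 * v ^ (K - 1)))) := by
  have e1 : v ^ K = v ^ (K - 1) * v := by
    rw [← pow_succ, Nat.sub_add_cancel hK]
  have hp : 0 < v ^ (K - 1) := by positivity
  obtain ⟨P, hP⟩ : ∃ P : ℝ, P = v ^ (K - 1) := ⟨_, rfl⟩
  rw [← hP] at hp e1 ⊢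
  rw [e1]
  have h4 : T * v / G ≤ 431 / 100 * Y1 := by
    rw [div_le_iff₀ hG]
    calc T * v ≤ T * (431 / 100 * Vx * G) := mul_le_mul_of_nonneg_left h2 hT
      _ = 431 / 100 * (T * Vx) * G := by ring
      _ ≤ 431 / 100 * Y1 * G := by
        have := mul_le_mul_of_nonneg_right h3 hG.le
        linarith
  have hY1 : 0 ≤ Y1 := by
    have : 0 ≤ T * v / G := by positivity
    linarith
  have h5 : (Ipq * (Y0 * P / G)) * (Ia * (T * (P * v))) = (Ipq * Ia) * ((Y0 * P * P) * (T * v / G)) := by ring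
  rw [h5]
  have h6 : (Y0 * P * P) * (T * v / G) ≤ (Y0 * P * P) * (431 / 100 * Y1) := mul_le_mul_of_nonneg_left h4 (by positivity)
  calc (Ipq * Ia) * ((Y0 * P * P) * (T * v / G)) ≤ (103 / 100 * (I1 * I2)) * ((Y0 * P * P) * (431 / 100 * Y1)) :=
        mul_le_mul h1 h6 (by positivity) (by positivity)
    _ = 44393 / 10000 * ((I1 * (Y0 * P)) * (I2 * (Y1 * P))) := by ring
    _ ≤ 9 / 2 * ((I1 * (Y0 * P)) * (I2 * (Y1 * P))) := by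
      have : 0 ≤ (I1 * (Y0 * P)) * (I2 * (Y1 * P)) := by positivity
      linarith

/-- the number of primes in a bin -/
theorem CL5_term {I P T v Vx Y C : ℝ} {K K' : ℕ} (hK : K = 5 * K') (hK' : 1 ≤ K') (hI : 0 ≤ I) (hP : 0 ≤ P) (hT : 0 ≤ T)
    (hv : 0 < v) (hVx : 0 ≤ Vx) (h1 : 2 * (((250 : ℕ) : ℝ) + 1) * I * C ≤ K * P) (h2 : v ≤ C * Vx) (h3 : T * Vx ≤ Y) :
    100 * (I * (T * v ^ K)) ≤ K' * (P * (Y * v ^ (K - 1))) := by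
  have hK1 : 1 ≤ K := by omega
  have e1 : v ^ K = v ^ (K - 1) * v := by
    rw [← pow_succ, Nat.sub_add_cancel hK1]
  obtain ⟨Q, hQ⟩ : ∃ Q : ℝ, Q = v ^ (K - 1) := ⟨_, rfl⟩
  have hQ0 : 0 < Q := by rw [hQ]; positivity
  rw [← hQ] at e1 ⊢
  rw [e1]
  have hKr : (K : ℝ) = 5 * K' := by rw [hK]; push_cast; ring
  have hY0 : 0 ≤ Y := le_trans (by positivity) h3
  have h5 : I * (T * v) * 502 ≤ K * (P * Y) := by
    have h6 : I * (T * v) ≤ I * (T * (C * Vx)) := by gcongr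
    have h7 : (2 * (((250 : ℕ) : ℝ) + 1) * I * C) * (T * Vx) ≤ (K * P) * (T * Vx) :=
      mul_le_mul_of_nonneg_right h1 (by positivity)
    have h8 : (K * P) * (T * Vx) ≤ (K * P) * Y := mul_le_mul_of_nonneg_left h3 (by positivity)
    push_cast at h7
    nlinarith
  rw [hKr] at h5
  have h9 := mul_le_mul_of_nonneg_left h5 hQ0.le
  have h10 : 0 ≤ I * (T * v) * Q := by positivity
  nlinarith

open Classical in
/-- one class and one cluster -/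
theorem CL5_low {Cg Cv B Λ e1 x : ℝ} {K K' N mP mH M J0 b0 b : ℕ} (hCg : 1 ≤ Cg) (hCv : 1 ≤ Cv) (hB : 2 ≤ B) (hΛ : 1 ≤ Λ)
    (hmH : 1 ≤ mH) (hmP : 1 ≤ mP) (hN : 1 ≤ N) (hK' : 1 ≤ K') (hKK : K = 5 * K') (hJ : K + 4 * N + 2 ≤ J0)
    (hK1 : (K : ℝ) * (819200 * Cg ^ 2 * mH * sc (1 / 1024) B mH 1) ≤ 1)
    (hK2 : 256 * (((250 : ℕ) : ℝ) + 1) * Cg ^ 3 * Cv ≤ (K : ℝ) * (mH : ℝ) ^ 2 * sc (1 / 1024) B mH 1)
    (hPar : 32768 * Cg ^ 2 * Λ ^ 2 * Cv ^ 2 / mP * (1 / (sc (1 / 1024) B mP 1 * N) + 1024 / 3) ≤ 1 / 200)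
    (he1 : 0 < e1) (heH : 4 * Cg * e1 ≤ sc (1 / 1024) B mH 1) (heP : 4 * Cg * e1 ≤ sc (1 / 1024) B mP 1)
    (hη2 : (8 * Real.exp (-(b0 : ℝ)) * (4 * (2 * Cg / e1) ^ 5) ^ J0 * (2 * Cg / e1) *
      ((2 * Cg / e1) ^ 2 * (∑ a ∈ Icc 1 mH, 1 / sc (1 / 1024) B mH a) ^ K) ^ 2) * ((2 * (N : ℝ) + 1) *
      (1 + ((mP : ℝ) + 1) ^ 2 * (2 * Λ * Cv / e1)) ^ (2 * N + 1)) ≤ 1 / 200)
    (hx1 : 1 ≤ x) (hz2 : 2 ≤ ⌊x ^ e1⌋₊) (hzM2 : 2 * M ≤ ⌊x ^ e1⌋₊) (hzM : x ≤ (⌊x ^ e1⌋₊ : ℝ) ^ M)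
    (hwx : ((yy x : ℕ) : ℝ) < x / 3) (hRx : ((⌊x ^ (15 / 64 : ℝ)⌋₊ : ℕ) : ℝ) < x / 3)
    (hzR : ⌊x ^ e1⌋₊ ≤ ⌊x ^ (1 / 1024 : ℝ)⌋₊) (hRR : ⌊x ^ (1 / 1024 : ℝ)⌋₊ ≤ ⌊x ^ (15 / 64 : ℝ)⌋₊)
    (hTo : 1 ≤ To x)
    (hrg : ∀ k : ℕ, (k : ℝ) ≤ Λ * Real.log x → x / 3 ≤ ((Xo x + b + k : ℕ) : ℝ))
    (hwH : ∀ a ∈ Icc 1 mH, sc (1 / 1024) B mH a / (4 * Cg * e1) ≤ wA (Zs x (1 / 1024) B mH) (primorial ⌊x ^ e1⌋₊) a ∧
      wA (Zs x (1 / 1024) B mH) (primorial ⌊x ^ e1⌋₊) a ≤ 2 * Cg * sc (1 / 1024) B mH a / e1 ∧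
      GG (primorial ⌊x ^ e1⌋₊) (Zs x (1 / 1024) B mH a) ≤ 2 * Cg * sc (1 / 1024) B mH a / e1)
    (hwP : ∀ a ∈ Icc 1 mP, sc (1 / 1024) B mP a / (4 * Cg * e1) ≤ wA (Zs x (1 / 1024) B mP) (primorial ⌊x ^ e1⌋₊) a ∧
      wA (Zs x (1 / 1024) B mP) (primorial ⌊x ^ e1⌋₊) a ≤ 2 * Cg * sc (1 / 1024) B mP a / e1 ∧
      GG (primorial ⌊x ^ e1⌋₊) (Zs x (1 / 1024) B mP a) ≤ 2 * Cg * sc (1 / 1024) B mP a / e1)
    (hG1 : (1 / 1024) / (2 * Cg * e1) ≤ GG (primorial ⌊x ^ e1⌋₊) ⌊x ^ (1 / 1024 : ℝ)⌋₊)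
    (hG2 : GG (primorial ⌊x ^ e1⌋₊) ⌊x ^ (1 / 1024 : ℝ)⌋₊ ≤ 2 * Cg * (1 / 1024) / e1)
    (hG3 : (15 / 64) / (2 * Cg * e1) ≤ GG (primorial ⌊x ^ e1⌋₊) ⌊x ^ (15 / 64 : ℝ)⌋₊)
    (hG4 : GG (primorial ⌊x ^ e1⌋₊) ⌊x ^ (15 / 64 : ℝ)⌋₊ ≤ 2 * Cg * (15 / 64) / e1)
    (hgl : VV (yy x) ⌊x ^ e1⌋₊ 1 ≤ 431 / 100 * Vo x * GG (primorial ⌊x ^ e1⌋₊) ⌊x ^ (15 / 64 : ℝ)⌋₊)
    (hVo : 0 < Vo x) (hv1 : Vo x / (Cv * e1) ≤ VV (yy x) ⌊x ^ e1⌋₊ 1) (hv2 : VV (yy x) ⌊x ^ e1⌋₊ 1 ≤ Cv / e1 * Vo x)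
    (hmu : ((Rk x Λ b).card : ℝ) * VV (yy x) ⌊x ^ e1⌋₊ 1 ≤ 2 * Λ * Cv / e1)
    {H : Finset ℕ} (hHK : H.card = K) (hHR : H ⊆ Rk x Λ b) (bin : {h // h ∈ H} → Fin 5)
    (hbin : ∀ j : Fin 5, (univ.filter (fun h => bin h = j)).card = K')
    (hMv : Mv (yy x) ⌊x ^ e1⌋₊ (WW (yy x)) (2 * M) J0 ⌊x ^ (123 / 256 : ℝ)⌋₊ (2 * Cg / e1)
      (8 * Real.exp (-(b0 : ℝ)) * (4 * (2 * Cg / e1) ^ 5) ^ J0) (range (To x)) (To x : ℝ) univ (cf x Λ b H))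
    (hMp : ∀ h0 : {h // h ∈ H}, ∃ Yp : ℝ, (To x : ℝ) * Vo x ≤ Yp ∧
      Mv (yy x) ⌊x ^ e1⌋₊ (WW (yy x)) (2 * M) J0 ⌊x ^ (123 / 256 : ℝ)⌋₊ (2 * Cg / e1)
        (8 * Real.exp (-(b0 : ℝ)) * (4 * (2 * Cg / e1) ^ 5) ^ J0)
        ((range (To x)).filter (fun t => (WW (yy x) * t + (Xo x + b + h0)).Prime)) Yp (univ.erase (Sum.inl h0)) (cf x Λ b H)) :
    ∃ t < To x, (∀ k : ℕ, 1 ≤ k → (k : ℝ) ≤ Λ * Real.log x → k ∉ H → ¬ (Xo x + b + WW (yy x) * t + k).Prime) ∧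
      ∃ h h' : {h // h ∈ H}, bin h ≠ bin h' ∧ (Xo x + b + WW (yy x) * t + h).Prime ∧ (Xo x + b + WW (yy x) * t + h').Prime := by
  have hx0 : 0 < x := by linarith
  have hCg0 : 0 < Cg := by linarith
  have hCv0 : 0 < Cv := by linarith
  have hscH := CL5_sc_pos hB (m := mH) (a := 1) le_rfl
  have hscH' := CL5_sc_le hB mH 1
  have he64 : 4 * Cg * e1 ≤ 1 / 1024 := heH.trans hscH'
  have he64' : e1 ≤ 1 / 1024 := by nlinarith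
  have hΓ1 : 1 ≤ 2 * Cg / e1 := by
    rw [le_div_iff₀ he1]
    nlinarith
  have hcardκ : Fintype.card {h // h ∈ H} = K := by
    rw [Fintype.card_coe, hHK]
  have hv0 : 0 < VV (yy x) ⌊x ^ e1⌋₊ 1 := lt_of_lt_of_le (by positivity) hv1
  -- norms
  set Q := primorial ⌊x ^ e1⌋₊ with hQ
  have hZmH : Monotone (Zs x (1 / 1024) B mH) := CL5_Zs_mono hB hx1 mH
  have hZmP : Monotone (Zs x (1 / 1024) B mP) := CL5_Zs_mono hB hx1 mP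
  have hw0H : ∀ a, 0 ≤ wA (Zs x (1 / 1024) B mH) Q a := wA_nonneg Q hZmH
  have hw0P : ∀ a, 0 ≤ wA (Zs x (1 / 1024) B mP) Q a := wA_nonneg Q hZmP
  have hbd : ∀ s : ℝ, s ≤ 1 → 2 * Cg * s / e1 ≤ 2 * Cg / e1 := by
    intro s hs
    apply div_le_div_of_nonneg_right _ he1.le
    nlinarith
  have hGH : ∀ a ≤ mH, GG Q (Zs x (1 / 1024) B mH a) ≤ 2 * Cg / e1 := by
    intro a ha
    rcases Nat.eq_zero_or_pos a with h | h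
    · subst h
      rw [CL5_Zs_zero, gg_one]
      exact hΓ1
    · exact (hwH a (mem_Icc.2 ⟨h, ha⟩)).2.2.trans (hbd _ ((CL5_sc_le hB mH a).trans (by norm_num)))
  have hGP : ∀ a ≤ mP, GG Q (Zs x (1 / 1024) B mP a) ≤ 2 * Cg / e1 := by
    intro a ha
    rcases Nat.eq_zero_or_pos a with h | h
    · subst h
      rw [CL5_Zs_zero, gg_one]
      exact hΓ1
    · exact (hwP a (mem_Icc.2 ⟨h, ha⟩)).2.2.trans (hbd _ ((CL5_sc_le hB mP a).trans (by norm_num)))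
  have hwm : ∀ a ≤ mH, wA (Zs x (1 / 1024) B mH) Q a ≤ 2 * Cg / e1 := by
    intro a ha
    rcases Nat.eq_zero_or_pos a with h | h
    · subst h
      unfold wA
      rw [if_pos rfl]
      exact hΓ1
    · exact (hwH a (mem_Icc.2 ⟨h, ha⟩)).2.1.trans (hbd _ ((CL5_sc_le hB mH a).trans (by norm_num)))
  -- the number of other shifts
  obtain ⟨μ, hμ⟩ : ∃ μ : ℝ, μ = (Fintype.card {k // k ∈ Rk x Λ b \ H} : ℝ) * VV (yy x) ⌊x ^ e1⌋₊ 1 := ⟨_, rfl⟩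
  have hμ0 : 0 ≤ μ := by
    rw [hμ]
    positivity
  have hμ1 : μ ≤ 2 * Λ * Cv / e1 := by
    rw [hμ]
    refine le_trans (mul_le_mul_of_nonneg_right ?_ hv0.le) hmu
    rw [Fintype.card_coe]
    exact_mod_cast Finset.card_le_card Finset.sdiff_subset
  have hGG1 : 0 < GG Q ⌊x ^ (1 / 1024 : ℝ)⌋₊ := lt_of_lt_of_le (by positivity) hG1
  have hGG2 : 0 < GG Q ⌊x ^ (15 / 64 : ℝ)⌋₊ := lt_of_lt_of_le (by positivity) hG3
  -- the amplitudes outside of the cluster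
  have hRob := rob2 (Λ := Λ) (μ := μ) (G := 1 / GG Q ⌊x ^ (1 / 1024 : ℝ)⌋₊) hCg hCv hΛ hB hmP hN he1 heP hw0P
    (fun a ha => (hwP a ha).1) hμ0 hμ1 (by positivity) (by
      have h1 : 0 < (1 / 1024) / (2 * Cg * e1) := by positivity
      calc 1 / GG Q ⌊x ^ (1 / 1024 : ℝ)⌋₊ ≤ 1 / ((1 / 1024) / (2 * Cg * e1)) := one_div_le_one_div_of_le h1 hG1
        _ = 2048 * Cg * e1 := by
          field_simp
          ring)
  obtain ⟨hf0, hf1, hfB⟩ := hRob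
  -- the data
  have hSd := sdX2 {h // h ∈ H} {k // k ∈ Rk x Λ b \ H} (x := x) (e1 := e1) (B := B) (Γ := 2 * Cg / e1) (r := 1 / 1024) (N := N) (mP := mP) (mH := mH)
    (M := M) (f0 := f0u B mP (wA (Zs x (1 / 1024) B mP) Q)) hx1 (by linarith) hz2 hzM2 (by norm_num) (by norm_num)
    hzM hΓ1 hGP hGH (hG2.trans (hbd _ (by norm_num))) hf0
  have hSd2 := sdX2 {h // h ∈ H} {k // k ∈ Rk x Λ b \ H} (x := x) (e1 := e1) (B := B) (Γ := 2 * Cg / e1) (r := 15 / 64) (N := N) (mP := mP) (mH := mH)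
    (M := M) (f0 := f0u B mP (wA (Zs x (1 / 1024) B mP) Q)) hx1 (by linarith) hz2 hzM2 (by norm_num) le_rfl
    hzM hΓ1 hGP hGH (hG4.trans (hbd _ (by norm_num))) hf0
  -- the ratio
  have hK0 : 1 ≤ K := by omega
  have hrat := rat2 (κ := {h // h ∈ H}) (m' := 250) hCg hCv hB hmH he1 (by linarith) hw0H (fun a ha => ⟨(hwH a ha).1, (hwH a ha).2.1⟩)
    (by rw [hcardκ]; omega) (by rw [hcardκ]; exact hK1) (by rw [hcardκ]; exact hK2)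
  obtain ⟨hI0, hIp, hIpp, hrat1, hrat2⟩ := hrat
  choose Yp hYp hMp' using hMp
  have hTr : (0 : ℝ) < To x := by exact_mod_cast hTo
  have hYp0 : ∀ h, 0 ≤ Yp h := fun h => le_trans (by positivity) (hYp h)
  have hHk : ∀ h : {h // h ∈ H}, ((h : ℕ) : ℝ) ≤ Λ * Real.log x := by
    intro h
    have h1 := hHR h.2
    unfold Rk at h1
    rw [mem_filter, mem_Icc] at h1
    exact (Nat.le_floor_iff (by
      have := Real.log_nonneg hx1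
      positivity)).1 h1.1.2
  have hbig : ∀ k : ℕ, (k : ℝ) ≤ Λ * Real.log x → ⌊x ^ (15 / 64 : ℝ)⌋₊ < Xo x + b + k := by
    intro k hk
    have h1 := hrg k hk
    have : ((⌊x ^ (15 / 64 : ℝ)⌋₊ : ℕ) : ℝ) < ((Xo x + b + k : ℕ) : ℝ) := lt_of_lt_of_le hRx h1
    exact_mod_cast this
  have hX2 : 1 + ((mP : ℝ) + 1) ^ 2 * μ ≤ 1 + ((mP : ℝ) + 1) ^ 2 * (2 * Λ * Cv / e1) := by
    have := mul_le_mul_of_nonneg_left hμ1 (by positivity : 0 ≤ ((mP : ℝ) + 1) ^ 2)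
    linarith
  have hX1 : 0 ≤ 1 + ((mP : ℝ) + 1) ^ 2 * μ := by positivity
  have hE2 : (8 * Real.exp (-(b0 : ℝ)) * (4 * (2 * Cg / e1) ^ 5) ^ J0 * (2 * Cg / e1) *
      ((2 * Cg / e1) ^ 2 * (∑ a ∈ Icc 1 mH, 1 / sc (1 / 1024) B mH a) ^ K) ^ 2) * ((2 * (N : ℝ) + 1) *
      (1 + ((mP : ℝ) + 1) ^ 2 * μ) ^ (2 * N + 1)) ≤ 1 / 200 := by
    refine le_trans ?_ hη2
    have h1 : (1 + ((mP : ℝ) + 1) ^ 2 * μ) ^ (2 * N + 1) ≤ (1 + ((mP : ℝ) + 1) ^ 2 * (2 * Λ * Cv / e1)) ^ (2 * N + 1) :=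
      pow_le_pow_left₀ hX1 hX2 _
    have h2 : 0 ≤ (8 * Real.exp (-(b0 : ℝ)) * (4 * (2 * Cg / e1) ^ 5) ^ J0 * (2 * Cg / e1) *
      ((2 * Cg / e1) ^ 2 * (∑ a ∈ Icc 1 mH, 1 / sc (1 / 1024) B mH a) ^ K) ^ 2) := by positivity
    exact mul_le_mul_of_nonneg_left (mul_le_mul_of_nonneg_left h1 (by positivity)) h2
  have hVx0 : 0 ≤ Vo x := hVo.le
  have hpairs : ∀ h0 h1 : {h // h ∈ H}, h0 ≠ h1 →
      (Ipp mH (sc (1 / 1024) B mH) (1 / 512) (fun a => 1 / sc (1 / 1024) B mH a) (wA (Zs x (1 / 1024) B mH) Q) h0 h1 *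
        (Yp h0 * VV (yy x) ⌊x ^ e1⌋₊ 1 ^ (Fintype.card {h // h ∈ H} - 1) / GG Q ⌊x ^ (15 / 64 : ℝ)⌋₊)) *
        (I0 {h // h ∈ H} mH (sc (1 / 1024) B mH) (1 / 512) (fun a => 1 / sc (1 / 1024) B mH a) (wA (Zs x (1 / 1024) B mH) Q) *
          ((To x : ℝ) * VV (yy x) ⌊x ^ e1⌋₊ 1 ^ Fintype.card {h // h ∈ H})) ≤
      9 / 2 * ((Ip mH (sc (1 / 1024) B mH) (1 / 512) (fun a => 1 / sc (1 / 1024) B mH a) (wA (Zs x (1 / 1024) B mH) Q) h0 *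
          (Yp h0 * VV (yy x) ⌊x ^ e1⌋₊ 1 ^ (Fintype.card {h // h ∈ H} - 1))) *
        (Ip mH (sc (1 / 1024) B mH) (1 / 512) (fun a => 1 / sc (1 / 1024) B mH a) (wA (Zs x (1 / 1024) B mH) Q) h1 *
          (Yp h1 * VV (yy x) ⌊x ^ e1⌋₊ 1 ^ (Fintype.card {h // h ∈ H} - 1)))) := by
    intro h0 h1 h01
    have hI00 := hI0
    have hIp0 := hIp h0
    have hIp1 := hIp h1
    have hIpp1 := hIpp h0 h1 h01
    exact CL5_pair (by rw [hcardκ]; exact hK0) (by linarith) (by linarith) (by linarith) (by linarith) (hYp0 h0) hTr.le hv0 hGG2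
      (hrat1 h0 h1 h01) hgl (hYp h1)
  have hbins : ∀ j : Fin 5, 100 * (I0 {h // h ∈ H} mH (sc (1 / 1024) B mH) (1 / 512) (fun a => 1 / sc (1 / 1024) B mH a)
        (wA (Zs x (1 / 1024) B mH) Q) * ((To x : ℝ) * VV (yy x) ⌊x ^ e1⌋₊ 1 ^ Fintype.card {h // h ∈ H})) ≤
      ∑ h ∈ univ.filter (fun h => bin h = j),
        Ip mH (sc (1 / 1024) B mH) (1 / 512) (fun a => 1 / sc (1 / 1024) B mH a) (wA (Zs x (1 / 1024) B mH) Q) h *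
          (Yp h * VV (yy x) ⌊x ^ e1⌋₊ 1 ^ (Fintype.card {h // h ∈ H} - 1)) := by
    intro j
    have hK'r : (0 : ℝ) < K' := by exact_mod_cast hK'
    have hterm : ∀ h : {h // h ∈ H}, 100 * (I0 {h // h ∈ H} mH (sc (1 / 1024) B mH) (1 / 512) (fun a => 1 / sc (1 / 1024) B mH a)
        (wA (Zs x (1 / 1024) B mH) Q) * ((To x : ℝ) * VV (yy x) ⌊x ^ e1⌋₊ 1 ^ Fintype.card {h // h ∈ H})) / K' ≤
        Ip mH (sc (1 / 1024) B mH) (1 / 512) (fun a => 1 / sc (1 / 1024) B mH a) (wA (Zs x (1 / 1024) B mH) Q) h *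
          (Yp h * VV (yy x) ⌊x ^ e1⌋₊ 1 ^ (Fintype.card {h // h ∈ H} - 1)) := by
      intro h
      have hIph := hIp h
      have h2 := hrat2 h
      rw [hcardκ] at h2 ⊢
      rw [div_le_iff₀ hK'r]
      have := CL5_term hKK hK' (by linarith) (by linarith) hTr.le hv0 hVx0 h2 hv2 (hYp h)
      linarith
    have h7 := Finset.sum_le_sum (fun h0 (_ : h0 ∈ (univ : Finset {h // h ∈ H}).filter (fun h => bin h = j)) => hterm h0)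
    rw [Finset.sum_const, hbin j, nsmul_eq_mul] at h7
    refine le_trans (le_of_eq ?_) h7
    field_simp
  have hmain := coC (κ := {h // h ∈ H}) (ι := {k // k ∈ Rk x Λ b \ H}) (w := yy x) (W := WW (yy x)) (J := J0) (T := To x)
    (y0 := ⌊x ^ (1 / 1024 : ℝ)⌋₊) (vm := 1 / 1024) (Wm := 2 * Cg / e1) (Yp := Yp)
    (cH := fun h => Xo x + b + h) (c := fun k => Xo x + b + k) hSd hSd2 hN hΓ1 hwm hv0 hTo
    (by rw [hcardκ]; exact hJ) hMv hMp' (fun h => ⟨lt_of_le_of_lt (hzR.trans hRR) (hbig h (hHk h)),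
      fun a _ => lt_of_le_of_lt ((CL5_Zs_le hB hx1 mH a).trans hRR) (hbig h (hHk h)), hbig h (hHk h)⟩)
    hI0 hIp hIpp (CL5_sc_nonneg hB mP) (by unfold sc; simp) (fun a _ => CL5_sc_le hB mP a) (by norm_num) (by norm_num) hf1 le_rfl hzR
    (fun a _ => CL5_Zs_le hB hx1 mP a) hpairs bin hbins (by rw [hcardκ, ← hμ]; exact hE2) (by
      rw [← hμ]
      exact hfB.trans hPar)
  obtain ⟨t, ht, h2, h, h', h3, h4, h5⟩ := hmain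
  have e : ∀ k : ℕ, WW (yy x) * t + (Xo x + b + k) = Xo x + b + WW (yy x) * t + k := fun k => by ring
  refine ⟨t, ht, fun k hk1 hk2 hk3 => ?_, h, h', h3, by rw [← e]; exact h4, by rw [← e]; exact h5⟩
  refine CL5_np (y0 := ⌊x ^ (1 / 1024 : ℝ)⌋₊) hwx ?_ ?_ h2 hk1 hk2 hk3
  · refine lt_of_le_of_lt ?_ hRx
    exact_mod_cast hRR
  · have := hrg 0 (by
      have := Real.log_nonneg hx1
      push_cast
      positivity)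
    simpa using this

theorem clC : ∃ K' : ℕ, 1 ≤ K' ∧ ∀ Λ : ℝ, 1 ≤ Λ → ∃ x0 : ℝ, ∀ x : ℝ, x0 ≤ x → ∀ b : ℕ, b < WW (yy x) → ∀ H : Fin 5 → Finset ℕ,
      (∀ j, (H j).card = K') → (∀ i j, i ≠ j → Disjoint (H i) (H j)) →
      (∀ j, ∀ h ∈ H j, 1 ≤ h ∧ (h : ℝ) ≤ Λ * Real.log x ∧ Nat.Coprime (Xo x + b + h) (WW (yy x))) →
      ∃ t < To x, (∀ k : ℕ, 1 ≤ k → (k : ℝ) ≤ Λ * Real.log x → (∀ j, k ∉ H j) → ¬ (Xo x + b + WW (yy x) * t + k).Prime) ∧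
        ∃ i j, i ≠ j ∧ ∃ h ∈ H i, ∃ h' ∈ H j, (Xo x + b + WW (yy x) * t + h).Prime ∧ (Xo x + b + WW (yy x) * t + h').Prime := by
  classical
  obtain ⟨Cg, hCg, hw1, hw2⟩ := wsb2
  obtain ⟨Cv, hCv, hmub⟩ := mub
  obtain ⟨B, mH, K', hB2, hB8, hmH, hK', hK1, hK2⟩ := parK2 Cg Cv hCg hCv 250
  refine ⟨K', hK', fun Λ hΛ => ?_⟩
  obtain ⟨K, hKK⟩ : ∃ K : ℕ, K = 5 * K' := ⟨_, rfl⟩
  rw [← hKK] at hK1 hK2
  obtain ⟨mP, N, hmP, hN, hPar⟩ := parP2 Cg Cv Λ B hB2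
  obtain ⟨C0, hC0⟩ := mvX2 (K + 4 * N + 2)
  have hCg0 : 0 < Cg := by linarith
  have hCv0 : 0 < Cv := by linarith
  have hsH := CL5_sc_pos hB2 (m := mH) (a := 1) le_rfl
  have hsP := CL5_sc_pos hB2 (m := mP) (a := 1) le_rfl
  have hsH' := CL5_sc_le hB2 mH 1
  have hsP' := CL5_sc_le hB2 mP 1
  have he0 : 0 < min (sc (1 / 1024) B mH 1 / (4 * Cg)) (sc (1 / 1024) B mP 1 / (4 * Cg)) :=
    lt_min (by positivity) (by positivity)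
  have hS1 : 0 < ∑ a ∈ Icc 1 mH, 1 / sc (1 / 1024) B mH a := by
    refine Finset.sum_pos (fun a ha => ?_) ⟨1, mem_Icc.2 ⟨le_rfl, hmH⟩⟩
    have := CL5_sc_pos hB2 (m := mH) (mem_Icc.1 ha).1
    positivity
  obtain ⟨e1, b0, he1, he1', hb0, hlev, -, hη2⟩ := parE2 Cg Cv Λ (∑ a ∈ Icc 1 mH, 1 / sc (1 / 1024) B mH a)
    (min (sc (1 / 1024) B mH 1 / (4 * Cg)) (sc (1 / 1024) B mP 1 / (4 * Cg))) hCg hCv hΛ hS1.le he0 K N mP (K + 4 * N + 2) C0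
  have heH : 4 * Cg * e1 ≤ sc (1 / 1024) B mH 1 := by
    have := he1'.trans (min_le_left _ _)
    rw [le_div_iff₀ (by positivity)] at this
    linarith
  have heP : 4 * Cg * e1 ≤ sc (1 / 1024) B mP 1 := by
    have := he1'.trans (min_le_right _ _)
    rw [le_div_iff₀ (by positivity)] at this
    linarith
  have he64 : e1 ≤ 1 / 1024 := by
    have : 1 * e1 ≤ Cg * e1 := mul_le_mul_of_nonneg_right hCg he1.le
    linarith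
  have hΓ1 : 1 ≤ 2 * Cg / e1 := by
    rw [le_div_iff₀ he1]
    linarith
  obtain ⟨M, hM⟩ : ∃ M : ℕ, 1 + e1 ≤ e1 * M := by
    obtain ⟨M, hM⟩ := exists_nat_ge ((1 + e1) / e1)
    refine ⟨M, ?_⟩
    rw [div_le_iff₀ he1] at hM
    linarith
  obtain ⟨x1, hx1⟩ := hC0 b0 hb0 (2 * M) e1 (2 * Cg / e1) Λ he1 (by linarith) hΓ1 hΛ hlev
  obtain ⟨x2, hx2⟩ := hw1 (1 / 1024) B e1 mH (by norm_num) (by norm_num) hB2 hB8 hmH he1 heH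
  obtain ⟨x3, hx3⟩ := hw1 (1 / 1024) B e1 mP (by norm_num) (by norm_num) hB2 hB8 hmP he1 heP
  obtain ⟨x4, hx4⟩ := hw2 (1 / 1024) e1 he1 he64 (by norm_num)
  obtain ⟨x8, hx8⟩ := hw2 (15 / 64) e1 he1 (by linarith) (by norm_num)
  obtain ⟨x9, hx9⟩ := gl e1 he1 (by linarith)
  obtain ⟨x5, hx5⟩ := hmub Λ e1 hΛ he1 (by linarith)
  obtain ⟨x6, hx6⟩ := rgX Λ hΛ
  obtain ⟨x7, hx7⟩ := CL5_ev he1 he64 hM
  refine ⟨max x1 (max x2 (max x3 (max x4 (max x5 (max x6 (max x7 (max x8 x9))))))), fun x hx b hb H hHc hHd hH => ?_⟩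
  simp only [max_le_iff] at hx
  obtain ⟨y1, y2, y3, y4, y5, y6, y7, y8, y9⟩ := hx
  obtain ⟨g1, g2, g3, g4, g5, g6, g7, g8⟩ := hx7 x y7
  obtain ⟨hTo, hWL, hrg⟩ := hx6 x y6
  obtain ⟨hVo, hv1, hv2, hmu⟩ := hx5 x y5
  obtain ⟨hG1, hG2⟩ := hx4 x y4
  obtain ⟨hG3, hG4⟩ := hx8 x y8
  have hlog : 0 ≤ Λ * Real.log x := by
    have := Real.log_nonneg g1
    positivity
  obtain ⟨U, hU⟩ : ∃ U : Finset ℕ, U = univ.biUnion H := ⟨_, rfl⟩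
  have hmemU : ∀ k, k ∈ U ↔ ∃ j, k ∈ H j := by
    intro k
    rw [hU, mem_biUnion]
    simp
  have hUR : U ⊆ Rk x Λ b := by
    intro h hh
    obtain ⟨j, hj⟩ := (hmemU h).1 hh
    obtain ⟨h1, h2, h3⟩ := hH j h hj
    unfold Rk
    rw [mem_filter, mem_Icc]
    exact ⟨⟨h1, (Nat.le_floor_iff hlog).2 h2⟩, h3⟩
  have hUK : U.card = K := by
    rw [hU, card_biUnion (fun i _ j _ hij => hHd i j hij), Finset.sum_congr rfl (fun j _ => hHc j)]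
    simp [hKK]
  have hex : ∀ h : {h // h ∈ U}, ∃ j, (h : ℕ) ∈ H j := fun h => (hmemU h).1 h.2
  choose bin hbinm using hex
  have hbu : ∀ (h : {h // h ∈ U}) (j : Fin 5), (h : ℕ) ∈ H j → bin h = j := by
    intro h j hj
    by_contra hne
    exact (Finset.disjoint_left.1 (hHd _ _ hne)) (hbinm h) hj
  have hbin : ∀ j : Fin 5, (univ.filter (fun h => bin h = j)).card = K' := by
    intro j
    have h1 : (univ.filter (fun h => bin h = j)).image (fun h : {h // h ∈ U} => (h : ℕ)) = H j := by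
      ext k
      rw [mem_image]
      constructor
      · rintro ⟨h, hh, rfl⟩
        rw [mem_filter] at hh
        rw [← hh.2]
        exact hbinm h
      · intro hk
        refine ⟨⟨k, (hmemU k).2 ⟨j, hk⟩⟩, ?_, rfl⟩
        rw [mem_filter]
        exact ⟨mem_univ _, hbu _ j hk⟩
    rw [← hHc j, ← h1, card_image_of_injective _ Subtype.val_injective]
  obtain ⟨hMv, hMp⟩ := hx1 x y1 b hb U hUR
  obtain ⟨t, ht, ht1, h, h', hne, hp, hp'⟩ := CL5_low (K := K) (K' := K') (J0 := K + 4 * N + 2) hCg hCv hB2 hΛ hmH hmP hN hK' hKK le_rfl hK1 hK2 hPar he1 heH heP hη2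
      g1 g2 g3 g4 g5 g6 g7 g8 hTo (fun k hk => (hrg b hb k hk).1) (hx2 x y2) (hx3 x y3) hG1 hG2 hG3 hG4 (hx9 x y9) hVo hv1 hv2 (hmu b) hUK hUR
      bin hbin hMv hMp
  refine ⟨t, ht, fun k hk1 hk2 hk3 => ht1 k hk1 hk2 (fun hk => ?_), bin h, bin h', hne, h, hbinm h, h', hbinm h', hp, hp'⟩
  obtain ⟨j, hj⟩ := (hmemU k).1 hk
  exact hk3 j hj

end H86FP
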