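import Pool.Agent.H73.PC.DsA
import Pool.Agent.H73.PC.DsB

/-!
# DS2: distribution up to `x^(125/256)`

* `dsB2`: the proof of `dsB` (`Pool/Agent/H73/PC/DsB.lean`) with `125/256` in place of `3/8` and `BVL.bv_pi` with `ε = 1/128` (`1/2 - 1/128 = 126/256`): `W Dm ≤ log x * x^(125/256) ≤ x^(126/256)/2 ≤ N^(126/256)` for large `x` (`log x ≤ x^(1/256)/2`). `dsb_gen`, `dsb_li`,
`dsb_one`, `WW_pr` can be cited.
* `erA2`: the proof of `erA` (`Pool/Agent/H73/PC/DsA.lean`) with `125/256` in place of `3/8`: `DsA_ErS` gives `ErS ≤ C' Dm^(9/8) ≤ C' x^(9/16) (≥ (125/256)(9/8))`, `To x ≥ x/(8 W) ≥ x^(3/4)` for large `x`.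
-/

set_option autoImplicit false

open Finset EG H69PG H73PC Pool.Agent.H17

namespace H86FP

theorem DS2_ev (A : ℕ) (X : ℝ) : ∃ x0 : ℝ, ∀ x : ℝ, x0 ≤ x → 2 ^ (A + 7) ≤ Real.log x ∧ Real.log x ≤ x ^ (1 / 256 : ℝ) / 2 ∧
    Real.log x ≤ x / 8 ∧ 24 ≤ x ∧ X ≤ x := by
  have h1 : ∀ᶠ x : ℝ in Filter.atTop, (2 : ℝ) ^ (A + 7) ≤ Real.log x :=
    Real.tendsto_log_atTop.eventually_ge_atTop _
  have h2 : ∀ᶠ x : ℝ in Filter.atTop, ‖Real.log x‖ ≤ 1 / 2 * ‖x ^ (1 / 256 : ℝ)‖ :=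
    (isLittleO_log_rpow_atTop (by norm_num : (0 : ℝ) < 1 / 256)).bound (by norm_num)
  have h3 : ∀ᶠ x : ℝ in Filter.atTop, ‖Real.log x‖ ≤ 1 / 8 * ‖x ^ (1 : ℝ)‖ :=
    (isLittleO_log_rpow_atTop (by norm_num : (0 : ℝ) < 1)).bound (by norm_num)
  obtain ⟨x0, hx0⟩ := Filter.eventually_atTop.mp
    (h1.and (h2.and (h3.and ((Filter.eventually_ge_atTop (24 : ℝ)).and (Filter.eventually_ge_atTop X)))))
  refine ⟨x0, fun x hx => ?_⟩
  obtain ⟨g1, g2, g3, g4, g5⟩ := hx0 x hx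
  have hx0 : (0 : ℝ) ≤ x := by linarith
  rw [Real.norm_of_nonneg (Real.rpow_nonneg hx0 _)] at g2 g3
  rw [Real.rpow_one] at g3
  refine ⟨g1, ?_, ?_, g4, g5⟩
  · have := Real.le_norm_self (Real.log x)
    linarith
  · have := Real.le_norm_self (Real.log x)
    linarith

open Classical in
theorem dsB2 (C : ℝ) (hC : 1 ≤ C) (A : ℕ) : ∃ x0 : ℝ, ∀ x : ℝ, x0 ≤ x → ∀ k : ℕ, x / 3 ≤ (k : ℝ) → (k : ℝ) ≤ 2 * x / 3 →
    Nat.Coprime k (WW (yy x)) → ∃ (Y : ℝ) (E : ℕ → ℝ),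
    Dst (yy x) ⌊x ^ (125 / 256 : ℝ)⌋₊ (primorial (yy x)) (some k)
      ((range (To x)).filter (fun t => (primorial (yy x) * t + k).Prime)) Y E ∧
    (To x : ℝ) * Vo x ≤ Y ∧ ErS ⌊x ^ (125 / 256 : ℝ)⌋₊ C E ≤ Y / Real.log x ^ A := by
  obtain ⟨N0, hN0⟩ := BVL.bv_pi (ε := 1 / 128) (by norm_num) ((A + 3 : ℕ) : ℝ) C
  obtain ⟨x0, hx0⟩ := DS2_ev A ((N0 : ℝ) + 1)
  refine ⟨x0, fun x hx k hk1 hk2 hkW => ?_⟩
  obtain ⟨hA, hL16, hL8, hx24, hxN0⟩ := hx0 x hx
  set L := Real.log x with hLdef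
  have hL128 : (128 : ℝ) ≤ L := by
    refine le_trans ?_ hA
    have h1 : (2 : ℝ) ^ 7 ≤ 2 ^ (A + 7) := pow_le_pow_right₀ (by norm_num) (by omega)
    norm_num at h1 ⊢
    exact h1
  set W := Pool.Agent.H17.WW (yy x) with hWdef
  have hWprim : primorial (yy x) = W := rfl
  rw [hWprim]
  have hW0 : 0 < W := WW_pos (yy x)
  have hW1 : (1 : ℝ) ≤ (W : ℝ) := by exact_mod_cast hW0
  have hWs : (W : ℝ) ≤ Real.sqrt L := by
    have h4 := WW_yy_pow_le (x := x) (by linarith)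
    exact (le_self_pow₀ hW1 (by norm_num)).trans h4
  have hsq : Real.sqrt L ≤ L := by
    rw [Real.sqrt_le_left (by linarith)]
    nlinarith
  have hWL : (W : ℝ) ≤ L := hWs.trans hsq
  set N := ⌊x⌋₊ with hNdef
  have hNx : (N : ℝ) ≤ x := Nat.floor_le (by linarith)
  have hNx2 : x - 1 ≤ (N : ℝ) := by
    have := Nat.lt_floor_add_one x
    linarith
  have hNN0 : N0 ≤ N := by
    have h1 : (N0 : ℝ) ≤ N := by linarith
    exact_mod_cast h1
  obtain ⟨E, hE0, hE1, hE2⟩ := hN0 N hNN0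
  -- sizes
  have hx38 : x ^ (125 / 256 : ℝ) * L ≤ x ^ (63 / 128 : ℝ) / 2 := by
    have h1 : x ^ (63 / 128 : ℝ) = x ^ (125 / 256 : ℝ) * x ^ (1 / 256 : ℝ) := by
      rw [← Real.rpow_add (by linarith)]
      norm_num
    rw [h1, mul_div_assoc]
    exact mul_le_mul_of_nonneg_left hL16 (Real.rpow_nonneg (by linarith) _)
  have hx38p : 0 ≤ x ^ (125 / 256 : ℝ) := Real.rpow_nonneg (by linarith) _
  have hx716 : x ^ (63 / 128 : ℝ) ≤ x := by
    calc x ^ (63 / 128 : ℝ) ≤ x ^ (1 : ℝ) := Real.rpow_le_rpow_of_exponent_le (by linarith) (by norm_num)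
      _ = x := Real.rpow_one x
  set Dm := ⌊x ^ (125 / 256 : ℝ)⌋₊ with hDm
  have hDmx : (Dm : ℝ) ≤ x ^ (125 / 256 : ℝ) := Nat.floor_le hx38p
  have hDk : Dm < k := by
    have h1 : (Dm : ℝ) < k := by
      have h2 : x ^ (125 / 256 : ℝ) * 128 ≤ x ^ (125 / 256 : ℝ) * L := mul_le_mul_of_nonneg_left hL128 hx38p
      linarith
    exact_mod_cast h1
  have hk3 : 3 ≤ k := by
    have h1 : (3 : ℝ) ≤ k := by linarith
    exact_mod_cast h1
  have hNhalf : x / 2 ≤ (N : ℝ) := by linarith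
  have hQ : (W : ℝ) * Dm ≤ (N : ℝ) ^ (1 / 2 - 1 / 128 : ℝ) := by
    have h1 : (W : ℝ) * Dm ≤ x ^ (63 / 128 : ℝ) / 2 := by
      calc (W : ℝ) * Dm ≤ L * x ^ (125 / 256 : ℝ) := mul_le_mul hWL hDmx (Nat.cast_nonneg _) (by linarith)
        _ = x ^ (125 / 256 : ℝ) * L := mul_comm _ _
        _ ≤ _ := hx38
    have h2 : x ^ (63 / 128 : ℝ) / 2 ≤ (x / 2) ^ (63 / 128 : ℝ) := by
      rw [Real.div_rpow (by linarith) (by norm_num)]
      have h3 : (2 : ℝ) ^ (63 / 128 : ℝ) ≤ 2 := by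
        calc (2 : ℝ) ^ (63 / 128 : ℝ) ≤ (2 : ℝ) ^ (1 : ℝ) := Real.rpow_le_rpow_of_exponent_le (by norm_num) (by norm_num)
          _ = 2 := Real.rpow_one 2
      have h4 : (0 : ℝ) < 2 ^ (63 / 128 : ℝ) := Real.rpow_pos_of_pos (by norm_num) _
      have h5 : (0 : ℝ) ≤ x ^ (63 / 128 : ℝ) := Real.rpow_nonneg (by linarith) _
      exact div_le_div_of_nonneg_left h5 h4 h3
    have h6 : (x / 2) ^ (63 / 128 : ℝ) ≤ (N : ℝ) ^ (63 / 128 : ℝ) :=
      Real.rpow_le_rpow (by linarith) hNhalf (by norm_num)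
    have h7 : (1 / 2 - 1 / 128 : ℝ) = 63 / 128 := by norm_num
    rw [h7]
    linarith
  have hQn : W * Dm ≤ ⌊(N : ℝ) ^ (1 / 2 - 1 / 128 : ℝ)⌋₊ := by
    apply Nat.le_floor
    push_cast
    exact hQ
  have hT : (To x : ℝ) ≤ x / (4 * (W : ℝ)) := Nat.floor_le (by positivity)
  have hT2 : x / (4 * (W : ℝ)) < (To x : ℝ) + 1 := Nat.lt_floor_add_one _
  have hWT : (W : ℝ) * To x ≤ x / 4 := by
    calc (W : ℝ) * To x ≤ W * (x / (4 * (W : ℝ))) := mul_le_mul_of_nonneg_left hT (by linarith)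
      _ = x / 4 := by field_simp
  have hWT2 : x / 8 ≤ (W : ℝ) * To x := by
    have h1 : W * (x / (4 * (W : ℝ))) ≤ W * ((To x : ℝ) + 1) := mul_le_mul_of_nonneg_left hT2.le (by linarith)
    have h2 : W * (x / (4 * (W : ℝ))) = x / 4 := by field_simp
    rw [h2] at h1
    linarith
  have hkN : k + W * To x ≤ N + 1 := by
    have h1 : ((k + W * To x : ℕ) : ℝ) ≤ x := by
      push_cast
      linarith
    have h2 := Nat.le_floor h1
    omega
  have hD := dsb_gen (w := yy x) (Dm := Dm) (W := W) (k := k) (T := To x) (N := N)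
    (Q := ⌊(N : ℝ) ^ (1 / 2 - 1 / 128 : ℝ)⌋₊) (E := E) hW0 (WW_pr (yy x)) hk3 hDk hkW hkN hQn hE0
    (fun q hq1 hqQ a ha y hy hyN => hE1 q hq1 ((Nat.le_floor_iff (Real.rpow_nonneg (Nat.cast_nonneg _) _)).1 hqQ) a ha y hy hyN)
  set Y := (Pool.Agent.H17.ZB.Li ((k + W * To x - 1 : ℕ) : ℝ) - Pool.Agent.H17.ZB.Li ((k - 1 : ℕ) : ℝ)) / (Nat.totient W : ℝ)
    with hY
  have hφ : (0 : ℝ) < (Nat.totient W : ℝ) := by exact_mod_cast Nat.totient_pos.2 hW0
  have hφW : (Nat.totient W : ℝ) ≤ W := by exact_mod_cast Nat.totient_le W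
  have hL0 : 0 < L := by linarith
  have hYlow : (To x : ℝ) * Vo x ≤ Y := by
    have h1 := dsb_li (W := W) (k := k) (T := To x) (x := x) hk3 (by
      push_cast
      linarith)
    rw [hY, Vo, le_div_iff₀ hφ]
    refine le_trans (le_of_eq ?_) h1
    rw [← hWdef, ← hLdef]
    field_simp
  refine ⟨Y, fun d => 2 * E (W * d), hD, hYlow, ?_⟩
  -- the errors
  have hErS : ErS Dm C (fun d => 2 * E (W * d)) ≤ 2 * ((N : ℝ) / Real.log N ^ (A + 3)) := by
    have h1 : ∀ d ∈ (Icc 1 Dm).filter (fun d => Squarefree d), C ^ d.primeFactors.card * (2 * E (W * d)) ≤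
        2 * (|C| ^ (W * d).primeFactors.card * E (W * d)) := by
      intro d hd
      rw [mem_filter, mem_Icc] at hd
      have h2 : d.primeFactors.card ≤ (W * d).primeFactors.card :=
        card_le_card (Nat.primeFactors_mono (Dvd.intro_left _ rfl) (mul_ne_zero (by omega) (by omega)))
      have h3 : C ^ d.primeFactors.card ≤ |C| ^ (W * d).primeFactors.card := by
        rw [abs_of_nonneg (by linarith)]
        exact pow_le_pow_right₀ hC h2
      have h4 := mul_le_mul_of_nonneg_right h3 (hE0 (W * d))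
      nlinarith
    rw [ErS]
    refine (sum_le_sum h1).trans ?_
    rw [← mul_sum]
    refine mul_le_mul_of_nonneg_left ?_ (by norm_num)
    have h5 : ∑ d ∈ (Icc 1 Dm).filter (fun d => Squarefree d), |C| ^ (W * d).primeFactors.card * E (W * d) =
        ∑ q ∈ ((Icc 1 Dm).filter (fun d => Squarefree d)).image (fun d => W * d), |C| ^ q.primeFactors.card * E q := by
      rw [sum_image]
      intro a _ b _ hab
      exact Nat.eq_of_mul_eq_mul_left hW0 hab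
    rw [h5]
    have h6 : ((A + 3 : ℕ) : ℝ) = ((A : ℝ) + 3) := by push_cast; ring
    rw [Real.rpow_natCast] at hE2
    refine le_trans (sum_le_sum_of_subset_of_nonneg ?_ ?_) hE2
    · intro q hq
      rw [mem_image] at hq
      obtain ⟨d, hd, rfl⟩ := hq
      rw [mem_filter, mem_Icc] at hd
      rw [mem_Icc]
      exact ⟨Nat.mul_pos hW0 hd.1.1, (Nat.mul_le_mul_left W hd.1.2).trans hQn⟩
    · intro q _ _
      exact mul_nonneg (pow_nonneg (abs_nonneg _) _) (hE0 q)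
  refine hErS.trans ?_
  have hlogN : L / 2 ≤ Real.log N := by
    have h1 : Real.log (x / 2) ≤ Real.log N := Real.log_le_log (by linarith) hNhalf
    rw [Real.log_div (by linarith) (by norm_num)] at h1
    have h2 : Real.log 2 ≤ 1 := by
      have := Real.log_two_lt_d9
      linarith
    linarith
  have hlogN0 : 0 < Real.log N := by linarith
  have hY2 : x / (8 * L * L) ≤ Y := by
    refine le_trans ?_ hYlow
    rw [Vo, ← hWdef, ← hLdef]
    have h1 : (To x : ℝ) * ((W : ℝ) / ((Nat.totient W : ℝ) * L)) = (W * To x) / ((Nat.totient W : ℝ) * L) := by ring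
    rw [h1, div_le_div_iff₀ (by positivity) (by positivity)]
    have h2 : (Nat.totient W : ℝ) ≤ L := hφW.trans hWL
    calc x * ((Nat.totient W : ℝ) * L) ≤ x * (L * L) := by
          refine mul_le_mul_of_nonneg_left (mul_le_mul_of_nonneg_right h2 hL0.le) (by linarith)
      _ = x / 8 * (8 * L * L) := by ring
      _ ≤ W * To x * (8 * L * L) := mul_le_mul_of_nonneg_right hWT2 (by positivity)
  have hY3 : x / (8 * L * L) / L ^ A ≤ Y / L ^ A := by gcongr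
  refine le_trans ?_ hY3
  have h8 : (N : ℝ) / Real.log N ^ (A + 3) ≤ x / (L / 2) ^ (A + 3) := by
    gcongr
  have h9 : 2 * (x / (L / 2) ^ (A + 3)) ≤ x / (8 * L * L) / L ^ A := by
    rw [div_pow, div_div_eq_mul_div, div_div, ← mul_div_assoc, div_le_div_iff₀ (by positivity) (by positivity)]
    have h10 : x * L ^ (A + 3) = (x * L ^ (A + 2)) * L := by ring
    have h11 : 2 * (x * 2 ^ (A + 3)) * (8 * L * L * L ^ A) = (x * L ^ (A + 2)) * 2 ^ (A + 7) := by ring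
    rw [h10, h11]
    exact mul_le_mul_of_nonneg_left hA (by positivity)
  linarith

theorem erA2 (C : ℝ) (hC : 1 ≤ C) (A : ℕ) : ∃ x0 : ℝ, ∀ x : ℝ, x0 ≤ x → ∀ Dm : ℕ, (Dm : ℝ) ≤ x ^ (125 / 256 : ℝ) →
    ErS Dm C (fun _ => 1) ≤ (To x : ℝ) / Real.log x ^ A := by
  obtain ⟨Kc, hKc⟩ : ∃ Kc : ℝ, Kc = C ^ (⌈C ^ 8⌉₊) := ⟨_, rfl⟩
  have hKc0 : 0 ≤ Kc := by rw [hKc]; have : (0 : ℝ) ≤ C := by linarith
                           positivity
  have ev1 : ∀ᶠ x : ℝ in Filter.atTop, ‖Real.log x ^ ((A + 1 : ℕ) : ℝ)‖ ≤ (1 / (8 * (Kc + 1))) * ‖x ^ (923 / 2048 : ℝ)‖ :=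
    (isLittleO_log_rpow_rpow_atTop ((A + 1 : ℕ) : ℝ) (by norm_num : (0 : ℝ) < 923 / 2048)).bound (by positivity)
  have ev2 : ∀ᶠ x : ℝ in Filter.atTop, ‖Real.log x‖ ≤ (1 / 8) * ‖x‖ := by
    have := Real.isLittleO_log_id_atTop.bound (by norm_num : (0 : ℝ) < 1 / 8)
    simpa using this
  obtain ⟨x0, hx0⟩ := Filter.eventually_atTop.1 ((ev1.and ev2).and (Filter.eventually_ge_atTop (Real.exp 1)))
  refine ⟨x0, fun x hx Dm hDm => ?_⟩
  obtain ⟨⟨h1, h2⟩, h3⟩ := hx0 x hx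
  have hxpos : 0 < x := (Real.exp_pos 1).trans_le h3
  have hlog1 : 1 ≤ Real.log x := by
    rw [Real.le_log_iff_exp_le hxpos]
    exact h3
  have hlog0 : 0 < Real.log x := by linarith
  rw [Real.norm_of_nonneg (by positivity), Real.norm_of_nonneg (by positivity), Real.rpow_natCast] at h1
  rw [Real.norm_of_nonneg hlog0.le, Real.norm_of_nonneg hxpos.le] at h2
  -- the bound for `W`
  have hW34 := WW_yy_pow_le hlog1
  obtain ⟨W, hW⟩ : ∃ W : ℕ, W = WW (yy x) := ⟨_, rfl⟩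
  have hWpos : 1 ≤ W := by
    rw [hW]
    exact WW_pos (yy x)
  rw [← hW] at hW34
  have hWr : (1 : ℝ) ≤ W := by exact_mod_cast hWpos
  have hWlog : (W : ℝ) ≤ Real.log x := by
    calc (W : ℝ) = (W : ℝ) ^ 1 := (pow_one _).symm
      _ ≤ (W : ℝ) ^ 34 := pow_le_pow_right₀ hWr (by norm_num)
      _ ≤ Real.sqrt (Real.log x) := hW34
      _ ≤ Real.log x := by
        rw [Real.sqrt_le_left hlog0.le]
        nlinarith
  have hTo : x / (8 * Real.log x) ≤ (To x : ℝ) := by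
    unfold To
    rw [← hW]
    have e1 : x / (4 * (W : ℝ)) - 1 ≤ (⌊x / (4 * (W : ℝ))⌋₊ : ℝ) := by
      have := Nat.lt_floor_add_one (x / (4 * (W : ℝ)))
      linarith
    refine le_trans ?_ e1
    have e2 : x / (4 * Real.log x) ≤ x / (4 * (W : ℝ)) := by
      apply div_le_div_of_nonneg_left hxpos.le (by positivity)
      linarith
    have e3 : 1 ≤ x / (8 * Real.log x) := by
      rw [le_div_iff₀ (by positivity)]
      linarith
    have e4 : x / (4 * Real.log x) = x / (8 * Real.log x) + x / (8 * Real.log x) := by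
      field_simp
      norm_num
    linarith
  have hE := DsA_ErS hC Dm
  rw [← hKc] at hE
  have hD : (Dm : ℝ) ^ (9 / 8 : ℝ) ≤ x ^ (1125 / 2048 : ℝ) := by
    calc (Dm : ℝ) ^ (9 / 8 : ℝ) ≤ (x ^ (125 / 256 : ℝ)) ^ (9 / 8 : ℝ) :=
          Real.rpow_le_rpow (Nat.cast_nonneg _) hDm (by norm_num)
      _ = x ^ (1125 / 2048 : ℝ) := by
          rw [← Real.rpow_mul hxpos.le]
          norm_num
  rw [le_div_iff₀ (by positivity)]
  calc ErS Dm C (fun _ => 1) * Real.log x ^ A ≤ (Kc * x ^ (1125 / 2048 : ℝ)) * Real.log x ^ A := by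
        refine mul_le_mul_of_nonneg_right (hE.trans (mul_le_mul_of_nonneg_left hD hKc0)) (by positivity)
    _ ≤ x / (8 * Real.log x) := by
        rw [le_div_iff₀ (by positivity)]
        have e5 : x ^ (1125 / 2048 : ℝ) * x ^ (923 / 2048 : ℝ) = x := by
          rw [← Real.rpow_add hxpos]
          norm_num
        have e6 : Kc * x ^ (1125 / 2048 : ℝ) * Real.log x ^ A * (8 * Real.log x) =
            8 * Kc * x ^ (1125 / 2048 : ℝ) * Real.log x ^ (A + 1) := by ring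
        rw [e6]
        have e7 : 8 * Kc * x ^ (1125 / 2048 : ℝ) * Real.log x ^ (A + 1) ≤
            8 * Kc * x ^ (1125 / 2048 : ℝ) * (1 / (8 * (Kc + 1)) * x ^ (923 / 2048 : ℝ)) :=
          mul_le_mul_of_nonneg_left h1 (by positivity)
        refine e7.trans ?_
        have e8 : 8 * Kc * x ^ (1125 / 2048 : ℝ) * (1 / (8 * (Kc + 1)) * x ^ (923 / 2048 : ℝ)) =
            (Kc / (Kc + 1)) * (x ^ (1125 / 2048 : ℝ) * x ^ (923 / 2048 : ℝ)) := by
          field_simp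
        rw [e8, e5]
        have e9 : Kc / (Kc + 1) ≤ 1 := by
          rw [div_le_one (by positivity)]
          linarith
        nlinarith
    _ ≤ (To x : ℝ) := hTo

end H86FP
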