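import Pool.Agent.H86.LP.LA
import Pool.Agent.H91.CH.Mst

/-!
# PT5: from clusters in five bins to limit points

Let `d0 > 0` be a lower bound for all `b k - b i`, `i < k`, and `Λ = b 4 - b 0 + 2`. Let `0 < ε' ≤ min (d0/4) (1/2)`, `x` large, `L = log x`, `W = WW (yy x)` (`W ≤ sqrt L`: `H91CH.WW_le_sqrt`), class `b = 0`. `S_j = H91CH.Sab W (Xo x) ((b j - b 0 + 1) L) ((b j - b 0 + 1 + ε') L)`
(`Pool/Agent/H91/CH/Cop.lean`) has at least `K'` elements by `card_Sab_ge` (compare the use in `Mst.lean`), choose `H j ⊆ S_j` with `K'` elements; the `H j` are disjoint, all elements of `H j` are smaller than those of `H k` for `j < k` (`ε' < d0`), and `≤ Λ L`. `hC` gives `t`; `n = Xo x + W t`.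
Let `P` be the set of all `h` in the union of the `H j` with `n + h` prime; every prime `n + k`, `1 ≤ k ≤ Λ L`, has `k ∈ P`, and `P` meets at least two of the `H j`. Let `i` be minimal with `P ∩ H i ≠ ∅`, `h = max (P ∩ H i)`, `h' = min {g ∈ P : g > h}` (exists: another bin `j > i` is met); `h' ∈ H k` with `k > i`.
`n + h < n + h'` are consecutive primes (a prime `n + k0` in between has `k0 ∈ P`), so with `q = count Prime (n + h)`: `Nat.nth Prime q = n + h`, `Nat.nth Prime (q + 1) = n + h'`. `|h' - h - (b k - b i) L| ≤ ε' L` and `log(x/3) ≤ log (n + h) ≤ log x`, so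
`|(h' - h)/log (n + h) - (b k - b i)| < 3 ε' + (error tending to 0)`. Since `n + h ≥ x/3`, `q` is as large as we want. So: for all `ε > 0` and `N0` there are `q ≥ N0` and `i < k` with
`|ratio q - (b k - b i)| < ε`. If no `b k - b i` were in `LPs` there would be `ε_ik > 0` and `N_ik` (`Filter.not_frequently`, `eventually_atTop`) with `|ratio q - (b k - b i)| ≥ ε_ik` for `q ≥ N_ik`; take the minimum and the maximum over the finitely many pairs: contradiction.
-/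

set_option autoImplicit false

open Finset EG H69PG H73PC Pool.Agent.H17 Filter

namespace H86FP

theorem PT5_min {ι : Type*} [Finite ι] (f : ι → ℝ) (hf : ∀ i, 0 < f i) :
    ∃ e : ℝ, 0 < e ∧ ∀ i, e ≤ f i := by
  cases isEmpty_or_nonempty ι
  · exact ⟨1, one_pos, fun i => isEmptyElim i⟩
  · obtain ⟨i0, h0⟩ := Finite.exists_min f
    exact ⟨f i0, hf i0, h0⟩

theorem PT5_next (p q : ℕ) (hp : p.Prime) (hq : q.Prime) (hpq : p < q)
    (hno : ∀ r, p < r → r < q → ¬ r.Prime) :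
    Nat.nth Nat.Prime (Nat.count Nat.Prime p) = p ∧
      Nat.nth Nat.Prime (Nat.count Nat.Prime p + 1) = q := by
  refine ⟨Nat.nth_count hp, ?_⟩
  have h : Nat.count Nat.Prime q = Nat.count Nat.Prime p + 1 := by
    rw [Nat.count_eq_card_filter_range, Nat.count_eq_card_filter_range]
    have e : (range q).filter Nat.Prime = insert p ((range p).filter Nat.Prime) := by
      ext r
      simp only [mem_filter, mem_range, mem_insert]
      constructor
      · rintro ⟨h1, h2⟩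
        rcases lt_trichotomy r p with h | h | h
        · exact Or.inr ⟨h, h2⟩
        · exact Or.inl h
        · exact absurd h2 (hno r h h1)
      · rintro (h | ⟨h1, h2⟩)
        · subst h
          exact ⟨hpq, hp⟩
        · exact ⟨h1.trans hpq, h2⟩
    rw [e, card_insert_of_notMem (by simp)]
  rw [← h]
  exact Nat.nth_count hq

theorem PT5_pair (H : Fin 5 → Finset ℕ) (n : ℕ) (Q : ℝ)
    (hord : ∀ i j, i < j → ∀ h ∈ H i, ∀ h' ∈ H j, h < h')
    (hQ : ∀ j, ∀ h ∈ H j, 1 ≤ h ∧ (h : ℝ) ≤ Q)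
    (hout : ∀ k : ℕ, 1 ≤ k → (k : ℝ) ≤ Q → (∀ j, k ∉ H j) → ¬ (n + k).Prime)
    (hin : ∃ i j, i ≠ j ∧ ∃ h ∈ H i, ∃ h' ∈ H j, (n + h).Prime ∧ (n + h').Prime) :
    ∃ i k, i < k ∧ ∃ g ∈ H i, ∃ g' ∈ H k, (n + g).Prime ∧ (n + g').Prime ∧ g < g' ∧
      ∀ r, n + g < r → r < n + g' → ¬ r.Prime := by
  have hin' : ∃ i j, i < j ∧ ∃ h ∈ H i, ∃ h' ∈ H j, (n + h).Prime ∧ (n + h').Prime := by
    obtain ⟨i, j, hij, h, hh, h', hh', p1, p2⟩ := hin
    rcases lt_or_gt_of_ne hij with hl | hl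
    · exact ⟨i, j, hl, h, hh, h', hh', p1, p2⟩
    · exact ⟨j, i, hl, h', hh', h, hh, p2, p1⟩
  obtain ⟨i, j, hij, h, hh, h', hh', p1, p2⟩ := hin'
  have hne : ((H i).filter (fun g => (n + g).Prime)).Nonempty := ⟨h, mem_filter.2 ⟨hh, p1⟩⟩
  obtain ⟨g, hg⟩ : ∃ g, g = ((H i).filter (fun g => (n + g).Prime)).max' hne := ⟨_, rfl⟩
  have hgmem := Finset.max'_mem _ hne
  rw [← hg, mem_filter] at hgmem
  have hgmax : ∀ a ∈ H i, (n + a).Prime → a ≤ g := fun a ha hp => by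
    rw [hg]
    exact Finset.le_max' _ _ (mem_filter.2 ⟨ha, hp⟩)
  have hPne : ((univ.biUnion H).filter (fun a => (n + a).Prime ∧ g < a)).Nonempty := ⟨h', by
    rw [mem_filter, mem_biUnion]
    exact ⟨⟨j, mem_univ _, hh'⟩, p2, hord i j hij g hgmem.1 h' hh'⟩⟩
  obtain ⟨g', hg'⟩ : ∃ g', g' = ((univ.biUnion H).filter (fun a => (n + a).Prime ∧ g < a)).min' hPne :=
    ⟨_, rfl⟩
  have hg'mem := Finset.min'_mem _ hPne
  rw [← hg', mem_filter, mem_biUnion] at hg'mem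
  obtain ⟨⟨k, _, hk⟩, hp', hgg'⟩ := hg'mem
  have hmin : ∀ a ∈ (univ.biUnion H).filter (fun a => (n + a).Prime ∧ g < a), g' ≤ a := fun a ha => by
    rw [hg']
    exact Finset.min'_le _ _ ha
  have hik : i < k := by
    rcases lt_trichotomy i k with h1 | h1 | h1
    · exact h1
    · subst h1
      have := hgmax g' hk hp'
      omega
    · have := hord k i h1 g' hk g hgmem.1
      omega
  refine ⟨i, k, hik, g, hgmem.1, g', hk, hgmem.2, hp', hgg', ?_⟩
  intro r hr1 hr2 hr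
  obtain ⟨a, rfl⟩ : ∃ a, r = n + a := ⟨r - n, by omega⟩
  have ha1 : g < a := by omega
  have ha2 : a < g' := by omega
  have hmem : ∃ j, a ∈ H j := by
    by_contra hc
    push Not at hc
    refine hout a ?_ ?_ hc hr
    · have := (hQ i g hgmem.1).1
      omega
    · have h1 := (hQ k g' hk).2
      have : (a : ℝ) ≤ g' := by exact_mod_cast ha2.le
      linarith
  obtain ⟨j', hj'⟩ := hmem
  have := hmin a (by
    rw [mem_filter, mem_biUnion]
    exact ⟨⟨j', mem_univ _, hj'⟩, hr, ha1⟩)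
  omega

theorem PT5_log3 : Real.log 3 < 2 := by
  rw [Real.log_lt_iff_lt_exp (by norm_num)]
  have h := Real.exp_one_gt_d9
  have : Real.exp 2 = Real.exp 1 * Real.exp 1 := by
    rw [← Real.exp_add]
    norm_num
  rw [this]
  nlinarith

theorem PT5_ratio (L l g g' Δ D e e' : ℝ) (he' : 0 < e') (hee : 8 * e' ≤ e) (hL : 4 < L) (hl1 : L - 2 ≤ l)
    (hl2 : l ≤ L) (hΔ0 : 0 ≤ Δ) (hΔ : Δ ≤ D) (hD : 16 * (D + 1) / e ≤ L)
    (h1 : (Δ - e') * L ≤ g' - g) (h2 : g' - g ≤ (Δ + e') * L) : |(g' - g) / l - Δ| < e := by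
  have hl : 0 < l := by linarith
  have hlL : L ≤ 2 * l := by linarith
  have he : 0 < e := by linarith
  rw [div_le_iff₀ he] at hD
  rw [abs_lt]
  constructor
  · rw [lt_sub_iff_add_lt, lt_div_iff₀ hl]
    nlinarith [mul_nonneg hΔ0 (sub_nonneg.2 hl2), mul_pos he' hl, mul_pos he hl]
  · rw [sub_lt_iff_lt_add, div_lt_iff₀ hl]
    have h3 : Δ * (L - l) ≤ D * 2 := by
      have h4 : L - l ≤ 2 := by linarith
      calc Δ * (L - l) ≤ D * (L - l) := mul_le_mul_of_nonneg_right hΔ (by linarith)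
        _ ≤ D * 2 := mul_le_mul_of_nonneg_left h4 (hΔ0.trans hΔ)
    nlinarith [mul_pos he' hl, mul_pos he hl]

theorem five_points_of (K' : ℕ) (hK' : 1 ≤ K')
    (hC : ∀ Λ : ℝ, 1 ≤ Λ → ∃ x0 : ℝ, ∀ x : ℝ, x0 ≤ x → ∀ b : ℕ, b < WW (yy x) → ∀ H : Fin 5 → Finset ℕ,
      (∀ j, (H j).card = K') → (∀ i j, i ≠ j → Disjoint (H i) (H j)) →
      (∀ j, ∀ h ∈ H j, 1 ≤ h ∧ (h : ℝ) ≤ Λ * Real.log x ∧ Nat.Coprime (Xo x + b + h) (WW (yy x))) →
      ∃ t < To x, (∀ k : ℕ, 1 ≤ k → (k : ℝ) ≤ Λ * Real.log x → (∀ j, k ∉ H j) → ¬ (Xo x + b + WW (yy x) * t + k).Prime) ∧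
        ∃ i j, i ≠ j ∧ ∃ h ∈ H i, ∃ h' ∈ H j, (Xo x + b + WW (yy x) * t + h).Prime ∧ (Xo x + b + WW (yy x) * t + h').Prime)
    (b : Fin 5 → ℝ) (hb : StrictMono b) : ∃ i k, i < k ∧ b k - b i ∈ H86LP.LPs := by
  by_contra hcon
  push Not at hcon
  -- uniform epsilon
  have hex : ∀ p : Fin 5 × Fin 5, ∃ e : ℝ, 0 < e ∧ (p.1 < p.2 → ∀ᶠ n : ℕ in atTop,
      e ≤ |((Nat.nth Nat.Prime (n + 1) : ℝ) - Nat.nth Nat.Prime n) / Real.log (Nat.nth Nat.Prime n) -
        (b p.2 - b p.1)|) := by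
    intro p
    by_cases hp : p.1 < p.2
    · have h1 := hcon p.1 p.2 hp
      unfold H86LP.LPs at h1
      rw [Set.mem_ofPred_eq] at h1
      push Not at h1
      obtain ⟨e, he, h2⟩ := h1
      refine ⟨e, he, fun _ => ?_⟩
      simpa only [Filter.not_frequently, not_lt] using h2
    · exact ⟨1, one_pos, fun h => absurd h hp⟩
  choose ef hef hef2 using hex
  obtain ⟨e, he, hemin⟩ := PT5_min ef hef
  obtain ⟨d0, hd0, hd0min⟩ := PT5_min (fun p : Fin 5 × Fin 5 => if p.1 < p.2 then b p.2 - b p.1 else 1) (by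
    intro p
    split_ifs with h
    · exact sub_pos.2 (hb h)
    · exact one_pos)
  have hd : ∀ i k, i < k → d0 ≤ b k - b i := by
    intro i k hik
    have := hd0min (i, k)
    simpa [hik] using this
  have hevall : ∀ᶠ n : ℕ in atTop, ∀ p : Fin 5 × Fin 5, p.1 < p.2 →
      e ≤ |((Nat.nth Nat.Prime (n + 1) : ℝ) - Nat.nth Nat.Prime n) / Real.log (Nat.nth Nat.Prime n) -
        (b p.2 - b p.1)| := by
    rw [Filter.eventually_all]
    intro p
    by_cases hp : p.1 < p.2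
    · filter_upwards [hef2 p hp] with n hn _
      exact (hemin p).trans hn
    · exact Filter.Eventually.of_forall fun n h => absurd h hp
  obtain ⟨N0, hN0⟩ := eventually_atTop.1 hevall
  obtain ⟨e', he'⟩ : ∃ e' : ℝ, e' = min (e / 8) (min (d0 / 4) (1 / 2)) := ⟨_, rfl⟩
  have he'0 : 0 < e' := by
    rw [he']
    positivity
  have he'1 : 8 * e' ≤ e := by
    have : e' ≤ e / 8 := by rw [he']; exact min_le_left _ _
    linarith
  have he'2 : 4 * e' ≤ d0 := by
    have : e' ≤ d0 / 4 := by rw [he']; exact (min_le_right _ _).trans (min_le_left _ _)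
    linarith
  have he'3 : e' ≤ 1 / 2 := by rw [he']; exact (min_le_right _ _).trans (min_le_right _ _)
  obtain ⟨La, hLa⟩ : ∃ La : ℝ, La = b 4 - b 0 + 2 := ⟨_, rfl⟩
  have hb4 : ∀ j, b j ≤ b 4 := fun j => hb.monotone (by
    have h5 := j.2
    refine Fin.le_def.2 ?_
    show (j : ℕ) ≤ 4
    omega)
  have hb0 : ∀ j, b 0 ≤ b j := fun j => hb.monotone (Fin.zero_le j)
  have hLa1 : 1 ≤ La := by
    have := hb4 0
    linarith
  obtain ⟨x1, hx1⟩ := hC La hLa1
  -- choose x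
  have hev : ∀ᶠ x : ℝ in atTop, x1 ≤ x ∧ 4 < Real.log x ∧ (4 / e') ^ 2 ≤ Real.log x ∧
      (2 * K' / e') ^ 2 ≤ Real.log x ∧ 16 * (b 4 - b 0 + 1) / e ≤ Real.log x ∧
      Real.log x ≤ 1 / (4 * La) * x ∧ 6 ≤ x ∧ 3 * (Nat.nth Nat.Prime N0 : ℝ) ≤ x := by
    have hlg := eventually_log_pow_le 1 (δ := 1 / (4 * La)) (by positivity)
    filter_upwards [eventually_ge_atTop x1, Real.tendsto_log_atTop.eventually_gt_atTop 4,
      Real.tendsto_log_atTop.eventually_ge_atTop ((4 / e') ^ 2),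
      Real.tendsto_log_atTop.eventually_ge_atTop ((2 * K' / e') ^ 2),
      Real.tendsto_log_atTop.eventually_ge_atTop (16 * (b 4 - b 0 + 1) / e), hlg,
      eventually_ge_atTop 6, eventually_ge_atTop (3 * (Nat.nth Nat.Prime N0 : ℝ))]
      with x h1 h2 h3 h4 h5 h6 h7 h8
    rw [pow_one] at h6
    exact ⟨h1, h2, h3, h4, h5, h6, h7, h8⟩
  obtain ⟨x, hxx1, hL4, hLe1, hLe2, hLe3, hLx, hx6, hxN⟩ := hev.exists
  obtain ⟨L, hLdef⟩ : ∃ L : ℝ, L = Real.log x := ⟨_, rfl⟩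
  obtain ⟨W, hWdef⟩ : ∃ W : ℕ, W = WW (yy x) := ⟨_, rfl⟩
  rw [← hLdef] at hL4 hLe1 hLe2 hLe3 hLx
  have hL0 : 0 < L := by linarith
  have hWpos : 0 < W := by rw [hWdef]; exact WW_pos (yy x)
  have hW1 : (1 : ℝ) ≤ W := by exact_mod_cast hWpos
  have hWs : (W : ℝ) ≤ Real.sqrt L := by
    rw [hWdef, hLdef]
    exact H91CH.WW_le_sqrt (by rw [← hLdef]; linarith)
  have hs0 : 0 < Real.sqrt L := Real.sqrt_pos.2 hL0
  have hss : Real.sqrt L * Real.sqrt L = L := Real.mul_self_sqrt hL0.le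
  have h4W : 4 * (W : ℝ) ≤ e' * L := by
    have h1 : 4 / e' ≤ Real.sqrt L := by
      rw [← Real.sqrt_sq (show (0 : ℝ) ≤ 4 / e' by positivity)]
      exact Real.sqrt_le_sqrt hLe1
    rw [div_le_iff₀ he'0] at h1
    nlinarith
  have hKs : 2 * (K' : ℝ) ≤ e' * Real.sqrt L := by
    have h1 : 2 * (K' : ℝ) / e' ≤ Real.sqrt L := by
      rw [← Real.sqrt_sq (show (0 : ℝ) ≤ 2 * (K' : ℝ) / e' by positivity)]
      exact Real.sqrt_le_sqrt hLe2
    rw [div_le_iff₀ he'0] at h1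
    linarith
  have hal0 : ∀ j, 0 ≤ (b j - b 0 + 1) * L := fun j => by
    have := hb0 j
    exact mul_nonneg (by linarith) hL0.le
  have hbe0 : ∀ j, 0 ≤ (b j - b 0 + 1 + e') * L := fun j => by
    have := hb0 j
    exact mul_nonneg (by linarith) hL0.le
  have hScard : ∀ j, K' ≤ (H91CH.Sab W (Xo x + 0) ((b j - b 0 + 1) * L) ((b j - b 0 + 1 + e') * L)).card := by
    intro j
    have h1 := H91CH.card_Sab_ge (W := W) (m := Xo x + 0) (al := (b j - b 0 + 1) * L)
      (be := (b j - b 0 + 1 + e') * L) hWpos (hal0 j) (by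
        have : (b j - b 0 + 1 + e') * L - (b j - b 0 + 1) * L = e' * L := by ring
        rw [this]
        exact h4W)
    have h2 : ((b j - b 0 + 1 + e') * L - (b j - b 0 + 1) * L) / 2 = e' * L / 2 := by ring
    rw [h2] at h1
    have h3 : (1 : ℝ) ≤ (W.totient : ℝ) := by
      exact_mod_cast Nat.totient_pos.2 hWpos
    have h4 : (K' : ℝ) ≤ e' * L / 2 * (W.totient : ℝ) / W := by
      rw [le_div_iff₀ (by linarith)]
      have h5 : (K' : ℝ) * W ≤ (K' : ℝ) * Real.sqrt L := mul_le_mul_of_nonneg_left hWs (Nat.cast_nonneg _)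
      have h6 : (K' : ℝ) * Real.sqrt L ≤ e' * L / 2 := by nlinarith
      have h7 : e' * L / 2 ≤ e' * L / 2 * (W.totient : ℝ) := by
        have : 0 ≤ e' * L / 2 := by positivity
        nlinarith
      linarith
    exact_mod_cast h4.trans h1
  have hH : ∀ j, ∃ T : Finset ℕ, T ⊆ H91CH.Sab W (Xo x + 0) ((b j - b 0 + 1) * L) ((b j - b 0 + 1 + e') * L) ∧
      T.card = K' := fun j => Finset.exists_subset_card_eq (hScard j)
  choose H hHs hHc using hH
  have hmem : ∀ j, ∀ h ∈ H j, ((b j - b 0 + 1) * L < (h : ℝ) ∧ (h : ℝ) ≤ (b j - b 0 + 1 + e') * L) ∧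
      (Xo x + 0 + h).Coprime W := fun j h hh => (H91CH.mem_Sab (hal0 j) (hbe0 j)).1 (hHs j hh)
  have hord : ∀ i j, i < j → ∀ h ∈ H i, ∀ h' ∈ H j, h < h' := by
    intro i j hij h hh h' hh'
    have h1 := (hmem i h hh).1.2
    have h2 := (hmem j h' hh').1.1
    have h3 := hd i j hij
    have h4 : (b i - b 0 + 1 + e') * L ≤ (b j - b 0 + 1) * L :=
      mul_le_mul_of_nonneg_right (by linarith) hL0.le
    have : (h : ℝ) < h' := by linarith
    exact_mod_cast this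
  have hdis : ∀ i j, i ≠ j → Disjoint (H i) (H j) := by
    intro i j hij
    rw [Finset.disjoint_left]
    intro a ha ha'
    rcases lt_or_gt_of_ne hij with h | h
    · exact lt_irrefl a (hord i j h a ha a ha')
    · exact lt_irrefl a (hord j i h a ha' a ha)
  have hQ : ∀ j, ∀ h ∈ H j, 1 ≤ h ∧ (h : ℝ) ≤ La * L := by
    intro j h hh
    have h1 := hmem j h hh
    constructor
    · have : (0 : ℝ) < h := lt_of_le_of_lt (hal0 j) h1.1.1
      exact_mod_cast this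
    · refine h1.1.2.trans (mul_le_mul_of_nonneg_right ?_ hL0.le)
      have := hb4 j
      linarith
  obtain ⟨t, ht, hout, hin⟩ := hx1 x hxx1 0 (WW_pos (yy x)) H hHc hdis (by
    intro j h hh
    refine ⟨(hQ j h hh).1, ?_, ?_⟩
    · rw [← hLdef]
      exact (hQ j h hh).2
    · rw [← hWdef]
      exact (hmem j h hh).2)
  rw [← hLdef] at hout
  rw [← hWdef] at hout hin
  obtain ⟨n, hn⟩ : ∃ n : ℕ, n = Xo x + 0 + W * t := ⟨_, rfl⟩
  rw [← hn] at hout hin
  obtain ⟨i, k, hik, g, hg, g', hg', hp, hp', hgg', hno⟩ := PT5_pair H n (La * L) hord hQ hout hin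
  obtain ⟨hq1, hq2⟩ := PT5_next (n + g) (n + g') hp hp' (by omega) hno
  obtain ⟨q, hq⟩ : ∃ q : ℕ, q = Nat.count Nat.Prime (n + g) := ⟨_, rfl⟩
  rw [← hq] at hq1 hq2
  -- sizes
  have hXo : (Xo x : ℝ) ≤ x / 2 := Nat.floor_le (by linarith)
  have hXo2 : x / 2 < (Xo x : ℝ) + 1 := Nat.lt_floor_add_one _
  have hWt : (W : ℝ) * t ≤ x / 4 := by
    have h1 : (t : ℝ) ≤ (To x : ℝ) := by exact_mod_cast ht.le
    have h2 : (To x : ℝ) ≤ x / (4 * (W : ℝ)) := by
      rw [hWdef]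
      exact Nat.floor_le (by positivity)
    have h3 : (W : ℝ) * (x / (4 * (W : ℝ))) = x / 4 := by
      field_simp
    calc (W : ℝ) * t ≤ (W : ℝ) * (x / (4 * (W : ℝ))) :=
          mul_le_mul_of_nonneg_left (h1.trans h2) (by linarith)
      _ = x / 4 := h3
  have hLax : La * L ≤ x / 4 := by
    have h1 : La * L ≤ La * (1 / (4 * La) * x) := mul_le_mul_of_nonneg_left hLx (by linarith)
    have h2 : La * (1 / (4 * La) * x) = x / 4 := by
      field_simp
    linarith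
  have hgx : (g : ℝ) ≤ x / 4 := (hQ i g hg).2.trans hLax
  have hnr : (n : ℝ) = (Xo x : ℝ) + (W : ℝ) * t := by
    rw [hn]
    push_cast
    ring
  have hng : ((n + g : ℕ) : ℝ) = (n : ℝ) + g := by push_cast; rfl
  have hg0 : (0 : ℝ) ≤ (g : ℝ) := Nat.cast_nonneg _
  have hWt0 : (0 : ℝ) ≤ (W : ℝ) * t := by positivity
  have hup : ((n + g : ℕ) : ℝ) ≤ x := by
    rw [hng, hnr]
    linarith
  have hlo : x / 3 ≤ ((n + g : ℕ) : ℝ) := by
    rw [hng, hnr]
    linarith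
  have hqN : N0 ≤ q := by
    have h1 : Nat.nth Nat.Prime N0 ≤ n + g := by
      have : (Nat.nth Nat.Prime N0 : ℝ) ≤ ((n + g : ℕ) : ℝ) := by linarith
      exact_mod_cast this
    have h2 := Nat.count_monotone Nat.Prime h1
    rw [Nat.count_nth_of_infinite Nat.infinite_setOfPred_prime] at h2
    rw [hq]
    exact h2
  have hfin := hN0 q hqN (i, k) hik
  rw [hq1, hq2] at hfin
  have hl1 : L - 2 ≤ Real.log ((n + g : ℕ) : ℝ) := by
    have h1 : Real.log (x / 3) ≤ Real.log ((n + g : ℕ) : ℝ) := Real.log_le_log (by linarith) hlo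
    rw [Real.log_div (by linarith) (by norm_num), ← hLdef] at h1
    have := PT5_log3
    linarith
  have hl2 : Real.log ((n + g : ℕ) : ℝ) ≤ L := by
    rw [hLdef]
    exact Real.log_le_log (by linarith) hup
  have hgi := (hmem i g hg).1
  have hgk := (hmem k g' hg').1
  have hlt := PT5_ratio L (Real.log ((n + g : ℕ) : ℝ)) (((n + g : ℕ) : ℝ)) (((n + g' : ℕ) : ℝ)) (b k - b i)
    (b 4 - b 0) e e' he'0 he'1 hL4 hl1 hl2 (sub_nonneg.2 (hb.monotone hik.le))
    (by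
      have := hb4 k
      have := hb0 i
      linarith) hLe3
    (by
      push_cast
      nlinarith [hgi.2, hgk.1])
    (by
      push_cast
      nlinarith [hgi.1, hgk.2])
  exact absurd hfin (not_le.2 hlt)

end H86FP
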