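import Pool.Agent.H86.FP.CL5
import Pool.Agent.H86.FP.PT5

/-!
# FIN: at least two fifths of the reals in long intervals are limit points (PI helper86)
-/

set_option autoImplicit false

namespace H86FP

/-- among the differences of five reals one is a limit point -/
theorem five_points (b : Fin 5 → ℝ) (hb : StrictMono b) : ∃ i k, i < k ∧ b k - b i ∈ H86LP.LPs := by
  obtain ⟨K', hK', hC⟩ := clC
  exact five_points_of K' hK' hC b hb

end H86FP
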