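import Pool.Agent.H73.PC.Dg

/-!
# Five points property: definitions (PI helper86)

Overview: /team-store/H86_LP.md (last section) and the headers. The machine of helper73 and helper91 (`Pool/Agent/H73/PC`, overview /team-store/H73_T.md) with scales `(1/1024)/B^(m-a)` and level of distribution
`x^(125/256)`; new: the upper bound for the pairs of primes in the cluster (Selberg majorant of level `x^(15/64)` at the second form), constant `< 9/2 < 5`.
-/

open Finset EG H69PG H73PC

namespace H86FP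

open Classical in
/-- the mass of the cluster when the forms at `h0` and `h1` take prime values -/
noncomputable def Ipp {κ : Type} [Fintype κ] [DecidableEq κ] (m : ℕ) (v : ℕ → ℝ) (l : ℝ) (y w : ℕ → ℝ) (h0 h1 : κ) : ℝ :=
  ∑ n ∈ Ad κ m v l, ∑ n' ∈ Ad κ m v l, if (∀ h, h ≠ h0 → h ≠ h1 → n h = n' h) then
    ((y (n h0) * w (n h0)) * (y (n' h0) * w (n' h0))) * ((y (n h1) * w (n h1)) * (y (n' h1) * w (n' h1))) *
      ∏ h ∈ (univ.erase h0).erase h1, (y (n h) ^ 2 * w (n h)) else 0

/-- the amplitude of the cluster when the forms at `h0` and `h1` take prime values -/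
noncomputable def Lpp {κ : Type} [Fintype κ] [DecidableEq κ] (m : ℕ) (v : ℕ → ℝ) (l : ℝ) (y w : ℕ → ℝ)
    (Bf : κ → ℕ → ℕ → ℝ) (h0 h1 : κ) (t : ℕ) : ℝ :=
  ∑ n ∈ Ad κ m v l, ((∏ h, y (n h)) * (w (n h0) * w (n h1))) * ∏ h ∈ (univ.erase h0).erase h1, Bf h (n h) t

end H86FP
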