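import Pool.Agent.H86.FP.FIN

/-!
# LogN: `log p_n / log n → 1` and limit points along subsequences (PI helper86)
-/

set_option autoImplicit false

open Filter MeasureTheory

namespace H86FP

/-- eventually `x^(1-δ) ≤ (x log 2 - log (x+1))/log x` -/
theorem LogN_ev {δ : ℝ} (hδ : 0 < δ) : ∀ᶠ x : ℝ in atTop, x ^ (1 - δ) ≤ (x * Real.log 2 - Real.log (x + 1)) / Real.log x := by
  have h1 : ∀ᶠ x : ℝ in atTop, ‖Real.log x‖ ≤ 1 / 4 * ‖x ^ δ‖ :=
    (isLittleO_log_rpow_atTop hδ).bound (by norm_num)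
  have h2 : ∀ᶠ x : ℝ in atTop, ‖Real.log x‖ ≤ 1 / 8 * ‖x ^ (1 : ℝ)‖ :=
    (isLittleO_log_rpow_atTop (by norm_num)).bound (by norm_num)
  filter_upwards [h1, h2, eventually_ge_atTop (100 : ℝ)] with x g1 g2 g3
  have hx0 : 0 < x := by linarith
  have hl : 1 ≤ Real.log x := by
    have : Real.log (Real.exp 1) ≤ Real.log x := by
      apply Real.log_le_log (Real.exp_pos 1)
      have := Real.exp_one_lt_d9
      linarith
    rwa [Real.log_exp] at this
  rw [Real.norm_of_nonneg (by linarith), Real.norm_of_nonneg (by positivity)] at g1 g2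
  rw [Real.rpow_one] at g2
  have h3 : Real.log (x + 1) ≤ Real.log x + 1 := by
    have h4 : Real.log (x + 1) ≤ Real.log (x * 2) := Real.log_le_log (by linarith) (by linarith)
    rw [Real.log_mul (by linarith) (by norm_num)] at h4
    have := Real.log_two_lt_d9
    linarith
  have h5 : (1 / 4 : ℝ) * x ≤ x * Real.log 2 - Real.log (x + 1) := by
    have := Real.log_two_gt_d9
    nlinarith
  rw [le_div_iff₀ (by linarith)]
  have h6 : x ^ (1 - δ) * x ^ δ = x := by
    rw [← Real.rpow_add hx0]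
    norm_num
  have h7 : 0 < x ^ (1 - δ) := by positivity
  calc x ^ (1 - δ) * Real.log x ≤ x ^ (1 - δ) * (1 / 4 * x ^ δ) := mul_le_mul_of_nonneg_left g1 h7.le
    _ = 1 / 4 * (x ^ (1 - δ) * x ^ δ) := by ring
    _ = 1 / 4 * x := by rw [h6]
    _ ≤ _ := h5

theorem LogN_tendsto_nth : Tendsto (fun n : ℕ => (Nat.nth Nat.Prime n : ℝ)) atTop atTop :=
  tendsto_natCast_atTop_atTop.comp (Nat.nth_strictMono Nat.infinite_setOfPred_prime).tendsto_atTop

theorem LogN_bounds {δ : ℝ} (hδ : 0 < δ) : ∀ᶠ n : ℕ in atTop,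
    (1 - δ) * Real.log (Nat.nth Nat.Prime n) ≤ Real.log ((n : ℝ) + 1) ∧ Real.log ((n : ℝ) + 1) ≤ Real.log (Nat.nth Nat.Prime n) ∧
    1 ≤ Real.log (Nat.nth Nat.Prime n) := by
  filter_upwards [LogN_tendsto_nth.eventually (LogN_ev hδ), LogN_tendsto_nth.eventually (eventually_ge_atTop (100 : ℝ))] with n g1 g2
  have hpi : Nat.primeCounting (Nat.nth Nat.Prime n) = n + 1 := by
    rw [Nat.primeCounting, Nat.primeCounting', Nat.count_succ, if_pos (Nat.prime_nth_prime n), Nat.count_nth_of_infinite Nat.infinite_setOfPred_prime]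
  have h1 := Chebyshev.pi_ge (Nat.nth Nat.Prime n)
  rw [hpi] at h1
  push_cast at h1
  have hx0 : (0 : ℝ) < (Nat.nth Nat.Prime n : ℝ) := by linarith
  refine ⟨?_, ?_, ?_⟩
  · have h2 := g1.trans h1
    have h3 := Real.log_le_log (by positivity) h2
    rwa [Real.log_rpow hx0] at h3
  · refine Real.log_le_log (by positivity) ?_
    have : n + 1 ≤ Nat.nth Nat.Prime n := by
      have := Nat.add_two_le_nth_prime n
      omega
    exact_mod_cast this
  · have : Real.log (Real.exp 1) ≤ Real.log (Nat.nth Nat.Prime n : ℝ) := by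
      apply Real.log_le_log (Real.exp_pos 1)
      have := Real.exp_one_lt_d9
      linarith
    rwa [Real.log_exp] at this

theorem LogN_tendsto : Tendsto (fun n : ℕ => Real.log (Nat.nth Nat.Prime n) / Real.log ((n : ℝ) + 1)) atTop (nhds 1) := by
  rw [Metric.tendsto_atTop]
  intro ε hε
  have hδ : 0 < min (1 / 2) (ε / 4) := by positivity
  obtain ⟨N, hN⟩ := eventually_atTop.1 (LogN_bounds hδ)
  refine ⟨N, fun n hn => ?_⟩
  obtain ⟨h1, h2, h3⟩ := hN n hn
  set δ := min (1 / 2 : ℝ) (ε / 4) with hδd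
  have hδ1 : δ ≤ 1 / 2 := min_le_left _ _
  have hδ2 : δ ≤ ε / 4 := min_le_right _ _
  have h4 : 0 < Real.log ((n : ℝ) + 1) := by nlinarith
  rw [Real.dist_eq, abs_lt]
  constructor
  · have : 1 ≤ Real.log (Nat.nth Nat.Prime n) / Real.log ((n : ℝ) + 1) := by
      rw [le_div_iff₀ h4]
      linarith
    linarith
  · have : Real.log (Nat.nth Nat.Prime n) / Real.log ((n : ℝ) + 1) ≤ 1 + 2 * δ := by
      rw [div_le_iff₀ h4]
      have h5 : (1 + 2 * δ) * ((1 - δ) * Real.log (Nat.nth Nat.Prime n)) ≤ (1 + 2 * δ) * Real.log ((n : ℝ) + 1) :=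
        mul_le_mul_of_nonneg_left h1 (by linarith)
      have h6 : 0 ≤ (δ * (1 - 2 * δ)) * Real.log (Nat.nth Nat.Prime n) := by
        have : 0 ≤ 1 - 2 * δ := by linarith
        have h7 : 0 ≤ Real.log (Nat.nth Nat.Prime n : ℝ) := by linarith
        positivity
      nlinarith
    linarith

/-- `t ∈ LPs` is the limit of `(p_(n+1) - p_n)/log p_n` along a subsequence -/
theorem LogN_sub {t : ℝ} (ht : t ∈ H86LP.LPs) : ∃ φ : ℕ → ℕ, StrictMono φ ∧
    Tendsto (fun i : ℕ => ((Nat.nth Nat.Prime (φ i + 1) : ℝ) - Nat.nth Nat.Prime (φ i)) / Real.log (Nat.nth Nat.Prime (φ i)))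
      atTop (nhds t) := by
  have h1 : MapClusterPt t atTop (fun n : ℕ => ((Nat.nth Nat.Prime (n + 1) : ℝ) - Nat.nth Nat.Prime n) /
      Real.log (Nat.nth Nat.Prime n)) := by
    rw [mapClusterPt_iff_frequently]
    intro s hs
    obtain ⟨ε, hε, hεs⟩ := Metric.mem_nhds_iff.1 hs
    refine (ht ε hε).mono fun n hn => hεs ?_
    rw [Metric.mem_ball, Real.dist_eq]
    exact hn
  obtain ⟨φ, hφ, h2⟩ := h1.tendsto_subseq
  exact ⟨φ, hφ, h2⟩

/-- the same with `log n` -/
theorem LogN_sub' {t : ℝ} (ht : t ∈ H86LP.LPs) : ∃ φ : ℕ → ℕ, StrictMono φ ∧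
    Tendsto (fun i : ℕ => ((Nat.nth Nat.Prime (φ i) : ℝ) - Nat.nth Nat.Prime (φ i - 1)) / Real.log (φ i : ℝ)) atTop (nhds t) := by
  obtain ⟨φ, hφ, h1⟩ := LogN_sub ht
  refine ⟨fun i => φ i + 1, fun i j hij => Nat.add_lt_add_right (hφ hij) 1, ?_⟩
  have h2 := h1.mul (LogN_tendsto.comp hφ.tendsto_atTop)
  rw [mul_one] at h2
  refine h2.congr' ?_
  filter_upwards [hφ.tendsto_atTop.eventually (LogN_bounds (δ := 1 / 2) (by norm_num))] with i hi
  obtain ⟨_, _, h5⟩ := hi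
  have h6 : Real.log (Nat.nth Nat.Prime (φ i) : ℝ) ≠ 0 := by linarith
  simp only [Function.comp, Nat.add_sub_cancel]
  push_cast
  field_simp

end H86FP
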