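import Pool.Agent.H86.FP.Fd

/-!
# OM2: the square of the cluster amplitude with two prime values

Compare `Pool/Agent/H73/PC/Om.lean` (`Om_exp`, `Om_cmp`, `om3`; copy the private lemmas).
* `la_eq`: if `Bf h0 a t = w a` and `Bf h1 a t = w a` for `a ∈ Icc 1 m` then `La = Lpp` (`n h ≠ 0` on `Ad`; `∏_h = (h0) (h1) ∏_{(univ.erase h0).erase h1}`).
* `om5`: expand the square, insert `hE`; `Y(n) = (∏ y(n h)) w(n h0) w(n h1)`; if `n`, `n'` agree off `{h0, h1}` then `Y(n) Y(n') ∏_{off} w = ((y w)(n h0) (y w)(n' h0)) ((y w)(n h1) (y w)(n' h1)) ∏_{off} y² w`.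
* `lpp_sum`: `Y(n) ≤ Wm² ∏ y(n h)` and `La_sum`.
-/

set_option autoImplicit false

open Finset EG H69PG H73PC

namespace H86FP

variable {κ : Type} [Fintype κ] [DecidableEq κ]

/-- expansion of the square -/
theorem OM2_exp {ι : Type} (A : Finset ι) (T : Finset ℕ) (Y : ι → ℝ) (P : ι → ℕ → ℝ)
    (F : ℕ → ℝ) : ∑ t ∈ T, (∑ n ∈ A, Y n * P n t) ^ 2 * F t =
      ∑ n ∈ A, ∑ n' ∈ A, Y n * Y n' * ∑ t ∈ T, (P n t * P n' t) * F t := by
  have h1 : ∀ t ∈ T, (∑ n ∈ A, Y n * P n t) ^ 2 * F t =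
      ∑ n ∈ A, ∑ n' ∈ A, Y n * Y n' * ((P n t * P n' t) * F t) := by
    intro t _
    rw [pow_two, sum_mul_sum, sum_mul]
    refine sum_congr rfl fun n _ => ?_
    rw [sum_mul]
    refine sum_congr rfl fun n' _ => ?_
    ring
  rw [sum_congr rfl h1, sum_comm]
  refine sum_congr rfl fun n _ => ?_
  rw [sum_comm]
  refine sum_congr rfl fun n' _ => ?_
  rw [mul_sum]

/-- comparison of two quadratic forms -/
theorem OM2_cmp {ι : Type} (A : Finset ι) {Y : ι → ℝ} (hY : ∀ n ∈ A, 0 ≤ Y n)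
    {S M : ι → ι → ℝ} {ε : ℝ} (h : ∀ n ∈ A, ∀ n' ∈ A, |S n n' - M n n'| ≤ ε) :
    |∑ n ∈ A, ∑ n' ∈ A, Y n * Y n' * S n n' - ∑ n ∈ A, ∑ n' ∈ A, Y n * Y n' * M n n'| ≤
      ε * (∑ n ∈ A, Y n) ^ 2 := by
  have h1 : ∑ n ∈ A, ∑ n' ∈ A, Y n * Y n' * S n n' - ∑ n ∈ A, ∑ n' ∈ A, Y n * Y n' * M n n' =
      ∑ n ∈ A, ∑ n' ∈ A, Y n * Y n' * (S n n' - M n n') := by
    rw [← sum_sub_distrib]
    refine sum_congr rfl fun n _ => ?_
    rw [← sum_sub_distrib]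
    refine sum_congr rfl fun n' _ => ?_
    ring
  have h2 : ε * (∑ n ∈ A, Y n) ^ 2 = ∑ n ∈ A, ∑ n' ∈ A, Y n * Y n' * ε := by
    rw [pow_two, sum_mul_sum, mul_sum]
    refine sum_congr rfl fun n _ => ?_
    rw [mul_sum]
    refine sum_congr rfl fun n' _ => ?_
    ring
  rw [h1, h2]
  refine (abs_sum_le_sum_abs _ _).trans (sum_le_sum fun n hn => ?_)
  refine (abs_sum_le_sum_abs _ _).trans (sum_le_sum fun n' hn' => ?_)
  have h3 : 0 ≤ Y n * Y n' := mul_nonneg (hY n hn) (hY n' hn')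
  rw [abs_mul, abs_of_nonneg h3]
  exact mul_le_mul_of_nonneg_left (h n hn n' hn') h3

theorem OM2_mem {m : ℕ} {v : ℕ → ℝ} {l : ℝ} {n : κ → Fin (m + 1)} (hn : n ∈ Ad κ m v l)
    (h : κ) : (n h : ℕ) ∈ Icc 1 m := by
  unfold Ad at hn
  rw [mem_filter] at hn
  have h1 : (n h : ℕ) ≠ 0 := fun h2 => hn.2.1 h (Fin.ext h2)
  have h2 := (n h).2
  rw [mem_Icc]
  omega

theorem OM2_La_sum {m : ℕ} {v : ℕ → ℝ} {l : ℝ} {y : ℕ → ℝ} (hy : ∀ a, 0 ≤ y a) :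
    ∑ n ∈ Ad κ m v l, ∏ h, y (n h) ≤ (∑ a ∈ Icc 1 m, y a) ^ Fintype.card κ := by
  classical
  have h1 : (∑ a ∈ Icc 1 m, y a) ^ Fintype.card κ =
      ∑ x ∈ Fintype.piFinset (fun _ : κ => Icc 1 m), ∏ h, y (x h) := by
    rw [← prod_univ_sum, prod_const, card_univ]
  have hinj : Function.Injective (fun (n : κ → Fin (m + 1)) (h : κ) => (n h : ℕ)) := by
    intro n n' h
    funext k
    exact Fin.ext (congrFun h k)
  have h2 : ∑ n ∈ Ad κ m v l, ∏ h, y (n h) =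
      ∑ x ∈ (Ad κ m v l).image (fun (n : κ → Fin (m + 1)) (h : κ) => (n h : ℕ)),
        ∏ h, y (x h) := by
    rw [sum_image fun n _ n' _ h => hinj h]
  rw [h1, h2]
  refine sum_le_sum_of_subset_of_nonneg ?_ fun x _ _ => prod_nonneg fun h _ => hy _
  intro x hx
  obtain ⟨n, hn, rfl⟩ := mem_image.1 hx
  rw [Fintype.mem_piFinset]
  exact fun h => OM2_mem hn h

theorem la_eq {m : ℕ} {v : ℕ → ℝ} {l : ℝ} {y w : ℕ → ℝ} {Bf : κ → ℕ → ℕ → ℝ} {t : ℕ} (h0 h1 : κ) (h01 : h0 ≠ h1)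
    (hB0 : ∀ a ∈ Icc 1 m, Bf h0 a t = w a) (hB1 : ∀ a ∈ Icc 1 m, Bf h1 a t = w a) :
    La m v l y Bf t = Lpp m v l y w Bf h0 h1 t := by
  unfold La Lpp
  refine sum_congr rfl fun n hn => ?_
  rw [prod_mul_distrib, ← mul_prod_erase univ (fun h => Bf h (n h) t) (mem_univ h0),
    ← mul_prod_erase (univ.erase h0) (fun h => Bf h (n h) t)
      (mem_erase.2 ⟨h01.symm, mem_univ h1⟩),
    hB0 _ (OM2_mem hn h0), hB1 _ (OM2_mem hn h1)]
  ring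

open Classical in
theorem om5 {m : ℕ} {v : ℕ → ℝ} {l : ℝ} {y w : ℕ → ℝ} (hy : ∀ a, 0 ≤ y a) {Bf : κ → ℕ → ℕ → ℝ} {T : Finset ℕ}
    {F : ℕ → ℝ} {X ε : ℝ} (h0 h1 : κ) (h01 : h0 ≠ h1) (hw : ∀ a, 0 ≤ w a)
    (hE : ∀ n ∈ Ad κ m v l, ∀ n' ∈ Ad κ m v l,
      |∑ t ∈ T, (∏ h ∈ (univ.erase h0).erase h1, (Bf h (n h) t * Bf h (n' h) t)) * F t -
        (if (∀ h, h ≠ h0 → h ≠ h1 → n h = n' h) then (∏ h ∈ (univ.erase h0).erase h1, w (n h)) * X else 0)| ≤ ε) :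
    |∑ t ∈ T, Lpp m v l y w Bf h0 h1 t ^ 2 * F t - Ipp m v l y w h0 h1 * X| ≤
      ε * (∑ n ∈ Ad κ m v l, (∏ h, y (n h)) * (w (n h0) * w (n h1))) ^ 2 := by
  have e1 : ∑ t ∈ T, Lpp m v l y w Bf h0 h1 t ^ 2 * F t =
      ∑ n ∈ Ad κ m v l, ∑ n' ∈ Ad κ m v l,
        ((∏ h, y (n h)) * (w (n h0) * w (n h1))) * ((∏ h, y (n' h)) * (w (n' h0) * w (n' h1))) *
        ∑ t ∈ T, (∏ h ∈ (univ.erase h0).erase h1, (Bf h (n h) t * Bf h (n' h) t)) * F t := by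
    have h2 := OM2_exp (Ad κ m v l) T (fun n => (∏ h, y (n h)) * (w (n h0) * w (n h1)))
      (fun n t => ∏ h ∈ (univ.erase h0).erase h1, Bf h (n h) t) F
    unfold Lpp
    rw [h2]
    simp only [prod_mul_distrib]
  have e2 : Ipp m v l y w h0 h1 * X =
      ∑ n ∈ Ad κ m v l, ∑ n' ∈ Ad κ m v l,
        ((∏ h, y (n h)) * (w (n h0) * w (n h1))) * ((∏ h, y (n' h)) * (w (n' h0) * w (n' h1))) *
        (if (∀ h, h ≠ h0 → h ≠ h1 → n h = n' h) then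
          (∏ h ∈ (univ.erase h0).erase h1, w (n h)) * X else 0) := by
    unfold Ipp
    rw [sum_mul]
    refine sum_congr rfl fun n hn => ?_
    rw [sum_mul]
    refine sum_congr rfl fun n' hn' => ?_
    by_cases hc : ∀ h, h ≠ h0 → h ≠ h1 → n h = n' h
    · rw [if_pos hc, if_pos hc, ← mul_prod_erase univ (fun h => y (n h)) (mem_univ h0),
        ← mul_prod_erase univ (fun h => y (n' h)) (mem_univ h0),
        ← mul_prod_erase (univ.erase h0) (fun h => y (n h))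
          (mem_erase.2 ⟨h01.symm, mem_univ h1⟩),
        ← mul_prod_erase (univ.erase h0) (fun h => y (n' h))
          (mem_erase.2 ⟨h01.symm, mem_univ h1⟩)]
      have h4 : ∏ h ∈ (univ.erase h0).erase h1, y (n' h) =
          ∏ h ∈ (univ.erase h0).erase h1, y (n h) :=
        prod_congr rfl fun h hh => by
          rw [hc h (ne_of_mem_erase (mem_of_mem_erase hh)) (ne_of_mem_erase hh)]
      rw [h4, prod_mul_distrib, prod_pow]
      ring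
    · rw [if_neg hc, if_neg hc]
      ring
  rw [e1, e2]
  exact OM2_cmp (Ad κ m v l)
    (fun n _ => mul_nonneg (prod_nonneg fun h _ => hy _) (mul_nonneg (hw _) (hw _))) hE

theorem lpp_sum {m : ℕ} {v : ℕ → ℝ} {l Wm : ℝ} {y w : ℕ → ℝ} (hy : ∀ a, 0 ≤ y a) (hw : ∀ a, 0 ≤ w a) (hW : ∀ a ≤ m, w a ≤ Wm) (h0 h1 : κ) :
    ∑ n ∈ Ad κ m v l, (∏ h, y (n h)) * (w (n h0) * w (n h1)) ≤ Wm ^ 2 * (∑ a ∈ Icc 1 m, y a) ^ Fintype.card κ := by
  have hWm : 0 ≤ Wm := (hw 0).trans (hW 0 (Nat.zero_le m))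
  have h1' : ∀ n ∈ Ad κ m v l, (∏ h, y (n h)) * (w (n h0) * w (n h1)) ≤
      Wm ^ 2 * ∏ h, y (n h) := by
    intro n _
    have h2 : w (n h0) * w (n h1) ≤ Wm ^ 2 := by
      rw [pow_two]
      exact mul_le_mul (hW _ (Nat.lt_succ_iff.1 (n h0).2)) (hW _ (Nat.lt_succ_iff.1 (n h1).2))
        (hw _) hWm
    have h3 : 0 ≤ ∏ h, y (n h) := prod_nonneg fun h _ => hy _
    calc (∏ h, y (n h)) * (w (n h0) * w (n h1)) ≤ (∏ h, y (n h)) * Wm ^ 2 :=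
          mul_le_mul_of_nonneg_left h2 h3
      _ = Wm ^ 2 * ∏ h, y (n h) := mul_comm _ _
  refine (sum_le_sum h1').trans ?_
  rw [← mul_sum]
  exact mul_le_mul_of_nonneg_left (OM2_La_sum hy) (sq_nonneg _)

end H86FP
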