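import Pool.Agent.H86.FP.Fd
import Pool.Agent.H73.PC.Ra

/-!
# RB2: masses of the cluster

* `ip_ge2`: the proof of `ip_ge` (`Pool/Agent/H73/PC/Ra.lean`) with `δ` in place of `1/2`: `∑_{n0 : cost > l/2} ∏ (y² w) ≤ (2/l) (K-1) Y A2^(K-2) ≤ δ A2^(K-1)` by `hK`. (For `K = 1` the only `n0` is the empty function.)
* `ipp_le`: drop the conditions `n, n' ∈ Ad` (all terms are `≥ 0`): sum over all `n, n'` with values in `1..m` which agree off `{h0, h1}`; it factors into `(∑ y w)^4 (∑ y² w)^(K-2)` (`Ra_prod`, compare `i0_le`; parametrise the pairs `(n, n')` by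
`n` and the two values `n' h0`, `n' h1`).
-/

set_option autoImplicit false

open Finset EG H69PG H73PC

namespace H86FP

variable {κ : Type} [Fintype κ] [DecidableEq κ]

theorem ip_ge2 {m : ℕ} {v : ℕ → ℝ} {l δ : ℝ} {y w : ℕ → ℝ} (hy : ∀ a, 0 ≤ y a) (hw : ∀ a, 0 ≤ w a) (hv : ∀ a, 0 ≤ v a)
    (hl : 0 < l) (hδ : 0 ≤ δ) (hvl : ∀ a ∈ Icc 1 m, v a ≤ l / 2) (hyv : ∀ a ∈ Icc 1 m, y a * v a = 1) (h0 : κ)
    (hK : 2 * ((Fintype.card κ : ℝ) - 1) * (∑ a ∈ Icc 1 m, y a * w a) ≤ δ * (l * ∑ a ∈ Icc 1 m, y a ^ 2 * w a)) :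
    (1 - δ) * ((∑ a ∈ Icc 1 m, y a * w a) ^ 2 * (∑ a ∈ Icc 1 m, y a ^ 2 * w a) ^ (Fintype.card κ - 1)) ≤ Ip m v l y w h0 := by
  classical
  set Y : ℝ := ∑ a ∈ Icc 1 m, y a * w a with hYdef
  set A : ℝ := ∑ a ∈ Icc 1 m, y a ^ 2 * w a with hAdef
  have hY0 : 0 ≤ Y := sum_nonneg fun a _ => mul_nonneg (hy a) (hw a)
  have hA0 : 0 ≤ A := sum_nonneg fun a _ => mul_nonneg (sq_nonneg _) (hw a)
  -- the weights
  obtain ⟨g, hg⟩ : ∃ g : κ → ℕ → ℝ, g = fun h a => if h = h0 then y a * w a else y a ^ 2 * w a := ⟨_, rfl⟩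
  have hg0 : ∀ a, g h0 a = y a * w a := fun a => by rw [hg]; exact if_pos rfl
  have hg1 : ∀ h, h ≠ h0 → ∀ a, g h a = y a ^ 2 * w a := fun h hh a => by rw [hg]; exact if_neg hh
  have hgn : ∀ h a, 0 ≤ g h a := by
    intro h a
    by_cases hh : h = h0
    · rw [hh, hg0]
      exact mul_nonneg (hy a) (hw a)
    · rw [hg1 h hh]
      exact mul_nonneg (sq_nonneg _) (hw a)
  have hX : ∀ n : κ → Fin (m + 1), y (n h0) * w (n h0) * ∏ h ∈ univ.erase h0, (y (n h) ^ 2 * w (n h)) =
      ∏ h, g h (n h) := by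
    intro n
    rw [← mul_prod_erase univ (fun h => g h (n h)) (mem_univ h0), hg0]
    congr 1
    exact prod_congr rfl fun h hh => (hg1 h (ne_of_mem_erase hh) _).symm
  have hXn : ∀ n : κ → Fin (m + 1), 0 ≤ ∏ h, g h (n h) := fun n => prod_nonneg fun h _ => hgn h _
  -- the cost off h0
  obtain ⟨off, hoff⟩ : ∃ off : (κ → Fin (m + 1)) → ℝ, off = fun n => ∑ h ∈ univ.erase h0, v (n h) := ⟨_, rfl⟩
  have hoffn : ∀ n, 0 ≤ off n := fun n => by
    rw [hoff]
    exact sum_nonneg fun h _ => hv _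
  have hval : ∀ a : Fin (m + 1), a ≠ 0 → (a : ℕ) ∈ Icc 1 m := by
    intro a ha
    have ha' : (a : ℕ) ≠ 0 := fun h => ha (Fin.ext h)
    have := a.2
    rw [mem_Icc]
    omega
  have hAd : ∀ n : κ → Fin (m + 1), n ∈ Ra_P κ m → off n ≤ l / 2 → n ∈ Ad κ m v l := by
    intro n hn hc
    unfold Ad
    rw [mem_filter]
    refine ⟨mem_univ _, Ra_mem.1 hn, ?_⟩
    rw [← add_sum_erase univ (fun h => v (n h)) (mem_univ h0)]
    rw [hoff] at hc
    have h1 := hvl _ (hval _ (Ra_mem.1 hn h0))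
    have h2 : v (n h0) + ∑ h ∈ univ.erase h0, v (n h) ≤ l / 2 + l / 2 := add_le_add h1 hc
    linarith
  -- the inner sum
  have hin : ∀ n ∈ (Ra_P κ m).filter (fun n => off n ≤ l / 2), (∏ h, g h (n h)) * Y ≤
      ∑ n' ∈ Ad κ m v l, if (∀ h, h ≠ h0 → n h = n' h) then
        (y (n h0) * w (n h0)) * (y (n' h0) * w (n' h0)) * ∏ h ∈ univ.erase h0, (y (n h) ^ 2 * w (n h)) else 0 := by
    intro n hn
    rw [mem_filter] at hn
    have hsub : ((univ.filter fun a : Fin (m + 1) => a ≠ 0).image fun a => Function.update n h0 a) ⊆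
        Ad κ m v l := by
      intro n' hn'
      rw [mem_image] at hn'
      obtain ⟨a, ha, rfl⟩ := hn'
      rw [mem_filter] at ha
      apply hAd
      · rw [Ra_mem]
        intro h
        by_cases hh : h = h0
        · rw [hh, Function.update_self]
          exact ha.2
        · rw [Function.update_of_ne hh]
          exact Ra_mem.1 hn.1 h
      · have h1 : off (Function.update n h0 a) = off n := by
          rw [hoff]
          exact sum_congr rfl fun h hh => by rw [Function.update_of_ne (ne_of_mem_erase hh)]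
        rw [h1]
        exact hn.2
    have hterm : ∀ n' : κ → Fin (m + 1), 0 ≤ (if (∀ h, h ≠ h0 → n h = n' h) then
        (y (n h0) * w (n h0)) * (y (n' h0) * w (n' h0)) * ∏ h ∈ univ.erase h0, (y (n h) ^ 2 * w (n h)) else 0) := by
      intro n'
      split_ifs
      · exact mul_nonneg (mul_nonneg (mul_nonneg (hy _) (hw _)) (mul_nonneg (hy _) (hw _)))
          (prod_nonneg fun h _ => mul_nonneg (sq_nonneg _) (hw _))
      · exact le_rfl
    refine le_trans (le_of_eq ?_) (sum_le_sum_of_subset_of_nonneg hsub fun n' _ _ => hterm n')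
    rw [sum_image]
    · have h2 : ∀ a : Fin (m + 1), (if (∀ h, h ≠ h0 → n h = Function.update n h0 a h) then
          (y (n h0) * w (n h0)) * (y (Function.update n h0 a h0) * w (Function.update n h0 a h0)) *
            ∏ h ∈ univ.erase h0, (y (n h) ^ 2 * w (n h)) else 0) =
          (∏ h, g h (n h)) * (y a * w a) := by
        intro a
        rw [if_pos (fun h hh => by rw [Function.update_of_ne hh]), Function.update_self, ← hX n]
        ring
      rw [sum_congr rfl fun a _ => h2 a, ← mul_sum, Ra_sum (fun a => y a * w a)]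
    · intro a _ b _ hab
      have h3 := congrFun hab h0
      simpa using h3
  -- step 1
  have s1 : ∑ n ∈ (Ra_P κ m).filter (fun n => off n ≤ l / 2), (∏ h, g h (n h)) * Y ≤ Ip m v l y w h0 := by
    unfold Ip
    refine (sum_le_sum hin).trans ?_
    refine sum_le_sum_of_subset_of_nonneg ?_ ?_
    · intro n hn
      rw [mem_filter] at hn
      exact hAd n hn.1 hn.2
    · intro n _ _
      refine sum_nonneg fun n' _ => ?_
      split_ifs
      · exact mul_nonneg (mul_nonneg (mul_nonneg (hy _) (hw _)) (mul_nonneg (hy _) (hw _)))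
          (prod_nonneg fun h _ => mul_nonneg (sq_nonneg _) (hw _))
      · exact le_rfl
  -- step 2: Markov
  have s2 : ∑ n ∈ Ra_P κ m, ∏ h, g h (n h) - 2 / l * ∑ n ∈ Ra_P κ m, off n * ∏ h, g h (n h) ≤
      ∑ n ∈ (Ra_P κ m).filter (fun n => off n ≤ l / 2), ∏ h, g h (n h) := by
    rw [mul_sum, ← sum_sub_distrib, sum_filter]
    refine sum_le_sum fun n _ => ?_
    split_ifs with hc
    · have : 0 ≤ 2 / l * (off n * ∏ h, g h (n h)) :=
        mul_nonneg (by positivity) (mul_nonneg (hoffn n) (hXn n))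
      linarith
    · have h3 : 1 ≤ 2 / l * off n := by
        rw [div_mul_eq_mul_div, le_div_iff₀ hl]
        push Not at hc
        linarith
      have h4 := mul_le_mul_of_nonneg_right h3 (hXn n)
      linarith
  -- the total mass
  have s3 : ∑ n ∈ Ra_P κ m, ∏ h, g h (n h) = Y * A ^ (Fintype.card κ - 1) := by
    rw [Ra_prod, ← mul_prod_erase univ _ (mem_univ h0)]
    congr 1
    · exact sum_congr rfl fun a _ => hg0 a
    · rw [prod_congr rfl fun h hh => sum_congr rfl fun a _ => hg1 h (ne_of_mem_erase hh) a, prod_const,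
        card_erase_of_mem (mem_univ h0), card_univ]
  -- the mass with the cost
  have s4 : ∀ h1 ∈ univ.erase h0, ∑ n ∈ Ra_P κ m, v (n h1) * ∏ h, g h (n h) =
      Y * (Y * A ^ (Fintype.card κ - 1 - 1)) := by
    intro h1 hh1
    have hne : h1 ≠ h0 := ne_of_mem_erase hh1
    have h5 : ∀ n : κ → Fin (m + 1), v (n h1) * ∏ h, g h (n h) =
        ∏ h, (fun (h : κ) (a : ℕ) => if h = h1 then v a * g h a else g h a) h (n h) := by
      intro n
      rw [← mul_prod_erase univ (fun h => g h (n h)) (mem_univ h1),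
        ← mul_prod_erase univ (fun h => (fun (h : κ) (a : ℕ) => if h = h1 then v a * g h a else g h a) h (n h))
          (mem_univ h1), ← mul_assoc]
      congr 1
      · exact (if_pos rfl).symm
      · exact prod_congr rfl fun h hh => (if_neg (ne_of_mem_erase hh)).symm
    rw [sum_congr rfl fun n _ => h5 n,
      Ra_prod (m := m) (fun (h : κ) (a : ℕ) => if h = h1 then v a * g h a else g h a),
      ← mul_prod_erase univ _ (mem_univ h0),
      ← mul_prod_erase (univ.erase h0) _ hh1]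
    congr 1
    · exact sum_congr rfl fun a _ => by
        show (if h0 = h1 then v a * g h0 a else g h0 a) = _
        rw [if_neg (Ne.symm hne), hg0]
    · congr 1
      · refine sum_congr rfl fun a ha => ?_
        show (if h1 = h1 then v a * g h1 a else g h1 a) = _
        rw [if_pos rfl, hg1 h1 hne]
        have := hyv a ha
        calc v a * (y a ^ 2 * w a) = (y a * v a) * (y a * w a) := by ring
          _ = y a * w a := by rw [this, one_mul]
      · have h6 : ∀ h ∈ (univ.erase h0).erase h1, (∑ a ∈ Icc 1 m,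
            (fun (h : κ) (a : ℕ) => if h = h1 then v a * g h a else g h a) h a) = A := by
          intro h hh
          have e1 : h ≠ h1 := ne_of_mem_erase hh
          have e2 : h ≠ h0 := ne_of_mem_erase (mem_of_mem_erase hh)
          refine sum_congr rfl fun a _ => ?_
          show (if h = h1 then v a * g h a else g h a) = _
          rw [if_neg e1, hg1 h e2]
        rw [prod_congr rfl h6, prod_const, card_erase_of_mem hh1, card_erase_of_mem (mem_univ h0), card_univ]
  have s5 : ∑ n ∈ Ra_P κ m, off n * ∏ h, g h (n h) =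
      ((Fintype.card κ - 1 : ℕ) : ℝ) * (Y * (Y * A ^ (Fintype.card κ - 1 - 1))) := by
    have h7 : ∀ n : κ → Fin (m + 1), off n * ∏ h, g h (n h) =
        ∑ h1 ∈ univ.erase h0, v (n h1) * ∏ h, g h (n h) := by
      intro n
      rw [hoff, sum_mul]
    rw [sum_congr rfl fun n _ => h7 n, sum_comm, sum_congr rfl s4, sum_const,
      card_erase_of_mem (mem_univ h0), card_univ, nsmul_eq_mul]
  -- conclusion
  have hcard : 1 ≤ Fintype.card κ := Fintype.card_pos_iff.2 ⟨h0⟩
  have s6 : 2 / l * (((Fintype.card κ - 1 : ℕ) : ℝ) * (Y * (Y * A ^ (Fintype.card κ - 1 - 1)))) ≤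
      δ * (Y * A ^ (Fintype.card κ - 1)) := by
    rcases Nat.eq_zero_or_pos (Fintype.card κ - 1) with hz | hz
    · rw [hz]
      simp only [Nat.cast_zero, zero_mul, mul_zero]
      positivity
    · obtain ⟨k, hk⟩ : ∃ k, Fintype.card κ - 1 = k + 1 := ⟨Fintype.card κ - 1 - 1, by omega⟩
      have hk' : (Fintype.card κ : ℝ) - 1 = ((k + 1 : ℕ) : ℝ) := by
        have h8 : Fintype.card κ = k + 2 := by omega
        rw [h8]
        push_cast
        ring
      rw [hk'] at hK
      rw [hk, Nat.add_sub_cancel, pow_succ]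
      have h9 : 2 / l * (((k + 1 : ℕ) : ℝ) * Y) ≤ δ * A := by
        rw [div_mul_eq_mul_div, div_le_iff₀ hl]
        linarith
      have h10 : 0 ≤ Y * A ^ k := by positivity
      have h11 := mul_le_mul_of_nonneg_right h9 h10
      calc 2 / l * (((k + 1 : ℕ) : ℝ) * (Y * (Y * A ^ k))) = 2 / l * (((k + 1 : ℕ) : ℝ) * Y) * (Y * A ^ k) := by ring
        _ ≤ δ * A * (Y * A ^ k) := h11
        _ = δ * (Y * (A ^ k * A)) := by ring
  have s7 : (1 - δ) * (Y * A ^ (Fintype.card κ - 1)) ≤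
      ∑ n ∈ (Ra_P κ m).filter (fun n => off n ≤ l / 2), ∏ h, g h (n h) := by
    rw [s3, s5] at s2
    linarith
  have s8 := mul_le_mul_of_nonneg_right s7 hY0
  rw [← sum_mul] at s1
  refine le_trans (le_of_eq ?_) (s8.trans s1)
  ring

theorem ipp_le {m : ℕ} {v : ℕ → ℝ} {l : ℝ} {y w : ℕ → ℝ} (hy : ∀ a, 0 ≤ y a) (hw : ∀ a, 0 ≤ w a) (h0 h1 : κ) (h01 : h0 ≠ h1) :
    Ipp m v l y w h0 h1 ≤ (∑ a ∈ Icc 1 m, y a * w a) ^ 4 * (∑ a ∈ Icc 1 m, y a ^ 2 * w a) ^ (Fintype.card κ - 2) := by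
  classical
  set Y : ℝ := ∑ a ∈ Icc 1 m, y a * w a with hYdef
  set A : ℝ := ∑ a ∈ Icc 1 m, y a ^ 2 * w a with hAdef
  obtain ⟨g, hg⟩ : ∃ g : κ → ℕ → ℝ, g = fun h a => if h = h0 ∨ h = h1 then y a * w a else y a ^ 2 * w a :=
    ⟨_, rfl⟩
  have hg0 : ∀ a, g h0 a = y a * w a := fun a => by rw [hg]; exact if_pos (Or.inl rfl)
  have hg1 : ∀ a, g h1 a = y a * w a := fun a => by rw [hg]; exact if_pos (Or.inr rfl)
  have hg2 : ∀ h, h ≠ h0 → h ≠ h1 → ∀ a, g h a = y a ^ 2 * w a := fun h e0 e1 a => by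
    rw [hg]
    exact if_neg fun e => e.elim e0 e1
  have hyw : ∀ a, 0 ≤ y a * w a := fun a => mul_nonneg (hy a) (hw a)
  have hgn : ∀ h a, 0 ≤ g h a := by
    intro h a
    by_cases e0 : h = h0
    · rw [e0, hg0]
      exact hyw a
    by_cases e1 : h = h1
    · rw [e1, hg1]
      exact hyw a
    · rw [hg2 h e0 e1]
      exact mul_nonneg (sq_nonneg _) (hw a)
  have he1 : h1 ∈ univ.erase h0 := mem_erase.2 ⟨h01.symm, mem_univ _⟩
  have hX : ∀ n : κ → Fin (m + 1), (y (n h0) * w (n h0)) * ((y (n h1) * w (n h1)) *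
      ∏ h ∈ (univ.erase h0).erase h1, (y (n h) ^ 2 * w (n h))) = ∏ h, g h (n h) := by
    intro n
    rw [← mul_prod_erase univ (fun h => g h (n h)) (mem_univ h0),
      ← mul_prod_erase (univ.erase h0) (fun h => g h (n h)) he1, hg0, hg1]
    congr 2
    exact prod_congr rfl fun h hh =>
      (hg2 h (ne_of_mem_erase (mem_of_mem_erase hh)) (ne_of_mem_erase hh) _).symm
  have hXn : ∀ n : κ → Fin (m + 1), 0 ≤ ∏ h, g h (n h) := fun n => prod_nonneg fun h _ => hgn h _
  have hAdP : ∀ n : κ → Fin (m + 1), n ∈ Ad κ m v l → ∀ h, n h ≠ 0 := by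
    intro n hn
    unfold Ad at hn
    exact (mem_filter.1 hn).2.1
  have hin : ∀ n ∈ Ad κ m v l, (∑ n' ∈ Ad κ m v l, if (∀ h, h ≠ h0 → h ≠ h1 → n h = n' h) then
      ((y (n h0) * w (n h0)) * (y (n' h0) * w (n' h0))) * ((y (n h1) * w (n h1)) * (y (n' h1) * w (n' h1))) *
        ∏ h ∈ (univ.erase h0).erase h1, (y (n h) ^ 2 * w (n h)) else 0) ≤ (∏ h, g h (n h)) * (Y * Y) := by
    intro n _
    rw [← sum_filter]
    obtain ⟨S, hS⟩ : ∃ S, S = (Ad κ m v l).filter (fun n' => ∀ h, h ≠ h0 → h ≠ h1 → n h = n' h) := ⟨_, rfl⟩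
    rw [← hS]
    have i1 : ∀ a ∈ S, ∀ b ∈ S, (a h0, a h1) = (b h0, b h1) → a = b := by
      intro a ha b hb hab
      rw [hS, mem_filter] at ha hb
      funext h
      by_cases e0 : h = h0
      · rw [e0]
        exact congrArg Prod.fst hab
      by_cases e1 : h = h1
      · rw [e1]
        exact congrArg Prod.snd hab
      · rw [← ha.2 h e0 e1, ← hb.2 h e0 e1]
    have i2 : (∑ n' ∈ S, ((y (n h0) * w (n h0)) * (y (n' h0) * w (n' h0))) *
        ((y (n h1) * w (n h1)) * (y (n' h1) * w (n' h1))) *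
        ∏ h ∈ (univ.erase h0).erase h1, (y (n h) ^ 2 * w (n h))) =
        ∑ p ∈ S.image (fun n' : κ → Fin (m + 1) => ((n' h0, n' h1) : Fin (m + 1) × Fin (m + 1))),
          (∏ h, g h (n h)) * ((y (p.1 : Fin (m + 1)) * w (p.1 : Fin (m + 1))) * (y (p.2 : Fin (m + 1)) * w (p.2 : Fin (m + 1)))) := by
      rw [sum_image i1]
      refine sum_congr rfl fun n' _ => ?_
      rw [← hX n]
      ring
    rw [i2]
    refine (sum_le_sum_of_subset_of_nonneg (t := (univ.filter fun a : Fin (m + 1) => a ≠ 0) ×ˢ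
      (univ.filter fun a : Fin (m + 1) => a ≠ 0)) ?_ ?_).trans (le_of_eq ?_)
    · intro p hp
      rw [mem_image] at hp
      obtain ⟨n', hn', rfl⟩ := hp
      rw [hS, mem_filter] at hn'
      have h2 := hAdP n' hn'.1
      rw [mem_product, mem_filter, mem_filter]
      exact ⟨⟨mem_univ _, h2 h0⟩, ⟨mem_univ _, h2 h1⟩⟩
    · intro p _ _
      exact mul_nonneg (hXn n) (mul_nonneg (hyw _) (hyw _))
    · have e := Ra_sum (m := m) (fun a => y a * w a)
      rw [← hYdef] at e
      rw [← mul_sum, sum_product, ← e, sum_mul_sum]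
  have s3 : ∑ n ∈ Ra_P κ m, ∏ h, g h (n h) = Y * (Y * A ^ (Fintype.card κ - 1 - 1)) := by
    rw [Ra_prod, ← mul_prod_erase univ _ (mem_univ h0), ← mul_prod_erase (univ.erase h0) _ he1]
    congr 1
    · exact sum_congr rfl fun a _ => hg0 a
    · congr 1
      · exact sum_congr rfl fun a _ => hg1 a
      · rw [prod_congr rfl fun h hh => sum_congr rfl fun a _ =>
            hg2 h (ne_of_mem_erase (mem_of_mem_erase hh)) (ne_of_mem_erase hh) a, prod_const,
          card_erase_of_mem he1, card_erase_of_mem (mem_univ h0), card_univ]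
  have s4 : Ipp m v l y w h0 h1 ≤ ∑ n ∈ Ad κ m v l, (∏ h, g h (n h)) * (Y * Y) := by
    unfold Ipp
    exact sum_le_sum hin
  have s5 : ∑ n ∈ Ad κ m v l, (∏ h, g h (n h)) * (Y * Y) ≤ ∑ n ∈ Ra_P κ m, (∏ h, g h (n h)) * (Y * Y) := by
    refine sum_le_sum_of_subset_of_nonneg (fun n hn => Ra_mem.2 (hAdP n hn)) fun n _ _ => ?_
    exact mul_nonneg (hXn n) (mul_self_nonneg Y)
  refine s4.trans (s5.trans (le_of_eq ?_))
  rw [← sum_mul, s3]
  have e2 : Fintype.card κ - 1 - 1 = Fintype.card κ - 2 := by omega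
  rw [e2]
  ring

end H86FP
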